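import Pool.Agent.Helper64.CubeGauss.Defs

/-! Numerical bounds for `P` and `c`. -/

namespace Helper64.CubeGauss

open MeasureTheory intervalIntegral Set

lemma g_poly_bound {x : ℝ} (hx : x ∈ Icc (-1 : ℝ) 1) :
    |g x - (1 - x^2/2 + x^4/8 - x^6/48 + x^8/384 - x^10/3840 + x^12/46080 - x^14/645120
      + x^16/10321920 - x^18/185794560)| ≤ 3 / 10 ^ 10 := by
  have hx2 : x ^ 2 ≤ 1 := by
    have h1 := hx.1
    have h2 := hx.2
    nlinarith
  have hz : |-x ^ 2 / 2| ≤ 1 / 2 := by
    rw [neg_div, abs_neg, abs_of_nonneg (by positivity)]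
    linarith
  have h := Real.exp_bound (x := -x ^ 2 / 2) (hz.trans (by norm_num)) (n := 10) (by norm_num)
  have hsum : ∑ m ∈ Finset.range 10, (-x ^ 2 / 2) ^ m / (m.factorial : ℝ)
      = (1 - x^2/2 + x^4/8 - x^6/48 + x^8/384 - x^10/3840 + x^12/46080 - x^14/645120
      + x^16/10321920 - x^18/185794560) := by
    simp only [Finset.sum_range_succ, Finset.sum_range_zero, Nat.factorial]
    push_cast
    ring
  rw [hsum] at h
  unfold g
  refine h.trans ?_
  have h3 : |-x ^ 2 / 2| ^ 10 ≤ (1 / 2) ^ 10 := pow_le_pow_left₀ (abs_nonneg _) hz 10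
  calc |-x ^ 2 / 2| ^ 10 * ((Nat.succ 10 : ℕ) / (((10 : ℕ).factorial : ℝ) * (10 : ℕ)))
      ≤ (1 / 2) ^ 10 * ((Nat.succ 10 : ℕ) / (((10 : ℕ).factorial : ℝ) * (10 : ℕ))) := by
        apply mul_le_mul_of_nonneg_right h3
        positivity
    _ ≤ 3 / 10 ^ 10 := by
        simp only [Nat.factorial]
        norm_num

lemma integral_poly : ∫ x in (-1 : ℝ)..1, (1 - x^2/2 + x^4/8 - x^6/48 + x^8/384 - x^10/3840
      + x^12/46080 - x^14/645120 + x^16/10321920 - x^18/185794560)
    = 2 * (1 - 1/6 + 1/40 - 1/336 + 1/3456 - 1/42240 + 1/599040 - 1/9676800 + 1/175472640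
      - 1/3530096640) := by
  have h : ∀ x : ℝ, HasDerivAt (fun x : ℝ => x - x^3/6 + x^5/40 - x^7/336 + x^9/3456 - x^11/42240
      + x^13/599040 - x^15/9676800 + x^17/175472640 - x^19/3530096640)
      (1 - x^2/2 + x^4/8 - x^6/48 + x^8/384 - x^10/3840
      + x^12/46080 - x^14/645120 + x^16/10321920 - x^18/185794560) x := by
    intro x
    have := (((((((((hasDerivAt_id x).sub ((hasDerivAt_pow 3 x).div_const 6)).add
      ((hasDerivAt_pow 5 x).div_const 40)).sub ((hasDerivAt_pow 7 x).div_const 336)).add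
      ((hasDerivAt_pow 9 x).div_const 3456)).sub ((hasDerivAt_pow 11 x).div_const 42240)).add
      ((hasDerivAt_pow 13 x).div_const 599040)).sub ((hasDerivAt_pow 15 x).div_const 9676800)).add
      ((hasDerivAt_pow 17 x).div_const 175472640)).sub ((hasDerivAt_pow 19 x).div_const 3530096640)
    refine HasDerivAt.congr_deriv this ?_
    norm_num
    ring
  rw [intervalIntegral.integral_eq_sub_of_hasDerivAt (fun x _ => h x)
    ((by fun_prop : Continuous fun x : ℝ => (1 - x^2/2 + x^4/8 - x^6/48 + x^8/384 - x^10/3840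
      + x^12/46080 - x^14/645120 + x^16/10321920 - x^18/185794560)).intervalIntegrable _ _)]
  norm_num

lemma P_bounds : (171124878 : ℝ) / 10 ^ 8 < P ∧ P < (171124879 : ℝ) / 10 ^ 8 := by
  have h1 : |P - 2 * (1 - 1/6 + 1/40 - 1/336 + 1/3456 - 1/42240 + 1/599040 - 1/9676800
      + 1/175472640 - 1/3530096640)| ≤ 6 / 10 ^ 10 := by
    rw [← integral_poly]
    unfold P
    rw [← intervalIntegral.integral_sub (g_cont.intervalIntegrable _ _)
      ((by fun_prop : Continuous fun x : ℝ => (1 - x^2/2 + x^4/8 - x^6/48 + x^8/384 - x^10/3840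
      + x^12/46080 - x^14/645120 + x^16/10321920 - x^18/185794560)).intervalIntegrable _ _)]
    have := intervalIntegral.norm_integral_le_of_norm_le_const (a := (-1 : ℝ)) (b := 1)
      (C := 3 / 10 ^ 10) (f := fun x => g x - (1 - x^2/2 + x^4/8 - x^6/48 + x^8/384 - x^10/3840
      + x^12/46080 - x^14/645120 + x^16/10321920 - x^18/185794560)) (fun x hx => by
        rw [uIoc_of_le (by norm_num)] at hx
        exact g_poly_bound ⟨hx.1.le, hx.2⟩)
    rw [Real.norm_eq_abs] at this
    refine this.trans ?_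
    rw [show (1 : ℝ) - -1 = 2 by norm_num, abs_of_pos (by norm_num : (0 : ℝ) < 2)]
    norm_num
  rw [abs_le] at h1
  constructor
  · have := h1.1
    norm_num at this ⊢
    linarith
  · have := h1.2
    norm_num at this ⊢
    linarith

lemma exp_half_bounds : (606530659 : ℝ) / 10 ^ 9 < Real.exp (-1 / 2) ∧
    Real.exp (-1 / 2) < (606530660 : ℝ) / 10 ^ 9 := by
  have h := Real.exp_bound (x := (-1 / 2 : ℝ)) (by norm_num [abs_le]) (n := 12) (by norm_num)
  simp only [Finset.sum_range_succ, Finset.sum_range_zero, Nat.factorial] at h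
  rw [abs_le] at h
  norm_num [abs_of_pos, abs_of_neg] at h
  constructor
  · norm_num; linarith [h.1]
  · norm_num; linarith [h.2]

lemma c_bounds : (70887490 : ℝ) / 10 ^ 8 < c ∧ c < (70887491 : ℝ) / 10 ^ 8 := by
  obtain ⟨h1, h2⟩ := P_bounds
  obtain ⟨h3, h4⟩ := exp_half_bounds
  have hP := P_pos
  unfold c
  constructor
  · rw [lt_div_iff₀ hP]
    norm_num at *
    linarith
  · rw [div_lt_iff₀ hP]
    norm_num at *
    linarith

end Helper64.CubeGauss
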