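import Pool.Agent.Helper64.CubeGauss.Trig
import Pool.Agent.Helper64.CubeGauss.Num

/-! The sharp upper bound `φ t ≤ exp (-(σ² t²/2 + c₄ t⁴ + c₆ t⁶))` on `[0, 7/2]`. -/

namespace Helper64.CubeGauss

open MeasureTheory intervalIntegral Set

/-- conditioned variance -/
noncomputable def s2 : ℝ := 1 - c
noncomputable def c4 : ℝ := c * (3 * c - 2) / 24
noncomputable def c6 : ℝ := 9 / 50000

lemma s2_bounds : (29112509 : ℝ) / 10 ^ 8 < s2 ∧ s2 < (29112510 : ℝ) / 10 ^ 8 := by
  obtain ⟨h1, h2⟩ := c_bounds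
  unfold s2
  constructor <;> norm_num at * <;> linarith

lemma c4_bounds : (37400 : ℝ) / 10 ^ 7 < c4 ∧ c4 < (37401 : ℝ) / 10 ^ 7 := by
  obtain ⟨h1, h2⟩ := c_bounds
  unfold c4
  constructor <;> nlinarith

lemma c4_pos : 0 < c4 := by have := c4_bounds; linarith

/-- lower barrier for `y(√x) = -φ'(√x)/(√x φ(√x))` -/
noncomputable def ylow (x : ℝ) : ℝ := s2 + 4 * c4 * x + 6 * c6 * x^2

lemma ylow_lt {x : ℝ} (h0 : 0 ≤ x) (h1 : x ≤ 12.5) : ylow x < 0.66 := by
  obtain ⟨h2, h3⟩ := s2_bounds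
  obtain ⟨h4, h5⟩ := c4_bounds
  have e : ylow x = s2 + 4 * c4 * x + 6 * (9/50000) * x^2 := rfl
  rw [e]
  nlinarith

lemma ylow_poly {x : ℝ} (h0 : 0 ≤ x) (h1 : x ≤ 9.8697) :
    0 ≤ (1 - ylow x) * (Lp x - ylow x) - 2 * (4 * c4 + 12 * c6 * x) := by
  obtain ⟨h2, h3⟩ := c_bounds
  obtain ⟨h4, h5⟩ := c4_bounds
  have e1 : (1 - ylow x) * (Lp x - ylow x) - 2 * (4 * c4 + 12 * c6 * x)
      = x * ((c * (1/45 - 4*c4) - 4*c4*(c - 2/3) - 24 * c6)
        + x * (c * (2/945 - 6*c6) - 4*c4*(1/45 - 4*c4) - 6*c6*(c-2/3))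
        + x^2 * (c/4725 - 4*c4*(2/945-6*c6) - 6*c6*(1/45-4*c4))
        - x^3 * (4*c4/4725 + 6*c6*(2/945-6*c6)) - x^4 * (6*c6/4725)) := by
    have hs : s2 = 1 - c := rfl
    have h4' : c4 = c * (3 * c - 2) / 24 := rfl
    unfold ylow Lp
    rw [hs]
    linear_combination (-8 : ℝ) * h4'
  rw [e1]
  apply mul_nonneg h0
  have hc6 : c6 = 9/50000 := rfl
  rw [hc6]
  have a0 : 0 ≤ c * (1/45 - 4*c4) - 4*c4*(c - 2/3) - 24 * (9/50000) := by nlinarith
  have a1 : 0.0005 ≤ c * (2/945 - 6*(9/50000)) - 4*c4*(1/45 - 4*c4) - 6*(9/50000)*(c-2/3) := by nlinarith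
  have a2 : 0.00012 ≤ c/4725 - 4*c4*(2/945-6*(9/50000)) - 6*(9/50000)*(1/45-4*c4) := by nlinarith
  have a3 : 4*c4/4725 + 6*(9/50000)*(2/945-6*(9/50000)) ≤ 0.0000045 := by nlinarith
  have a4 : (6*(9/50000)/4725 : ℝ) ≤ 0.0000003 := by norm_num
  have x2 : 0 ≤ x^2 := by positivity
  have x3 : 0 ≤ x^3 := by positivity
  have x4 : 0 ≤ x^4 := by positivity
  have b1 : x * 0.0005 ≤ x * (c * (2/945 - 6*(9/50000)) - 4*c4*(1/45 - 4*c4) - 6*(9/50000)*(c-2/3)) :=
    mul_le_mul_of_nonneg_left a1 h0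
  have b2 : x^2 * 0.00012 ≤ x^2 * (c/4725 - 4*c4*(2/945-6*(9/50000)) - 6*(9/50000)*(1/45-4*c4)) :=
    mul_le_mul_of_nonneg_left a2 x2
  have b3 : x^3 * (4*c4/4725 + 6*(9/50000)*(2/945-6*(9/50000))) ≤ x^3 * 0.0000045 :=
    mul_le_mul_of_nonneg_left a3 x3
  have b4 : x^4 * (6*(9/50000)/4725 : ℝ) ≤ x^4 * 0.0000003 := mul_le_mul_of_nonneg_left a4 x4
  have b5 : x^3 ≤ 9.8697 * x^2 := by nlinarith
  have b6 : x^4 ≤ 9.8697^2 * x^2 := by nlinarith
  nlinarith

lemma pi_sq_lt : Real.pi^2 < 9.8697 := by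
  have := Real.pi_lt_d4
  have h2 := Real.pi_pos
  nlinarith

/-- **Lower barrier** for `-φ'/(tφ)`: `c sin t ≤ t φ(t) (1 - ylow t²)` on `[0,π]`. -/
lemma barrier_low {t : ℝ} (h0 : 0 ≤ t) (h1 : t ≤ Real.pi) :
    c * Real.sin t ≤ t * φ t * (1 - ylow (t^2)) := by
  rcases h0.eq_or_lt with h0' | hpos
  · rw [← h0']; simp
  set W : ℝ → ℝ := fun t => (φ t - c * Real.sinc t / (1 - ylow (t^2))) * Real.exp (t^2/2) with hW
  have hG : ∀ t ∈ Icc (0:ℝ) Real.pi, 0 < 1 - ylow (t^2) := by
    intro t ht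
    have hsq : t^2 ≤ Real.pi^2 := pow_le_pow_left₀ ht.1 ht.2 2
    have := ylow_lt (sq_nonneg t) (hsq.trans (pi_sq_lt.le.trans (by norm_num)))
    linarith
  have hycont : Continuous fun t : ℝ => 1 - ylow (t^2) := by unfold ylow; fun_prop
  have hder : ∀ t ∈ Ioo (0:ℝ) Real.pi, HasDerivAt W
      (((c * Real.sin t - t * φ t) - (c * ((Real.cos t * t - Real.sin t * 1)/t^2) * (1 - ylow (t^2))
        - c * (Real.sin t / t) * (-(2*t*(4*c4 + 12*c6*t^2))))/(1 - ylow (t^2))^2) * Real.exp (t^2/2)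
        + (φ t - c * (Real.sin t / t) / (1 - ylow (t^2))) * (Real.exp (t^2/2) * t)) t := by
    intro t ht
    have hsinc : HasDerivAt Real.sinc ((Real.cos t * t - Real.sin t * 1)/t^2) t := by
      have h1 : HasDerivAt (fun t => Real.sin t / t) ((Real.cos t * t - Real.sin t * 1)/t^2) t :=
        (Real.hasDerivAt_sin t).div (hasDerivAt_id t) ht.1.ne'
      apply h1.congr_of_eventuallyEq
      filter_upwards [lt_mem_nhds ht.1] with s hs
      rw [Real.sinc_of_ne_zero hs.ne']
    have h2 : HasDerivAt (fun t : ℝ => t^2) (2*t) t := by simpa using hasDerivAt_pow 2 t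
    have hy : HasDerivAt (fun t : ℝ => 1 - ylow (t^2)) (-(2*t*(4*c4 + 12*c6*t^2))) t := by
      unfold ylow
      have := (((hasDerivAt_const t s2).add (h2.const_mul (4*c4))).add ((h2.pow 2).const_mul (6*c6))).const_sub 1
      refine HasDerivAt.congr_deriv this ?_
      norm_num
      ring
    have he : HasDerivAt (fun t : ℝ => Real.exp (t^2/2)) (Real.exp (t^2/2) * t) t := by
      exact ((h2.div_const 2).exp).congr_deriv (by ring)
    have := ((hasDerivAt_φ t).sub ((hsinc.const_mul c).div hy (hG t ⟨ht.1.le, ht.2.le⟩).ne')).mul he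
    refine HasDerivAt.congr_deriv this ?_
    simp only [Pi.sub_apply, Pi.div_apply]
    rw [Real.sinc_of_ne_zero ht.1.ne']
  have hmono : MonotoneOn W (Icc 0 Real.pi) := by
    apply monotoneOn_of_deriv_nonneg (convex_Icc 0 Real.pi)
    · apply ContinuousOn.mul
      · apply φ_cont.continuousOn.sub
        apply ContinuousOn.div
        · exact (Real.continuous_sinc.const_smul c).continuousOn
        · exact hycont.continuousOn
        · exact fun t ht => (hG t ht).ne'
      · fun_prop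
    · intro t ht
      rw [interior_Icc] at ht
      exact (hder t ht).differentiableAt.differentiableWithinAt
    · intro t ht
      rw [interior_Icc] at ht
      rw [(hder t ht).deriv]
      have ht0 : 0 < t := ht.1
      have hs : 0 < Real.sin t := Real.sin_pos_of_pos_of_lt_pi ht.1 ht.2
      have hGt := hG t ⟨ht.1.le, ht.2.le⟩
      have hL := trig_L ht.1.le ht.2.le
      have hcp := c_pos
      have hsq : t^2 ≤ 9.8697 := (pow_le_pow_left₀ ht.1.le ht.2.le 2).trans pi_sq_lt.le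
      have hp := ylow_poly (sq_nonneg t) hsq
      have e : ((c * Real.sin t - t * φ t) - (c * ((Real.cos t * t - Real.sin t * 1)/t^2) * (1 - ylow (t^2))
        - c * (Real.sin t / t) * (-(2*t*(4*c4 + 12*c6*t^2))))/(1 - ylow (t^2))^2) * Real.exp (t^2/2)
        + (φ t - c * (Real.sin t / t) / (1 - ylow (t^2))) * (Real.exp (t^2/2) * t)
        = Real.exp (t^2/2) * (c / (t^2 * (1 - ylow (t^2))^2)) *
          ((1 - ylow (t^2)) * (Real.sin t - t * Real.cos t - t^2 * Real.sin t * ylow (t^2))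
            - 2 * t^2 * Real.sin t * (4*c4 + 12*c6*t^2)) := by
        have := hGt.ne'
        field_simp
        ring
      rw [e]
      apply mul_nonneg
      · positivity
      · have h3 : (1 - ylow (t^2)) * (t^2 * Real.sin t * (Lp (t^2) - ylow (t^2))) ≤
            (1 - ylow (t^2)) * (Real.sin t - t * Real.cos t - t^2 * Real.sin t * ylow (t^2)) := by
          apply mul_le_mul_of_nonneg_left _ hGt.le
          linarith
        have h4 : 0 ≤ t^2 * Real.sin t * ((1 - ylow (t^2)) * (Lp (t^2) - ylow (t^2)) - 2 * (4 * c4 + 12 * c6 * t^2)) :=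
          mul_nonneg (by positivity) hp
        linarith
  have h := hmono (left_mem_Icc.mpr Real.pi_pos.le) ⟨h0, h1⟩ h0
  have hW0 : W 0 = 0 := by
    have hcp := c_pos.ne'
    simp only [hW, Real.sinc_zero, φ_zero]
    have : 1 - ylow (0^2) = c := by unfold ylow s2; ring
    rw [this]
    field_simp
    simp
  rw [hW0] at h
  have h5 : 0 ≤ φ t - c * Real.sinc t / (1 - ylow (t^2)) :=
    nonneg_of_mul_nonneg_left h (Real.exp_pos _)
  rw [Real.sinc_of_ne_zero hpos.ne'] at h5
  have hGt := hG t ⟨h0, h1⟩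
  have h6 : c * (Real.sin t / t) / (1 - ylow (t^2)) ≤ φ t := by linarith
  rw [div_le_iff₀ hGt, ← mul_div_assoc, div_le_iff₀ hpos] at h6
  linarith

/-- `φ > 0` on `[0,π]`. -/
lemma φ_pos_of_le_pi {t : ℝ} (h0 : 0 ≤ t) (h1 : t ≤ Real.pi) : 0 < φ t := by
  have hmono : MonotoneOn (fun t => φ t * Real.exp (t^2/2)) (Icc 0 Real.pi) := by
    have hder : ∀ t, HasDerivAt (fun t => φ t * Real.exp (t^2/2)) (c * Real.sin t * Real.exp (t^2/2)) t := by
      intro t
      have h2 : HasDerivAt (fun t : ℝ => t^2) (2*t) t := by simpa using hasDerivAt_pow 2 t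
      exact ((hasDerivAt_φ t).mul (h2.div_const 2).exp).congr_deriv (by ring)
    apply monotoneOn_of_deriv_nonneg (convex_Icc 0 Real.pi)
    · exact fun t _ => (hder t).continuousAt.continuousWithinAt
    · exact fun t _ => (hder t).differentiableAt.differentiableWithinAt
    · intro t ht
      rw [interior_Icc] at ht
      rw [(hder t).deriv]
      have hs : 0 ≤ Real.sin t := Real.sin_nonneg_of_nonneg_of_le_pi ht.1.le ht.2.le
      have := c_pos
      positivity
  have h := hmono (left_mem_Icc.mpr Real.pi_pos.le) ⟨h0, h1⟩ h0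
  simp only [φ_zero] at h
  norm_num at h
  have hexp := Real.exp_pos (t^2/2)
  by_contra hc
  push Not at hc
  have := mul_nonpos_of_nonpos_of_nonneg hc hexp.le
  linarith

/-- `φ(t) e^{t²/2}` is antitone on `[π, 2π]`. -/
lemma φ_exp_antitone : AntitoneOn (fun t => φ t * Real.exp (t^2/2)) (Icc Real.pi (2*Real.pi)) := by
  have hder : ∀ t, HasDerivAt (fun t => φ t * Real.exp (t^2/2)) (c * Real.sin t * Real.exp (t^2/2)) t := by
    intro t
    have h2 : HasDerivAt (fun t : ℝ => t^2) (2*t) t := by simpa using hasDerivAt_pow 2 t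
    exact ((hasDerivAt_φ t).mul (h2.div_const 2).exp).congr_deriv (by ring)
  apply antitoneOn_of_deriv_nonpos (convex_Icc _ _)
  · exact fun t _ => (hder t).continuousAt.continuousWithinAt
  · exact fun t _ => (hder t).differentiableAt.differentiableWithinAt
  · intro t ht
    rw [interior_Icc] at ht
    rw [(hder t).deriv]
    have hs : Real.sin t ≤ 0 := by
      have : Real.sin t = - Real.sin (t - Real.pi) := by rw [Real.sin_sub_pi]; ring
      rw [this]
      have := Real.sin_nonneg_of_nonneg_of_le_pi (x := t - Real.pi) (by linarith [ht.1]) (by linarith [ht.2])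
      linarith
    have := c_pos
    have hexp := Real.exp_pos (t^2/2)
    nlinarith [mul_nonneg this.le hexp.le]

/-- The exponent of the upper bound. -/
noncomputable def Λ (t : ℝ) : ℝ := s2 * t^2/2 + c4 * t^4 + c6 * t^6

lemma Λ_hasDeriv (t : ℝ) : HasDerivAt Λ (t * ylow (t^2)) t := by
  unfold Λ ylow
  have := ((((hasDerivAt_pow 2 t).const_mul s2).div_const 2).add ((hasDerivAt_pow 4 t).const_mul c4)).add
    ((hasDerivAt_pow 6 t).const_mul c6)
  refine HasDerivAt.congr_deriv this ?_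
  norm_num
  ring

/-- **Upper bound** for `φ` on `[0,7/2]`. -/
lemma φ_le_exp {t : ℝ} (h0 : 0 ≤ t) (h1 : t ≤ 7/2) : φ t ≤ Real.exp (-Λ t) := by
  rcases le_or_gt (φ t) 0 with hneg | hpos
  · exact hneg.trans (Real.exp_pos _).le
  -- φ ≥ 0 on [0,t]
  have hnn : ∀ s ∈ Icc 0 t, 0 ≤ φ s := by
    intro s hs
    rcases le_or_gt s Real.pi with h | h
    · exact (φ_pos_of_le_pi hs.1 h).le
    · have hpi := Real.pi_gt_d2
      have := φ_exp_antitone ⟨h.le, by linarith [hs.2]⟩ ⟨by linarith [hs.2], by linarith⟩ hs.2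
      simp only at this
      have h3 : 0 < φ s * Real.exp (s^2/2) := lt_of_lt_of_le (mul_pos hpos (Real.exp_pos _)) this
      exact (pos_of_mul_pos_left h3 (Real.exp_pos _).le).le
  have hder : ∀ s, HasDerivAt (fun s => φ s * Real.exp (Λ s))
      (Real.exp (Λ s) * (c * Real.sin s - s * φ s * (1 - ylow (s^2)))) s := by
    intro s
    exact ((hasDerivAt_φ s).mul (Λ_hasDeriv s).exp).congr_deriv (by ring)
  have hanti : AntitoneOn (fun s => φ s * Real.exp (Λ s)) (Icc 0 t) := by
    apply antitoneOn_of_deriv_nonpos (convex_Icc _ _)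
    · exact fun t _ => (hder t).continuousAt.continuousWithinAt
    · exact fun t _ => (hder t).differentiableAt.differentiableWithinAt
    · intro s hs
      rw [interior_Icc] at hs
      rw [(hder s).deriv]
      apply mul_nonpos_of_nonneg_of_nonpos (Real.exp_pos _).le
      rcases le_or_gt s Real.pi with h | h
      · linarith [barrier_low hs.1.le h]
      · have hsin : Real.sin s ≤ 0 := by
          have : Real.sin s = - Real.sin (s - Real.pi) := by rw [Real.sin_sub_pi]; ring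
          rw [this]
          have hpi := Real.pi_gt_d2
          have := Real.sin_nonneg_of_nonneg_of_le_pi (x := s - Real.pi) (by linarith) (by linarith [hs.2])
          linarith
        have hy := ylow_lt (x := s^2) (sq_nonneg s) (by nlinarith [hs.1, hs.2])
        have h3 := hnn s ⟨hs.1.le, hs.2.le⟩
        have hcp := c_pos
        have h4 : 0 ≤ s * φ s * (1 - ylow (s^2)) :=
          mul_nonneg (mul_nonneg hs.1.le h3) (by linarith)
        have h5 : c * Real.sin s ≤ 0 := mul_nonpos_of_nonneg_of_nonpos hcp.le hsin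
        linarith
  have h := hanti (left_mem_Icc.mpr h0) (right_mem_Icc.mpr h0) h0
  simp only [φ_zero] at h
  have hΛ0 : Λ 0 = 0 := by unfold Λ; ring
  rw [hΛ0, Real.exp_zero, mul_one] at h
  rw [Real.exp_neg, ← one_div, le_div_iff₀ (Real.exp_pos _)]
  exact h

end Helper64.CubeGauss
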