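import Pool.Agent.Helper64.CubeGauss.Trig
import Pool.Agent.Helper64.CubeGauss.Num

/-! The upper barrier for `y = -φ'/(tφ)` on `(0,5/2]`. -/

namespace Helper64.CubeGauss

open MeasureTheory intervalIntegral Set Filter Topology

/-- lower barrier for `Y - y` in `x = t²` -/
noncomputable def rho (x : ℝ) : ℝ := (c - 2/3) + 7/1000 * x

lemma rho_pos {x : ℝ} (hx : 0 ≤ x) : 0 < rho x := by
  obtain ⟨h1, h2⟩ := c_bounds
  unfold rho
  norm_num at h1
  linarith

lemma A_nonneg {t : ℝ} (h0 : 0 ≤ t) (h1 : t ≤ 5/2) :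
    0 ≤ t * Real.cos t + (t^2 - 1) * Real.sin t := by
  have hpi1 := Real.pi_gt_d2
  have hpi2 := Real.pi_lt_d2
  rcases le_or_gt t (Real.pi/2) with h | h
  · have hder : ∀ t, HasDerivAt (fun t : ℝ => t * Real.cos t + (t^2 - 1) * Real.sin t)
        (t * (Real.sin t + t * Real.cos t)) t := by
      intro t
      have h2 : HasDerivAt (fun t : ℝ => t^2 - 1) (2*t) t := by
        simpa using (hasDerivAt_pow 2 t).sub_const 1
      exact (((hasDerivAt_id t).mul (Real.hasDerivAt_cos t)).add (h2.mul (Real.hasDerivAt_sin t))).congr_deriv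
        (by simp; ring)
    have hmono : MonotoneOn (fun t : ℝ => t * Real.cos t + (t^2 - 1) * Real.sin t) (Icc 0 (Real.pi/2)) := by
      apply monotoneOn_of_deriv_nonneg (convex_Icc _ _)
      · exact fun t _ => (hder t).continuousAt.continuousWithinAt
      · exact fun t _ => (hder t).differentiableAt.differentiableWithinAt
      · intro t ht
        rw [interior_Icc] at ht
        rw [(hder t).deriv]
        have hs : 0 ≤ Real.sin t := Real.sin_nonneg_of_nonneg_of_le_pi ht.1.le (by linarith [ht.2])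
        have hk : 0 ≤ Real.cos t := Real.cos_nonneg_of_mem_Icc ⟨by linarith [ht.1], ht.2.le⟩
        have := ht.1.le
        positivity
    have := hmono (left_mem_Icc.mpr (by linarith)) ⟨h0, h⟩ h0
    simpa using this
  · set u := t - Real.pi/2 with hu
    have ht : t = u + Real.pi/2 := by rw [hu]; ring
    have hu0 : 0 ≤ u := by linarith
    have hu1 : u ≤ 0.93 := by linarith
    have hcos : Real.cos t = -Real.sin u := by rw [ht, Real.cos_add_pi_div_two]
    have hsin : Real.sin t = Real.cos u := by rw [ht, Real.sin_add_pi_div_two]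
    have h3 : Real.sin u ≤ u := Real.sin_le hu0
    have h4 : 1 - u^2/2 ≤ Real.cos u := Real.one_sub_sq_div_two_le_cos
    rw [hcos, hsin]
    have ht1 : 1.57 + u ≤ t := by linarith
    have ht2 : t ≤ 1.58 + u := by linarith
    have h5 : (1.57+u)^2 - 1 ≤ t^2 - 1 := by nlinarith
    have h6 : 0 ≤ 1 - u^2/2 := by nlinarith
    have h7 : ((1.57+u)^2 - 1) * (1 - u^2/2) ≤ (t^2 - 1) * Real.cos u := by
      apply mul_le_mul h5 h4 h6
      nlinarith
    have h8 : t * Real.sin u ≤ (1.58 + u) * u := by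
      apply mul_le_mul ht2 h3 _ (by linarith)
      exact Real.sin_nonneg_of_nonneg_of_le_pi hu0 (by linarith)
    have h9 : 0 ≤ ((1.57+u)^2 - 1) * (1 - u^2/2) - (1.58 + u) * u := by
      have e : ((1.57+u)^2 - 1) * (1 - u^2/2) - (1.58 + u) * u
        = (1.4649 - 0.73245*u^2 - 0.5*u^4) + 1.56*u - 1.57*u^3 := by ring
      rw [e]
      have a1 : u^2 ≤ 0.8649 := by nlinarith
      have a2 : u^4 ≤ 0.8649^2 := by nlinarith
      have a3 : u^3 ≤ 0.8649 * u := by nlinarith
      nlinarith
    linarith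

/-- the denominator of the barrier -/
noncomputable def Kf (t : ℝ) : ℝ := t * Real.cos t - Real.sin t + (1 + rho (t^2)) * (t^2 * Real.sin t)

lemma Kf_pos {t : ℝ} (h0 : 0 < t) (h1 : t ≤ 5/2) : 0 < Kf t := by
  have hA := A_nonneg h0.le h1
  have hs : 0 < Real.sin t := Real.sin_pos_of_pos_of_lt_pi h0 (by linarith [Real.pi_gt_d2])
  have hr := rho_pos (sq_nonneg t)
  have e : Kf t = (t * Real.cos t + (t^2 - 1) * Real.sin t) + rho (t^2) * (t^2 * Real.sin t) := by
    unfold Kf; ring
  rw [e]
  have : 0 < rho (t^2) * (t^2 * Real.sin t) := by positivity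
  linarith

lemma Kf_le {t : ℝ} (h0 : 0 ≤ t) (h1 : t ≤ 5/2) : Kf t ≤ t^2 * Real.sin t * (1 + rho (t^2) - Lp (t^2)) := by
  have := trig_L h0 (by linarith [Real.pi_gt_d2])
  unfold Kf
  linarith

lemma rho_poly {x : ℝ} (h0 : 0 ≤ x) :
    0 ≤ 2 * Mp x - rho x * (1 + rho x - Lp x) - 14/1000 := by
  obtain ⟨h1, h2⟩ := c_bounds
  set r := c - 2/3 with hr
  have hr1 : 0.042208 < r := by norm_num at h1 ⊢; linarith
  have hr2 : r < 0.042209 := by norm_num at h2 ⊢; linarith
  have e : 2 * Mp x - rho x * (1 + rho x - Lp x) - 14/1000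
      = (2/45 - r * (2/3 + r) - 14/1000) + x * (8/945 - r * (7/1000 - 1/45) - 7/1000 * (2/3 + r))
        + x^2 * (2/1575 - 7/1000*(7/1000 - 1/45) + r * (2/945)) + x^3 * (7/1000 * (2/945) + r/4725)
        + x^4 * (7/1000/4725) := by
    unfold Mp rho Lp
    rw [← hr]
    ring
  rw [e]
  have a0 : 0 ≤ 2/45 - r * (2/3 + r) - 14/1000 := by nlinarith
  have a1 : 0 ≤ 8/945 - r * (7/1000 - 1/45) - 7/1000 * (2/3 + r) := by nlinarith
  have a2 : 0 ≤ 2/1575 - 7/1000*(7/1000 - 1/45) + r * (2/945) := by nlinarith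
  have a3 : 0 ≤ 7/1000 * (2/945) + r/4725 := by nlinarith
  positivity

/-- **Upper barrier**: `φ(t) K(t) ≤ c t sin² t` on `[0,5/2]`. -/
lemma barrier_up {t : ℝ} (h0 : 0 < t) (h1 : t ≤ 5/2) :
    φ t * Kf t ≤ c * t * Real.sin t^2 := by
  set W : ℝ → ℝ := fun t => (c * t * Real.sin t^2 / Kf t - φ t) * Real.exp (t^2/2) with hW
  set W0 : ℝ → ℝ := fun t => (c * Real.sinc t / (1 + rho (t^2) - Lp (t^2)) - φ t) * Real.exp (t^2/2) with hW0
  have hpi1 := Real.pi_gt_d2
  have hcp := c_pos
  have hder : ∀ t, 0 < t → t ≤ 5/2 → HasDerivAt W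
      ((((c * 1 * Real.sin t^2 + c * t * (2 * Real.sin t * Real.cos t)) * Kf t
        - c * t * Real.sin t^2 * (-(t * Real.sin t) + (2*t*(7/1000) * (t^2 * Real.sin t)
          + (1 + rho (t^2)) * (2*t * Real.sin t + t^2 * Real.cos t))))/(Kf t)^2
        - (c * Real.sin t - t * φ t)) * Real.exp (t^2/2)
        + (c * t * Real.sin t^2 / Kf t - φ t) * (Real.exp (t^2/2) * t)) t := by
    intro t ht0 ht1
    have h2 : HasDerivAt (fun t : ℝ => t^2) (2*t) t := by simpa using hasDerivAt_pow 2 t
    have hs := Real.hasDerivAt_sin t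
    have hc := Real.hasDerivAt_cos t
    have hs2 : HasDerivAt (fun t : ℝ => Real.sin t^2) (2 * Real.sin t * Real.cos t) t :=
      HasDerivAt.congr_deriv (hs.pow 2) (by norm_num)
    have hr : HasDerivAt (fun t : ℝ => 1 + rho (t^2)) (2*t*(7/1000)) t := by
      unfold rho
      exact (((h2.const_mul (7/1000)).const_add (c - 2/3)).const_add 1).congr_deriv (by ring)
    have hK : HasDerivAt Kf (-(t * Real.sin t) + (2*t*(7/1000) * (t^2 * Real.sin t)
          + (1 + rho (t^2)) * (2*t * Real.sin t + t^2 * Real.cos t))) t := by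
      have : HasDerivAt (fun t : ℝ => t * Real.cos t - Real.sin t + (1 + rho (t^2)) * (t^2 * Real.sin t)) _ t :=
        ((((hasDerivAt_id t).mul hc).sub hs).add (hr.mul (h2.mul hs)))
      refine HasDerivAt.congr_deriv this ?_
      simp
    have hn : HasDerivAt (fun t : ℝ => c * t * Real.sin t^2)
        (c * 1 * Real.sin t^2 + c * t * (2 * Real.sin t * Real.cos t)) t :=
      (((hasDerivAt_id t).const_mul c).mul hs2)
    have he : HasDerivAt (fun t : ℝ => Real.exp (t^2/2)) (Real.exp (t^2/2) * t) t := by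
      exact ((h2.div_const 2).exp).congr_deriv (by ring)
    exact ((hn.div hK (Kf_pos ht0 ht1).ne').sub (hasDerivAt_φ t)).mul he
  have hmono : MonotoneOn W (Ioc 0 (5/2)) := by
    apply monotoneOn_of_deriv_nonneg (convex_Ioc _ _)
    · exact fun t ht => (hder t ht.1 ht.2).continuousAt.continuousWithinAt
    · intro t ht
      rw [interior_Ioc] at ht
      exact (hder t ht.1 ht.2.le).differentiableAt.differentiableWithinAt
    · intro t ht
      rw [interior_Ioc] at ht
      rw [(hder t ht.1 ht.2.le).deriv]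
      have ht0 : 0 < t := ht.1
      have hK := Kf_pos ht.1 ht.2.le
      have hs : 0 < Real.sin t := Real.sin_pos_of_pos_of_lt_pi ht.1 (by linarith [ht.2])
      have hcs := Real.sin_sq_add_cos_sq t
      have e : ((((c * 1 * Real.sin t^2 + c * t * (2 * Real.sin t * Real.cos t)) * Kf t
        - c * t * Real.sin t^2 * (-(t * Real.sin t) + (2*t*(7/1000) * (t^2 * Real.sin t)
          + (1 + rho (t^2)) * (2*t * Real.sin t + t^2 * Real.cos t))))/(Kf t)^2
        - (c * Real.sin t - t * φ t)) * Real.exp (t^2/2)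
        + (c * t * Real.sin t^2 / Kf t - φ t) * (Real.exp (t^2/2) * t))
        = Real.exp (t^2/2) * (c * Real.sin t / (Kf t)^2) *
          ((Real.sin t + 2 * t * Real.cos t) * Kf t
            - t * Real.sin t * (-(t * Real.sin t) + (2*t*(7/1000) * (t^2 * Real.sin t)
              + (1 + rho (t^2)) * (2*t * Real.sin t + t^2 * Real.cos t)))
            + t^2 * Real.sin t * Kf t - (Kf t)^2) := by
        have := hK.ne'
        field_simp
        ring
      rw [e]
      apply mul_nonneg (by positivity)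
      have e2 : ((Real.sin t + 2 * t * Real.cos t) * Kf t
            - t * Real.sin t * (-(t * Real.sin t) + (2*t*(7/1000) * (t^2 * Real.sin t)
              + (1 + rho (t^2)) * (2*t * Real.sin t + t^2 * Real.cos t)))
            + t^2 * Real.sin t * Kf t - (Kf t)^2)
          = (t^2 + t * Real.sin t * Real.cos t - 2 * Real.sin t^2) - rho (t^2) * t^2 * Real.sin t * Kf t
            - 14/1000 * t^4 * Real.sin t^2 := by
        unfold Kf
        linear_combination (t^2) * hcs
      rw [e2]
      have hM := trig_M ht.1.le (by linarith [ht.2])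
      have hKle := Kf_le ht.1.le ht.2.le
      have hr := rho_pos (sq_nonneg t)
      have h3 : rho (t^2) * t^2 * Real.sin t * Kf t ≤
          rho (t^2) * t^2 * Real.sin t * (t^2 * Real.sin t * (1 + rho (t^2) - Lp (t^2))) :=
        mul_le_mul_of_nonneg_left hKle (by positivity)
      have h4 : 0 ≤ t^4 * Real.sin t^2 * (2 * Mp (t^2) - rho (t^2) * (1 + rho (t^2) - Lp (t^2)) - 14/1000) :=
        mul_nonneg (by positivity) (rho_poly (sq_nonneg t))
      linarith
  -- comparison with W0
  have hden : ∀ t, 0 ≤ t → t ≤ 5/2 → 0 < 1 + rho (t^2) - Lp (t^2) := by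
    intro t ht0 ht1
    have hx : t^2 ≤ 25/4 := by nlinarith
    have hx0 := sq_nonneg t
    have hr := rho_pos hx0
    have hL : Lp (t^2) ≤ Lp (25/4) := by
      unfold Lp
      have h2 : (t^2)^2 ≤ (25/4)^2 := pow_le_pow_left₀ hx0 hx 2
      have h3 : (t^2)^3 ≤ (25/4)^3 := pow_le_pow_left₀ hx0 hx 3
      linarith
    have hL2 : Lp (25/4) < 1 := by unfold Lp; norm_num
    linarith
  have hWW0 : ∀ t, 0 < t → t ≤ 5/2 → W0 t ≤ W t := by
    intro t ht0 ht1
    simp only [hW, hW0]
    apply mul_le_mul_of_nonneg_right _ (Real.exp_pos _).le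
    have hs : 0 < Real.sin t := Real.sin_pos_of_pos_of_lt_pi ht0 (by linarith)
    have hK := Kf_pos ht0 ht1
    have hd := hden t ht0.le ht1
    have : c * Real.sinc t / (1 + rho (t^2) - Lp (t^2)) ≤ c * t * Real.sin t^2 / Kf t := by
      rw [Real.sinc_of_ne_zero ht0.ne', div_le_div_iff₀ hd hK]
      have hKle := Kf_le ht0.le ht1
      calc c * (Real.sin t / t) * Kf t ≤ c * (Real.sin t / t) *
            (t^2 * Real.sin t * (1 + rho (t^2) - Lp (t^2))) :=
            mul_le_mul_of_nonneg_left hKle (by positivity)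
        _ = c * t * Real.sin t^2 * (1 + rho (t^2) - Lp (t^2)) := by field_simp
    linarith
  have hW0lim : Tendsto W0 (𝓝[>] 0) (𝓝 0) := by
    have hcont : ContinuousAt W0 0 := by
      have hden0 := hden 0 le_rfl (by norm_num)
      have h1 : ContinuousAt (fun t : ℝ => 1 + rho (t^2) - Lp (t^2)) 0 := by
        unfold rho Lp; fun_prop
      have h2 : ContinuousAt (fun t : ℝ => c * Real.sinc t) 0 :=
        (Real.continuous_sinc.const_smul c).continuousAt
      exact (((h2.div h1 hden0.ne').sub φ_cont.continuousAt).mul (by fun_prop))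
    have h0' : W0 0 = 0 := by
      simp only [hW0, Real.sinc_zero, φ_zero]
      have : 1 + rho (0^2) - Lp (0^2) = c := by unfold rho Lp; ring
      rw [this]
      have := hcp.ne'
      field_simp
      simp
    have h3 := hcont.tendsto
    rw [h0'] at h3
    exact h3.mono_left nhdsWithin_le_nhds
  have hWt : 0 ≤ W t := by
    apply le_of_tendsto hW0lim
    filter_upwards [Ioo_mem_nhdsGT h0] with s hs
    exact (hWW0 s hs.1 (by linarith [hs.2])).trans (hmono ⟨hs.1, by linarith [hs.2]⟩ ⟨h0, h1⟩ hs.2.le)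
  have h5 : 0 ≤ c * t * Real.sin t^2 / Kf t - φ t := nonneg_of_mul_nonneg_left hWt (Real.exp_pos _)
  have h6 : φ t ≤ c * t * Real.sin t^2 / Kf t := by linarith
  rwa [le_div_iff₀ (Kf_pos h0 h1)] at h6

end Helper64.CubeGauss
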