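import Pool.Agent.Helper64.CubeGauss.Conc
import Pool.Agent.Helper64.CubeGauss.Barrier

/-! The quartic strengthening of log-concavity. -/

namespace Helper64.CubeGauss

open MeasureTheory intervalIntegral Set Filter Topology

lemma poly_q {x : ℝ} (h0 : 0 ≤ x) (h1 : x ≤ 25/4) :
    1 ≤ (1 + 0.16584*x) * (1 + 0.14556*x + 0.010593*x^2) * (1 - x/6 + x^2/120 - x^3/5040) := by
  have e : (1 + 0.16584*x) * (1 + 0.14556*x + 0.010593*x^2) * (1 - x/6 + x^2/120 - x^3/5040) - 1
      = x * ((1 + 0.16584*x) * (1 + 0.14556*x + 0.010593*x^2) * (- 1/6 + x/120 - x^2/5040)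
        + (0.16584 + 0.14556) + (0.16584*0.14556 + 0.010593)*x + 0.16584*0.010593*x^2) := by ring
  have h2 : 0 ≤ (1 + 0.16584*x) * (1 + 0.14556*x + 0.010593*x^2) * (- 1/6 + x/120 - x^2/5040)
        + (0.16584 + 0.14556) + (0.16584*0.14556 + 0.010593)*x + 0.16584*0.010593*x^2 := by
    nlinarith [mul_nonneg h0 (sub_nonneg.mpr h1), mul_nonneg (pow_nonneg h0 2) (sub_nonneg.mpr h1),
      mul_nonneg (pow_nonneg h0 3) (sub_nonneg.mpr h1), mul_nonneg (pow_nonneg h0 4) (sub_nonneg.mpr h1),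
      pow_nonneg h0 2, pow_nonneg h0 3, pow_nonneg h0 4, pow_nonneg h0 5]
  have := mul_nonneg h0 h2
  linarith

/-- Quartic inequality for `t ≤ 5/2`. -/
lemma quartic_small {t : ℝ} (h0 : 0 < t) (h1 : t ≤ 5/2) :
    (c - 2/3) * t^3 * φ t^2 ≤ c * t * Real.sin t^2 - φ t * Af t := by
  have hz := z1_gt
  have hφ : 0 < φ t := φ_pos h0.le (by linarith)
  have hb := barrier_up h0 h1
  obtain ⟨hc1, hc2⟩ := c_bounds
  have hs : 0 < Real.sin t := Real.sin_pos_of_pos_of_lt_pi h0 (by linarith [Real.pi_gt_d2])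
  have eK : Kf t = Af t + rho (t^2) * (t^2 * Real.sin t) := by unfold Kf Af; ring
  rw [eK] at hb
  -- need (c-2/3) t φ ≤ ρ sin t
  have key : (c - 2/3) * t * φ t ≤ rho (t^2) * Real.sin t := by
    have hx0 := sq_nonneg t
    have hx1 : t^2 ≤ 25/4 := by nlinarith
    set x := t^2 with hx
    set r := c - 2/3 with hr
    have hr1 : 0.042208 < r := by norm_num at hc1 ⊢; linarith
    have hr2 : r < 0.042209 := by norm_num at hc2 ⊢; linarith
    have hs2 := s2_bounds.1
    have hexp : φ t ≤ Real.exp (-(s2 * x/2)) := by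
      refine (φ_le_exp h0.le (by linarith)).trans ?_
      apply Real.exp_le_exp.mpr
      unfold Λ
      have := c4_bounds.1
      have h4 : 0 ≤ c4 * t^4 := by norm_num at *; positivity
      have h6 : 0 ≤ c6 * t^6 := by unfold c6; positivity
      rw [hx]
      linarith
    have hq : (1 + 0.14556*x + 0.010593*x^2) * φ t ≤ 1 := by
      have hz0 : 0 ≤ s2 * x / 2 := by
        have : 0 < s2 := by norm_num at hs2; linarith
        positivity
      have h5 := Real.quadratic_le_exp_of_nonneg hz0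
      have h6 : 0.14556*x ≤ s2 * x/2 := by
        norm_num at hs2
        nlinarith
      have h7 : 1 + 0.14556*x + 0.010593*x^2 ≤ 1 + s2*x/2 + (s2*x/2)^2/2 := by nlinarith
      have h8 : (1 + 0.14556*x + 0.010593*x^2) * φ t ≤ Real.exp (s2*x/2) * Real.exp (-(s2*x/2)) := by
        apply mul_le_mul (h7.trans h5) hexp hφ.le (Real.exp_pos _).le
      rw [← Real.exp_add] at h8
      simpa using h8
    have hsin : t * (1 - x/6 + x^2/120 - x^3/5040) ≤ Real.sin t := by
      have := Sn_le_sin (n := 3) (by decide) h0.le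
      rw [Sn4] at this
      rw [hx]
      calc t * (1 - t^2/6 + (t^2)^2/120 - (t^2)^3/5040) = t - t^3/6 + t^5/120 - t^7/5040 := by ring
        _ ≤ _ := this
    have hp := poly_q hx0 hx1
    have hrho : r * (1 + 0.16584*x) ≤ rho x := by
      unfold rho
      rw [← hr]
      nlinarith
    have hfac : 0 ≤ 1 - x/6 + x^2/120 - x^3/5040 := by
      by_contra hcon
      push Not at hcon
      have h9 : 0 ≤ (1 + 0.16584*x) * (1 + 0.14556*x + 0.010593*x^2) := by positivity
      nlinarith [mul_nonpos_of_nonneg_of_nonpos h9 hcon.le]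
    -- r t φ ≤ r t φ * (product) ≤ ...
    have hrpos : 0 < r := by linarith
    calc r * t * φ t ≤ r * t * φ t * ((1 + 0.16584*x) * (1 + 0.14556*x + 0.010593*x^2) * (1 - x/6 + x^2/120 - x^3/5040)) :=
          le_mul_of_one_le_right (by positivity) hp
      _ = (r * (1 + 0.16584*x)) * (t * (1 - x/6 + x^2/120 - x^3/5040)) * ((1 + 0.14556*x + 0.010593*x^2) * φ t) := by ring
      _ ≤ (r * (1 + 0.16584*x)) * (t * (1 - x/6 + x^2/120 - x^3/5040)) * 1 := by
          apply mul_le_mul_of_nonneg_left hq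
          have : 0 ≤ t * (1 - x/6 + x^2/120 - x^3/5040) := mul_nonneg h0.le hfac
          positivity
      _ = (r * (1 + 0.16584*x)) * (t * (1 - x/6 + x^2/120 - x^3/5040)) := by ring
      _ ≤ rho x * Real.sin t := by
          apply mul_le_mul hrho hsin (mul_nonneg h0.le hfac)
          exact (rho_pos hx0).le
  have h10 : (c - 2/3) * t * φ t * (t^2 * φ t) ≤ rho (t^2) * Real.sin t * (t^2 * φ t) :=
    mul_le_mul_of_nonneg_right key (by positivity)
  nlinarith

lemma quad_endpoint {a b d φ0 M : ℝ} (ha : 0 ≤ a) (hd : 0 ≤ d) (h0 : 0 ≤ φ0) (h1 : φ0 ≤ M)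
    (hM : 0 ≤ a - M * b - d * M^2) : 0 ≤ a - φ0 * b - d * φ0^2 := by
  rcases le_or_gt 0 (- b - d * φ0) with h | h
  · nlinarith [mul_nonneg h0 h]
  · have hM0 : 0 ≤ M := h0.trans h1
    have h2 : 0 ≤ b + d * (M + φ0) := by nlinarith [mul_nonneg hd hM0]
    nlinarith [mul_nonneg (sub_nonneg.mpr h1) h2]

/-- Quartic inequality on `(0,z1)`. -/
lemma quartic_ineq {t : ℝ} (h0 : 0 < t) (h1 : t < z1) :
    (c - 2/3) * t^3 * φ t^2 ≤ c * t * Real.sin t^2 - φ t * Af t := by
  rcases le_or_gt t (5/2) with h | h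
  · exact quartic_small h0 h
  have hz1 := z1_gt
  have hz2 := z1_lt
  have hpi1 := Real.pi_gt_d2
  have hpi2 := Real.pi_lt_d2
  have hφ := φ_pos h0.le h1
  obtain ⟨hc1, hc2⟩ := c_bounds
  set r := c - 2/3 with hr
  have hr1 : 0 < r := by norm_num at hc1; linarith
  have hr2 : r < 0.042209 := by norm_num at hc2 ⊢; linarith
  have hcc : 0.7088 < c := by norm_num at hc1 ⊢; linarith
  -- general tool for the first three intervals
  have tool : ∀ a b S A M : ℝ, 5/2 ≤ a → b ≤ 2.8 → 0 ≤ S → S ≤ Real.sin b → Af a ≤ A → φ a ≤ M → a ≤ t → t ≤ b →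
      0 ≤ 0.7088 * a * S^2 - M * A - (0.042209 * b^3) * M^2 → 0 ≤ A →
      r * t^3 * φ t^2 ≤ c * t * Real.sin t^2 - φ t * Af t := by
    intro a b S A M ha hb hS0 hS hA hM hat htb hfin hA0
    have hb0 : 0 < b := by linarith
    have hsin : S ≤ Real.sin t := hS.trans (sin_ge_of_mem (a := a) (by linarith) (by linarith) hat htb)
    have hAt : Af t ≤ A := (Af_antitone ⟨ha, by linarith⟩ ⟨by linarith, by linarith⟩ hat).trans hA
    have hφt : φ t ≤ M := (φ_antitone ⟨by linarith, by linarith⟩ ⟨h0.le, h1.le⟩ hat).trans hM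
    have h3 := quad_endpoint (a := 0.7088 * a * S^2) (b := A) (d := 0.042209 * b^3) (φ0 := φ t) (M := M)
      (by positivity) (by positivity) hφ.le hφt hfin
    have h4 : 0.7088 * a * S^2 ≤ c * t * Real.sin t^2 := by
      apply mul_le_mul _ (pow_le_pow_left₀ hS0 hsin 2) (sq_nonneg _) (by positivity)
      apply mul_le_mul hcc.le hat (by linarith) (by linarith)
    have h5 : φ t * Af t ≤ φ t * A := mul_le_mul_of_nonneg_left hAt hφ.le
    have h6 : r * t^3 * φ t^2 ≤ (0.042209 * b^3) * φ t^2 := by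
      apply mul_le_mul_of_nonneg_right _ (sq_nonneg _)
      apply mul_le_mul hr2.le (pow_le_pow_left₀ h0.le htb 3) (by positivity) (by norm_num)
    linarith
  rcases le_or_gt t 2.6 with ha | ha
  · exact tool 2.5 2.6 0.5155 1.1395 0.3303 (by norm_num) (by norm_num) (by norm_num) sin_26 Af_25 φ_25
      (by linarith) ha (by norm_num) (by norm_num)
  rcases le_or_gt t 2.7 with hb | hb
  · exact tool 2.6 2.7 0.4273 0.742 0.2919 (by norm_num) (by norm_num) (by norm_num) sin_27 Af_26 φ_26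
      (by linarith) hb (by norm_num) (by norm_num)
  rcases le_or_gt t 2.8 with hc | hc
  · exact tool 2.7 2.8 0.3349 0.249 0.2541 (by norm_num) (by norm_num) (by norm_num) sin_28 Af_27 φ_27
      (by linarith) hc (by norm_num) (by norm_num)
  -- now Af t is negative enough
  have tool2 : ∀ a b A M : ℝ, 5/2 ≤ a → b ≤ 7/2 → Af a ≤ -A → φ a ≤ M → a ≤ t → t ≤ b →
      0.042209 * b^3 * M ≤ A → r * t^3 * φ t^2 ≤ c * t * Real.sin t^2 - φ t * Af t := by
    intro a b A M ha hb hA hM hat htb hfin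
    have hb0 : 0 < b := by linarith
    have hAt : Af t ≤ -A := (Af_antitone ⟨ha, by linarith⟩ ⟨by linarith, by linarith⟩ hat).trans hA
    have hφt : φ t ≤ M := (φ_antitone ⟨by linarith, by linarith⟩ ⟨h0.le, h1.le⟩ hat).trans hM
    have h6 : r * t^3 * φ t ≤ 0.042209 * b^3 * M := by
      apply mul_le_mul _ hφt hφ.le (by positivity)
      apply mul_le_mul hr2.le (pow_le_pow_left₀ h0.le htb 3) (by positivity) (by norm_num)
    have h7 : r * t^3 * φ t ≤ - Af t := by linarith
    have h8 := mul_le_mul_of_nonneg_right h7 hφ.le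
    have h9 : 0 ≤ c * t * Real.sin t^2 := by
      have := c_pos
      positivity
    nlinarith
  rcases le_or_gt t 3 with hd | hd
  · exact tool2 2.8 3 0.345 0.2166 (by norm_num) (by norm_num) (by linarith [Af_28]) φ_28 (by linarith) hd
      (by norm_num)
  · exact tool2 3 3.5 1.84 0.1431 (by norm_num) (by norm_num) (by linarith [Af_3]) φ_3 (by linarith) (by linarith)
      (by norm_num)

/-- the function `x ↦ log φ(√x) + c₄ x²` -/
noncomputable def Gq (x : ℝ) : ℝ := Real.log (φ (Real.sqrt x)) + c4 * x^2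

lemma psi_antitone : AntitoneOn (fun t => c * Real.sin t / (t * φ t) - 1 + 4 * c4 * t^2) (Ioo 0 z1) := by
  have hder : ∀ t ∈ Ioo 0 z1, HasDerivAt (fun t => c * Real.sin t / (t * φ t) - 1 + 4 * c4 * t^2)
      ((c * Real.cos t * (t * φ t) - c * Real.sin t * (1 * φ t + t * (c * Real.sin t - t * φ t)))/(t * φ t)^2
        + 4 * c4 * (2 * t)) t := by
    intro t ht
    have hφ := φ_pos ht.1.le ht.2
    have h2 : HasDerivAt (fun t : ℝ => t^2) (2*t) t := by simpa using hasDerivAt_pow 2 t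
    exact ((((Real.hasDerivAt_sin t).const_mul c).div ((hasDerivAt_id t).mul (hasDerivAt_φ t))
      (mul_pos ht.1 hφ).ne').sub_const 1).add (h2.const_mul (4*c4))
  apply antitoneOn_of_deriv_nonpos (convex_Ioo _ _)
  · exact fun t ht => (hder t ht).continuousAt.continuousWithinAt
  · intro t ht
    rw [interior_Ioo] at ht
    exact (hder t ht).differentiableAt.differentiableWithinAt
  · intro t ht
    rw [interior_Ioo] at ht
    rw [(hder t ht).deriv]
    have hφ := φ_pos ht.1.le ht.2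
    have ht0 : 0 < t := ht.1
    have hq := quartic_ineq ht.1 ht.2
    have hcp := c_pos
    have e : (c * Real.cos t * (t * φ t) - c * Real.sin t * (1 * φ t + t * (c * Real.sin t - t * φ t)))/(t * φ t)^2
        + 4 * c4 * (2 * t) = - (c / (t * φ t)^2) * (c * t * Real.sin t^2 - φ t * Af t - (c - 2/3) * t^3 * φ t^2) := by
      unfold c4 Af
      field_simp
      ring
    rw [e]
    have : 0 ≤ (c / (t * φ t)^2) * (c * t * Real.sin t^2 - φ t * Af t - (c - 2/3) * t^3 * φ t^2) :=
      mul_nonneg (by positivity) (by linarith)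
    linarith

lemma Gq_hasDeriv {x : ℝ} (h0 : 0 < x) (h1 : x < z1^2) :
    HasDerivAt Gq ((c * Real.sin (Real.sqrt x) / (Real.sqrt x * φ (Real.sqrt x)) - 1 + 4 * c4 * (Real.sqrt x)^2)/2) x := by
  have hs : 0 < Real.sqrt x := Real.sqrt_pos.mpr h0
  have hs2 : Real.sqrt x < z1 := by
    rw [Real.sqrt_lt' (by linarith [z1_gt])]
    exact h1
  have hφ := φ_pos hs.le hs2
  have hd : HasDerivAt (fun x => φ (Real.sqrt x)) ((c * Real.sin (Real.sqrt x) - Real.sqrt x * φ (Real.sqrt x)) * (1/(2 * Real.sqrt x))) x :=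
    (hasDerivAt_φ (Real.sqrt x)).comp x (Real.hasDerivAt_sqrt h0.ne')
  have h2 : HasDerivAt (fun x : ℝ => x^2) (2*x) x := by simpa using hasDerivAt_pow 2 x
  have := (hd.log hφ.ne').add (h2.const_mul c4)
  refine HasDerivAt.congr_deriv this ?_
  have hx : x = (Real.sqrt x)^2 := (Real.sq_sqrt h0.le).symm
  set s := Real.sqrt x with hsdef
  rw [hx]
  field_simp
  ring

/-- **Concavity** of `log φ(√x) + c₄ x²` on `[0,z1²)`. -/
lemma Gq_concave : ConcaveOn ℝ (Ico 0 (z1^2)) Gq := by
  have hz := z1_gt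
  have hz0 : 0 < z1 := by linarith
  apply AntitoneOn.concaveOn_of_deriv (convex_Ico _ _)
  · apply ContinuousOn.add
    · apply ContinuousOn.log
      · exact (φ_cont.comp Real.continuous_sqrt).continuousOn
      · intro x hx
        have : Real.sqrt x < z1 := by
          rw [Real.sqrt_lt' hz0]
          exact hx.2
        exact (φ_pos (Real.sqrt_nonneg x) this).ne'
    · fun_prop
  · intro x hx
    rw [interior_Ico] at hx
    exact (Gq_hasDeriv hx.1 hx.2).differentiableAt.differentiableWithinAt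
  · intro x hx y hy hxy
    rw [interior_Ico] at hx hy
    rw [(Gq_hasDeriv hx.1 hx.2).deriv, (Gq_hasDeriv hy.1 hy.2).deriv]
    have h1 : Real.sqrt x ∈ Ioo 0 z1 := ⟨Real.sqrt_pos.mpr hx.1, by rw [Real.sqrt_lt' hz0]; exact hx.2⟩
    have h2 : Real.sqrt y ∈ Ioo 0 z1 := ⟨Real.sqrt_pos.mpr hy.1, by rw [Real.sqrt_lt' hz0]; exact hy.2⟩
    have := psi_antitone h1 h2 (Real.sqrt_le_sqrt hxy)
    simp only at this
    linarith

end Helper64.CubeGauss
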