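import Pool.Agent.Helper64.CubeGauss.Sc

/-! Integer arithmetic for upper bounds of exponentials, and integral/sum comparison. -/

namespace Helper64.CubeGauss

open MeasureTheory intervalIntegral Set Finset

def upIter : ℕ → ℕ → ℕ
  | 0, a => a
  | n+1, a => upIter n (a^2/SC+1)

lemma upIter_spec (n a : ℕ) : ((a:ℝ)/SC)^(2^n) ≤ (upIter n a : ℝ)/SC := by
  induction n generalizing a with
  | zero => simp [upIter]
  | succ n ih =>
    rw [upIter]
    refine le_trans ?_ (ih _)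
    rw [pow_succ' 2 n, pow_mul]
    apply pow_le_pow_left₀ (by positivity)
    have hS : 0 < SC := by unfold SC; norm_num
    have hS' : (0:ℝ) < SC := by exact_mod_cast hS
    have h4 : a^2 < (a^2/SC + 1) * SC := Nat.lt_mul_of_div_lt (Nat.lt_succ_self _) hS
    have h5 : ((a^2 : ℕ):ℝ) ≤ (((a^2/SC + 1) * SC : ℕ):ℝ) := by exact_mod_cast h4.le
    rw [Nat.cast_mul] at h5
    have : ((a:ℝ)/SC)^2 = (((a^2:ℕ):ℝ)/SC)/SC := by push_cast; ring
    rw [this]
    apply div_le_div_of_nonneg_right _ hS'.le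
    rw [div_le_iff₀ hS']
    exact h5

/-- start value -/
def e0 (z : ℕ) : ℕ :=
  ((2*256000000000^2 + z^2 - 2*256000000000*z) * SC)/(2*256000000000^2) + 1

/-- `exp (-z/10^9) ≤ expU z / 10^15` -/
def expU (z : ℕ) : ℕ := upIter 8 (e0 z)

lemma exp_neg_le_quad {f : ℝ} (hf : 0 ≤ f) : Real.exp (-f) ≤ 1 - f + f^2/2 := by
  have h := Real.quadratic_le_exp_of_nonneg hf
  rw [Real.exp_neg, inv_le_iff_one_le_mul₀ (Real.exp_pos f)]
  have h1 : 0 ≤ 1 - f + f^2/2 := by nlinarith [sq_nonneg (f-1)]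
  have h2 := mul_le_mul_of_nonneg_left h h1
  nlinarith [sq_nonneg (f^2)]

lemma expU_spec (z : ℕ) : Real.exp (-((z:ℝ)/10^9)) ≤ (expU z : ℝ)/10^15 := by
  have hS' : (0:ℝ) < SC := by rw [SC_cast]; norm_num
  rw [← SC_cast]
  refine le_trans ?_ (upIter_spec 8 (e0 z))
  set f : ℝ := (z:ℝ)/256000000000 with hf
  have hf0 : 0 ≤ f := by positivity
  have e : Real.exp (-((z:ℝ)/10^9)) = (Real.exp (-f))^(2^8) := by
    rw [← Real.exp_nat_mul]
    congr 1
    rw [hf]
    norm_num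
    ring
  rw [e]
  apply pow_le_pow_left₀ (Real.exp_pos _).le
  refine (exp_neg_le_quad hf0).trans ?_
  rw [le_div_iff₀ hS']
  unfold e0
  set D : ℕ := 256000000000 with hD
  have hDpos : 0 < 2*D^2 := by rw [hD]; norm_num
  have hle : 2*D*z ≤ 2*D^2 + z^2 := by
    have : (2*D*z : ℤ) ≤ 2*D^2+z^2 := by nlinarith [sq_nonneg ((D:ℤ)-z), sq_nonneg (D:ℤ)]
    exact_mod_cast this
  set N : ℕ := (2*D^2 + z^2 - 2*D*z) * SC with hN
  have h4 : N < (N/(2*D^2) + 1) * (2*D^2) := Nat.lt_mul_of_div_lt (Nat.lt_succ_self _) hDpos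
  have h5 : (N:ℝ) ≤ (((N/(2*D^2) + 1) * (2*D^2) : ℕ):ℝ) := Nat.cast_le.2 h4.le
  rw [Nat.cast_mul (N/(2*D^2)+1)] at h5
  have hNc : (N:ℝ) = (2*(D:ℝ)^2 + (z:ℝ)^2 - 2*D*z) * SC := by
    rw [hN, Nat.cast_mul, Nat.cast_sub hle]
    push_cast
    ring
  rw [hNc] at h5
  have hDr : (D:ℝ) = 256000000000 := by rw [hD]; norm_num
  have h2D : ((2*D^2 : ℕ):ℝ) = 2*(D:ℝ)^2 := by push_cast; ring
  rw [h2D] at h5
  have h6 : (1 - f + f^2/2) * SC * (2*(D:ℝ)^2) = (2*(D:ℝ)^2 + (z:ℝ)^2 - 2*D*z) * SC := by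
    rw [hf, hDr]; ring
  have h7 : (0:ℝ) < 2*(D:ℝ)^2 := by rw [hDr]; norm_num
  rw [← h6] at h5
  exact le_of_mul_le_mul_right h5 h7

lemma expU_le {z : ℕ} {x : ℝ} (h : (z:ℝ)/10^9 ≤ x) : Real.exp (-x) ≤ (expU z : ℝ)/10^15 :=
  (Real.exp_le_exp.2 (neg_le_neg h)).trans (expU_spec z)

/-- comparison of an integral with a sum over a grid -/
lemma integral_le_sum {f : ℝ → ℝ} (hf : Continuous f) (p : ℕ → ℝ) (hp : ∀ k, p k ≤ p (k+1))
    (M d : ℕ → ℝ) (a b : ℕ) (hab : a ≤ b) (hM : ∀ k, a ≤ k → k < b → 0 ≤ M k)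
    (hd : ∀ k, a ≤ k → k < b → p (k+1) - p k ≤ d k)
    (hfM : ∀ k, a ≤ k → k < b → ∀ x, p k < x → x < p (k+1) → f x ≤ M k) :
    ∫ x in (p a)..(p b), f x ≤ ∑ k ∈ Finset.Ico a b, d k * M k := by
  induction b, hab using Nat.le_induction with
  | base => simp
  | succ b hab ih =>
    have ih' := ih (fun k h1 h2 => hM k h1 (by omega)) (fun k h1 h2 => hd k h1 (by omega))
      (fun k h1 h2 => hfM k h1 (by omega))
    rw [Finset.sum_Ico_succ_top hab,
      ← intervalIntegral.integral_add_adjacent_intervals (hf.intervalIntegrable (p a) (p b))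
      (hf.intervalIntegrable (p b) (p (b+1)))]
    have h1 : ∫ x in (p b)..(p (b+1)), f x ≤ (p (b+1) - p b) * M b := by
      have h2 := intervalIntegral.integral_mono_on_of_le_Ioo (hp b) (hf.intervalIntegrable (p b) (p (b+1)))
        (continuous_const.intervalIntegrable (μ := volume) (p b) (p (b+1)))
        (fun x hx => hfM b hab (by omega) x hx.1 hx.2)
      rw [intervalIntegral.integral_const, smul_eq_mul] at h2
      exact h2
    have h3 := mul_le_mul_of_nonneg_right (hd b hab (by omega)) (hM b hab (by omega))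
    linarith

/-- lower comparison -/
lemma sum_le_integral {f : ℝ → ℝ} (hf : Continuous f) (p : ℕ → ℝ) (hp : ∀ k, p k ≤ p (k+1))
    (M d : ℕ → ℝ) (a b : ℕ) (hab : a ≤ b) (hM : ∀ k, a ≤ k → k < b → 0 ≤ M k)
    (hd : ∀ k, a ≤ k → k < b → d k ≤ p (k+1) - p k)
    (hfM : ∀ k, a ≤ k → k < b → ∀ x, p k < x → x < p (k+1) → M k ≤ f x) :
    ∑ k ∈ Finset.Ico a b, d k * M k ≤ ∫ x in (p a)..(p b), f x := by
  induction b, hab using Nat.le_induction with
  | base => simp
  | succ b hab ih =>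
    have ih' := ih (fun k h1 h2 => hM k h1 (by omega)) (fun k h1 h2 => hd k h1 (by omega))
      (fun k h1 h2 => hfM k h1 (by omega))
    rw [Finset.sum_Ico_succ_top hab,
      ← intervalIntegral.integral_add_adjacent_intervals (hf.intervalIntegrable (p a) (p b))
      (hf.intervalIntegrable (p b) (p (b+1)))]
    have h1 : (p (b+1) - p b) * M b ≤ ∫ x in (p b)..(p (b+1)), f x := by
      have h2 := intervalIntegral.integral_mono_on_of_le_Ioo (hp b)
        (continuous_const.intervalIntegrable (μ := volume) (p b) (p (b+1)))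
        (hf.intervalIntegrable (p b) (p (b+1)))
        (fun x hx => hfM b hab (by omega) x hx.1 hx.2)
      rw [intervalIntegral.integral_const, smul_eq_mul] at h2
      exact h2
    have h3 := mul_le_mul_of_nonneg_right (hd b hab (by omega)) (hM b hab (by omega))
    linarith

/-- structural sum used for kernel evaluation: `∑_{k<n} F (a+k)` -/
def nsum (F : ℕ → ℕ) (a : ℕ) : ℕ → ℕ
  | 0 => 0
  | n+1 => nsum F a n + F (a+n)

lemma nsum_eq (F : ℕ → ℕ) (a n : ℕ) : nsum F a n = ∑ k ∈ Finset.Ico a (a+n), F k := by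
  induction n with
  | zero => simp [nsum]
  | succ n ih => rw [nsum, ih, ← add_assoc, Finset.sum_Ico_succ_top (by omega)]

end Helper64.CubeGauss
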