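import Pool.Agent.Helper64.CubeGauss.RegE

/-! At least six coordinates, `0.19 ≤ s`: final statement. -/

namespace Helper64.CubeGauss

open MeasureTheory Set

def ckE (m : ℕ) : Bool :=
  decide (Rf m * (16 * tUsum (KD m) (MD m) + farN (KD m) * 10^9) + 8*((3*m-100)^2)^2*(16*10^29) + 6*(16*10^36)
    < 196*(3*m-100)^2*(16*10^33))

set_option maxRecDepth 100000 in
lemma ckE_all : (List.range 38).all (fun i => ckE (38+i)) = true := by decide +kernel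

def BP (m : ℕ) : ℕ := 187000*m^2
def CP (m : ℕ) : ℕ := 4500*m^3

def ckP (m : ℕ) : Bool :=
  (List.range (NDf m)).all (fun i => ckM (BP m) (CP m) (2*i+1)) &&
  decide (mainU (BP m) (CP m) (NDf m) * (16*10^25) + Rf m * (16 * tUsum (KD m) (MD m) + farN (KD m) * 10^9)
    ≤ 22661*(16*10^37))

set_option maxRecDepth 100000 in
lemma ckP_all : (List.range 8).all (fun i => ckP (72+i)) = true := by decide +kernel

attribute [local irreducible] pL pU expU tUsum farN mainU nsum Rf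

variable {n : ℕ} {θ : Fin n → ℝ} {i0 i1 : Fin n}

/-- the main estimate with given lower bounds for the fourth and sixth power sums -/
lemma Dir.core (h : Dir θ i0 i1) {m B1 C1 : ℕ} (h38 : 38 ≤ m) (hm2 : m < 80) (hm3 : (m:ℝ)/200 ≤ (θ i0)^2)
    (hm4 : (θ i0)^2 ≤ ((m:ℝ)+1)/200)
    (hBle : (B1:ℝ)/10^12 ≤ c4 * ∑ i, θ i^4) (hCle : (C1:ℝ)/10^14 ≤ c6 * ∑ i, θ i^6)
    (hck1 : (List.range (NDf m)).all (fun i => ckM B1 C1 (2*i+1)) = true)
    (hck2 : mainU B1 C1 (NDf m) * (16*10^25) + Rf m * (16 * tUsum (KD m) (MD m) + farN (KD m) * 10^9)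
      ≤ 22661*(16*10^37)) :
    ∫ t in Ioi (0:ℝ), ∏ i, φ (θ i * t) ≤ 2.2661 := by
  have ha := h.a_pos
  obtain ⟨hM1, hM2⟩ := MD_range m hm2 h38
  have hhalf := h.half_bound hM1 hM2 (K_cell ha hm2 hm4) (M_cell ha h38 hm2 hm3)
  have hmain := mainU_bound hck1
  set A : ℝ := (A1:ℝ)/10^8 with hA
  set B : ℝ := (B1:ℝ)/10^12 with hB
  set C : ℝ := (C1:ℝ)/10^14 with hC
  have hz0 := z1_gt
  have hT0 : 0 ≤ z1/θ i0 := by apply div_nonneg _ ha.le; linarith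
  have hT := h.T_le h38 hm2 hm3
  have hAle := A1_le
  have hcont : Continuous fun t => Real.exp (-(qp A B C t)) := by unfold qp; fun_prop
  have hpc : Continuous (fun t : ℝ => ∏ i, φ (θ i * t)) := by
    apply continuous_finsetProd
    intro i _
    exact φ_cont.comp (by fun_prop)
  have hm' : ∫ t in (0:ℝ)..(z1/θ i0), ∏ i, φ (θ i * t) ≤ ∫ t in (0:ℝ)..(z1/θ i0), Real.exp (-(qp A B C t)) := by
    apply intervalIntegral.integral_mono_on_of_le_Ioo hT0 (hpc.intervalIntegrable _ _) (hcont.intervalIntegrable _ _)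
    intro t ht
    refine (h.main_exp ht.1.le ht.2).trans (Real.exp_le_exp.2 ?_)
    unfold qp
    have h2 : A*t^2 ≤ s2/2*t^2 := mul_le_mul_of_nonneg_right hAle (by positivity)
    have h4 : B*t^4 ≤ c4*(∑ i, θ i^4)*t^4 := mul_le_mul_of_nonneg_right hBle (by positivity)
    have h6 : C*t^6 ≤ c6*(∑ i, θ i^6)*t^6 := mul_le_mul_of_nonneg_right hCle (by positivity)
    linarith
  have hm2' : ∫ t in (0:ℝ)..(z1/θ i0), Real.exp (-(qp A B C t)) ≤
      ∫ t in (0:ℝ)..((NDf m : ℝ)/10), Real.exp (-(qp A B C t)) := by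
    apply intervalIntegral.integral_mono_interval le_rfl hT0 hT
    · exact Filter.Eventually.of_forall fun t => (Real.exp_pos _).le
    · exact hcont.intervalIntegrable _ _
  have hinv := inv_a_le ha h38 hm2 hm3
  have htB : 0 ≤ tailB (KD m) (MD m) := tailB_nonneg _ _
  have htail : (1/θ i0)*tailB (KD m) (MD m) ≤ (Rf m : ℝ)/10^6*tailB (KD m) (MD m) :=
    mul_le_mul_of_nonneg_right hinv htB
  have hfin : (mainU B1 C1 (NDf m) : ℝ)/10^16 + (Rf m : ℝ)/10^6*tailB (KD m) (MD m) ≤ 2.2661 := by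
    have h1 := (Nat.cast_le (α := ℝ)).2 hck2
    push_cast at h1
    unfold tailB
    generalize (mainU B1 C1 (NDf m) : ℝ) = x1 at *
    generalize (tUsum (KD m) (MD m) : ℝ) = x2 at *
    generalize (farN (KD m) : ℝ) = x3 at *
    generalize (Rf m : ℝ) = x4 at *
    have e : x1/10^16 + x4/10^6*(x2/10^35 + x3/(16*10^26))
        = (x1*(16*10^25) + x4*(16*x2+x3*10^9))/(16*10^41) := by ring
    rw [e, div_le_iff₀ (by norm_num)]
    linarith
  linarith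

lemma Dir.pow4_ge' (h : Dir θ i0 i1) : 2*((θ i0)^2)^2 ≤ ∑ i, θ i^4 := by
  have h1 := sum_oth h.ne (fun i => θ i^4)
  rw [h.eq] at h1
  have h2 : 0 ≤ ∑ i ∈ oth i0 i1, θ i^4 := Finset.sum_nonneg fun i _ => by positivity
  rw [h1]
  linarith

lemma Dir.pow6_ge' (h : Dir θ i0 i1) : 2*((θ i0)^2)^3 ≤ ∑ i, θ i^6 := by
  have h1 := sum_oth h.ne (fun i => θ i^6)
  rw [h.eq] at h1
  have h2 : 0 ≤ ∑ i ∈ oth i0 i1, θ i^6 := Finset.sum_nonneg fun i _ => by positivity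
  rw [h1]
  linarith

theorem Dir.regP (h : Dir θ i0 i1) (h0 : 9/25 ≤ (θ i0)^2) (hs : (θ i0)^2 ≤ 2/5) :
    ∫ t in Ioi (0:ℝ), ∏ i, φ (θ i * t) ≤ 2.2661 := by
  obtain ⟨m, hm1, hm2, hm3, hm4⟩ := exists_cell (l := 72) (by norm_num) (by norm_num; linarith) hs
  have h38 : 38 ≤ m := by omega
  have hck := List.all_eq_true.1 ckP_all (m-72) (List.mem_range.2 (by omega))
  rw [show 72 + (m-72) = m by omega] at hck
  unfold ckP at hck
  rw [Bool.and_eq_true, decide_eq_true_eq] at hck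
  obtain ⟨hck1, hck2⟩ := hck
  refine h.core h38 hm2 hm3 hm4 ?_ ?_ hck1 hck2
  · have h1 := h.pow4_ge'
    have h2 : 2*((m:ℝ)/200)^2 ≤ 2*((θ i0)^2)^2 := by
      have := pow_le_pow_left₀ (by positivity) hm3 2
      linarith
    have h4 := c4_bounds.1
    have h5 : (BP m : ℝ)/10^12 = 37400/10^7 * (2*((m:ℝ)/200)^2) := by
      unfold BP
      push_cast
      ring
    rw [h5]
    exact mul_le_mul h4.le (h2.trans h1) (by positivity) c4_pos.le
  · have h1 := h.pow6_ge'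
    have h2 : 2*((m:ℝ)/200)^3 ≤ 2*((θ i0)^2)^3 := by
      have := pow_le_pow_left₀ (by positivity) hm3 3
      linarith
    have h5 : (CP m : ℝ)/10^14 = c6 * (2*((m:ℝ)/200)^3) := by
      unfold CP c6
      push_cast
      ring
    rw [h5]
    exact mul_le_mul_of_nonneg_left (h2.trans h1) (by unfold c6; norm_num)

lemma kap_ge {s x : ℝ} (hs : 1/6 ≤ s) (hs2 : s ≤ 1/2) (hx0 : 0 < x) (hx : x ≤ 1/6) :
    2*s^2 + (1-2*s)^2/4 - 1/6 ≤ 2*s^2 + (1-2*s)^2/(1/x-2) - x := by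
  have hd : (1-2*s)^2/(1/x-2) = (1-2*s)^2*(x/(1-2*x)) := by
    have : 1 - 2*x ≠ 0 := by linarith
    field_simp
  rw [hd]
  have h1 : x/(1-2*x) = 1/4 - (1-6*x)/(4*(1-2*x)) := by
    have h7 : 1 - 2*x ≠ 0 := by linarith
    rw [eq_sub_iff_add_eq, div_add_div _ _ h7 (mul_ne_zero four_ne_zero h7),
      div_eq_div_iff (mul_ne_zero h7 (mul_ne_zero four_ne_zero h7)) (by norm_num)]
    ring
  rw [h1]
  have h2 : 0 < 1 - 2*x := by linarith
  have h3 : (1-2*s)^2 ≤ 4/9 := by nlinarith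
  have h4 : (1-2*s)^2*((1-6*x)/(4*(1-2*x))) ≤ (1-6*x)/6 := by
    rw [mul_div_assoc', div_le_div_iff₀ (by positivity) (by norm_num)]
    nlinarith [mul_nonneg (by linarith : 0 ≤ 1-6*x) (by linarith : 0 ≤ 4/9 - (1-2*s)^2),
      mul_nonneg (by linarith : 0 ≤ 1-6*x) (by linarith : 0 ≤ 1 - 2*x - 2/3)]
  linarith

lemma Dir.kappa_ge (h : Dir θ i0 i1) (hn : 6 ≤ n) {m : ℕ} (h38 : 38 ≤ m) (hm3 : (m:ℝ)/200 ≤ (θ i0)^2) :
    (((3*m-100)^2:ℕ):ℝ)/120000 ≤ (∑ i, θ i^4) - 1/n := by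
  have hn6 : (6:ℝ) ≤ n := by exact_mod_cast hn
  have h38' : (38:ℝ) ≤ m := by exact_mod_cast h38
  have hs6 : 1/6 ≤ (θ i0)^2 := by linarith
  have h1 := h.pow4_ge (d := (n:ℝ)-2) (by linarith) (by rw [Nat.cast_sub (by omega)]; norm_num)
  have h2 := kap_ge hs6 h.s_le (x := 1/(n:ℝ)) (by positivity) (by
    rw [div_le_div_iff₀ (by linarith) (by norm_num)]; linarith)
  rw [one_div_one_div] at h2
  have h3 : (((3*m-100)^2:ℕ):ℝ)/120000 ≤ 2*((θ i0)^2)^2 + (1-2*(θ i0)^2)^2/4 - 1/6 := by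
    rw [Nat.cast_pow, Nat.cast_sub (by omega)]
    push_cast
    have e : 2*((θ i0)^2)^2 + (1-2*(θ i0)^2)^2/4 - 1/6 = 3/4*(2*(θ i0)^2-1/3)^2 := by ring
    rw [e]
    have h4 : (3*(m:ℝ)-100)/300 ≤ 2*(θ i0)^2-1/3 := by linarith
    have h5 := pow_le_pow_left₀ (by linarith) h4 2
    linarith
  linarith

lemma finE {R tU fN k2 : ℕ} (h : R*(16*tU + fN*10^9) + 8*k2^2*(16*10^29) + 6*(16*10^36) < 196*k2*(16*10^33)) :
    (R:ℝ)/10^6*((tU:ℝ)/10^35 + (fN:ℝ)/(16*10^26)) + 8/10^12*(k2:ℝ)^2 + 0.00006 < 196/10^8*(k2:ℝ) := by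
  have h1 := (Nat.cast_lt (α := ℝ)).2 h
  push_cast at h1
  have e : (R:ℝ)/10^6*((tU:ℝ)/10^35 + (fN:ℝ)/(16*10^26)) + 8/10^12*(k2:ℝ)^2 + 0.00006
      = (R*(16*tU+fN*10^9) + 8*(k2:ℝ)^2*(16*10^29) + 6*(16*10^36))/(16*10^41) := by ring
  rw [e, div_lt_iff₀ (by norm_num)]
  linarith

theorem Dir.regE (h : Dir θ i0 i1) (hn : 6 ≤ n) (h0 : 19/100 ≤ (θ i0)^2) (hs : (θ i0)^2 ≤ 19/50) :
    ∫ t in Ioi (0:ℝ), ∏ i, φ (θ i * t) < DG n := by
  have ha := h.a_pos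
  obtain ⟨m, hm1, hm2, hm3, hm4⟩ : ∃ m : ℕ, 38 ≤ m ∧ m < 76 ∧ (m:ℝ)/200 ≤ (θ i0)^2 ∧ (θ i0)^2 ≤ ((m:ℝ)+1)/200 := by
    obtain ⟨m, h1, h2, h3, h4⟩ := exists_cell (s := (θ i0)^2) (l := 38) (by norm_num) (by norm_num; linarith) (by linarith)
    rcases Nat.lt_or_ge m 76 with h5 | h5
    · exact ⟨m, h1, h5, h3, h4⟩
    · refine ⟨75, by norm_num, by norm_num, ?_, ?_⟩
      · refine le_trans ?_ h3
        have : (76:ℝ) ≤ m := by exact_mod_cast h5
        push_cast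
        linarith
      · norm_num; linarith
  have hck := List.all_eq_true.1 ckE_all (m-38) (List.mem_range.2 (by omega))
  rw [show 38 + (m-38) = m by omega] at hck
  unfold ckE at hck
  rw [decide_eq_true_eq] at hck
  have hm80 : m < 80 := by omega
  obtain ⟨hM1, hM2⟩ := MD_range m hm80 hm1
  have hhalf := h.half_bound hM1 hM2 (K_cell ha hm80 hm4) (M_cell ha hm1 hm80 hm3)
  have hz := z1_gt
  have h6p : (0:ℝ) < Real.sqrt 6 := Real.sqrt_pos.2 (by norm_num)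
  have hT0 : 0 ≤ z1/θ i0 := by apply div_nonneg _ ha.le; linarith
  have hT : z1/θ i0 ≤ z1*Real.sqrt 6 := by
    rw [div_le_iff₀ ha, mul_assoc]
    have h1 : 1 ≤ (Real.sqrt 6*θ i0)^2 := by
      rw [mul_pow, Real.sq_sqrt (by norm_num)]; linarith
    have h2 : 0 ≤ Real.sqrt 6*θ i0 := by positivity
    have h3 : 1 ≤ Real.sqrt 6*θ i0 := by nlinarith
    nlinarith
  set k2 : ℕ := (3*m-100)^2 with hk2
  set κ : ℝ := (k2:ℝ)/120000 with hκ
  have hκ0 : 0 ≤ κ := by positivity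
  have hκle := h.kappa_ge hn hm1 hm3
  rw [← hk2, ← hκ] at hκle
  have hc4 := c4_pos
  have hpc : Continuous (fun t : ℝ => ∏ i, φ (θ i * t)) := by
    apply continuous_finsetProd
    intro i _
    exact φ_cont.comp (by fun_prop)
  have hDc := Dn_cont n
  have hec : Continuous (fun t : ℝ => Real.exp (-(c4*κ*t^4))) := by fun_prop
  have hDe : Continuous (fun t : ℝ => φ (t/Real.sqrt n)^n * Real.exp (-(c4*κ*t^4))) := hDc.mul hec
  have hn0 : (0:ℝ) < n := by exact_mod_cast (by omega : 0 < n)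
  have hsn : (0:ℝ) < Real.sqrt n := Real.sqrt_pos.2 hn0
  have hDpos : ∀ t, 0 ≤ t → t ≤ z1*Real.sqrt 6 → 0 ≤ φ (t/Real.sqrt n)^n := by
    intro t ht0 ht1
    have h2 : t/Real.sqrt n ≤ z1 := by rw [div_le_iff₀ hsn]; exact ht1.trans (sqrt_mono_z1 hn)
    have h3 : 0 ≤ φ (t/Real.sqrt n) := by
      rw [← φ_z1]
      exact φ_antitone ⟨div_nonneg ht0 hsn.le, h2⟩ ⟨by linarith, le_rfl⟩ h2
    positivity
  have s1 : ∫ t in (0:ℝ)..(z1/θ i0), ∏ i, φ (θ i * t) ≤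
      ∫ t in (0:ℝ)..(z1/θ i0), φ (t/Real.sqrt n)^n * Real.exp (-(c4*κ*t^4)) := by
    apply intervalIntegral.integral_mono_on_of_le_Ioo hT0 (hpc.intervalIntegrable _ _) (hDe.intervalIntegrable _ _)
    intro t ht
    refine (h.jensen ht.1.le ht.2).trans ?_
    apply mul_le_mul_of_nonneg_left _ (hDpos t ht.1.le (ht.2.le.trans hT))
    apply Real.exp_le_exp.2
    have : c4*κ*t^4 ≤ c4*((∑ i, θ i^4) - 1/n)*t^4 :=
      mul_le_mul_of_nonneg_right (mul_le_mul_of_nonneg_left hκle hc4.le) (by positivity)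
    linarith
  have s2 : ∫ t in (0:ℝ)..(z1/θ i0), φ (t/Real.sqrt n)^n * Real.exp (-(c4*κ*t^4)) ≤
      ∫ t in (0:ℝ)..(z1*Real.sqrt 6), φ (t/Real.sqrt n)^n * Real.exp (-(c4*κ*t^4)) := by
    have e := intervalIntegral.integral_add_adjacent_intervals (μ := volume)
      (hDe.intervalIntegrable 0 (z1/θ i0)) (hDe.intervalIntegrable (z1/θ i0) (z1*Real.sqrt 6))
    have h3 : 0 ≤ ∫ t in (z1/θ i0)..(z1*Real.sqrt 6), φ (t/Real.sqrt n)^n * Real.exp (-(c4*κ*t^4)) := by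
      apply intervalIntegral.integral_nonneg hT
      intro t ht
      exact mul_nonneg (hDpos t (hT0.trans ht.1) ht.2) (Real.exp_pos _).le
    linarith
  have s3 : (∫ t in (0:ℝ)..(z1*Real.sqrt 6), φ (t/Real.sqrt n)^n)
      - ∫ t in (0:ℝ)..(z1*Real.sqrt 6), φ (t/Real.sqrt n)^n * Real.exp (-(c4*κ*t^4))
      = ∫ t in (0:ℝ)..(z1*Real.sqrt 6), φ (t/Real.sqrt n)^n*(1 - Real.exp (-(c4*κ*t^4))) := by
    rw [← intervalIntegral.integral_sub (hDc.intervalIntegrable _ _) (hDe.intervalIntegrable _ _)]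
    congr 1
    ext t
    ring
  have s4 : ∫ t in (0:ℝ)..(z1*Real.sqrt 6), φ (t/Real.sqrt 6)^6*(1 - Real.exp (-(c4*κ*t^4))) ≤
      ∫ t in (0:ℝ)..(z1*Real.sqrt 6), φ (t/Real.sqrt n)^n*(1 - Real.exp (-(c4*κ*t^4))) := by
    apply intervalIntegral.integral_mono_on_of_le_Ioo (by positivity)
    · have : Continuous fun t : ℝ => φ (t/Real.sqrt 6)^6 := (φ_cont.comp (by fun_prop)).pow 6
      exact (this.mul (continuous_const.sub hec)).intervalIntegrable _ _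
    · exact (hDc.mul (continuous_const.sub hec)).intervalIntegrable _ _
    · intro t ht
      apply mul_le_mul_of_nonneg_right (diag_ge hn ht.1.le ht.2)
      rw [sub_nonneg, Real.exp_le_one_iff]
      have : 0 ≤ c4*κ*t^4 := by positivity
      linarith
  have s5 := gain hκ0
  have s6 := DG_ge hn
  have hinv := inv_a_le ha hm1 hm80 hm3
  have htail : (1/θ i0)*tailB (KD m) (MD m) ≤ (Rf m : ℝ)/10^6*tailB (KD m) (MD m) :=
    mul_le_mul_of_nonneg_right hinv (tailB_nonneg _ _)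
  have hfin : (Rf m : ℝ)/10^6*tailB (KD m) (MD m) + 8/10^12*(k2:ℝ)^2 + 0.00006 < 196/10^8*(k2:ℝ) := by
    unfold tailB
    exact finE hck
  have e1 : 120000*κ = k2 := by rw [hκ]; ring
  rw [e1] at s5
  linarith

/-- (T2, `s ≥ 0.19`) at least six coordinates -/
theorem Dir.large (h : Dir θ i0 i1) (hn : 6 ≤ n) (h0 : 19/100 ≤ (θ i0)^2) :
    ∫ t, ∏ i, φ (θ i * t) < ∫ t, φ (t / Real.sqrt n)^n := by
  rw [integral_even_prod, integral_diag_eq]
  have key : ∫ t in Ioi (0:ℝ), ∏ i, φ (θ i * t) < DG n := by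
    rcases le_total ((θ i0)^2) (19/50) with h1 | h1
    · exact h.regE hn h0 h1
    · have hlow := DG_lower hn
      have hI := I2_le
      rcases le_total ((θ i0)^2) (2/5) with h2 | h2
      · have := h.regP (by linarith) h2
        linarith
      · have := h.regI A2_ge h2
        linarith
  linarith

theorem max_large_of_ge {n : ℕ} (hn : 6 ≤ n) (th : Fin n → ℝ) (hsum : ∑ i, th i ^ 2 = 1) (i0 i1 : Fin n)
    (hne : i0 ≠ i1) (heq : th i1 = th i0) (hle : ∀ i, 0 ≤ th i ∧ th i ≤ th i0) (hs : 19/100 ≤ th i0 ^ 2) :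
    ∫ t, ∏ i, φ (th i * t) < ∫ t, φ (t / √n) ^ n :=
  Dir.large ⟨hsum, hne, heq, fun i => (hle i).1, fun i => (hle i).2⟩ hn hs

end Helper64.CubeGauss
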