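import Pool.Agent.Helper64.CubeGauss.Tail2

/-! Directions with two equal top coordinates: splitting of the integral. -/

namespace Helper64.CubeGauss

open MeasureTheory Set

/-- a unit direction with nonnegative coordinates whose two largest coordinates are equal -/
structure Dir {n : ℕ} (θ : Fin n → ℝ) (i0 i1 : Fin n) : Prop where
  sum : ∑ i, θ i^2 = 1
  ne : i0 ≠ i1
  eq : θ i1 = θ i0
  nonneg : ∀ i, 0 ≤ θ i
  le : ∀ i, θ i ≤ θ i0

variable {n : ℕ} {θ : Fin n → ℝ} {i0 i1 : Fin n}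

lemma Dir.a_pos (h : Dir θ i0 i1) : 0 < θ i0 := by
  rcases (h.nonneg i0).eq_or_lt with h0 | h0
  · exfalso
    have h1 : ∀ i, θ i = 0 := fun i => le_antisymm (by rw [h0]; exact h.le i) (h.nonneg i)
    have := h.sum
    simp [h1] at this
  · exact h0

/-- the other indices -/
def oth (i0 i1 : Fin n) : Finset (Fin n) := (Finset.univ.erase i0).erase i1

lemma prod_oth (hne : i0 ≠ i1) (f : Fin n → ℝ) : ∏ i, f i = f i0 * (f i1 * ∏ i ∈ oth i0 i1, f i) := by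
  unfold oth
  rw [← Finset.mul_prod_erase _ f (Finset.mem_univ i0),
    ← Finset.mul_prod_erase _ f (Finset.mem_erase.2 ⟨hne.symm, Finset.mem_univ i1⟩)]

lemma sum_oth (hne : i0 ≠ i1) (f : Fin n → ℝ) : ∑ i, f i = f i0 + (f i1 + ∑ i ∈ oth i0 i1, f i) := by
  unfold oth
  rw [← Finset.add_sum_erase _ f (Finset.mem_univ i0),
    ← Finset.add_sum_erase _ f (Finset.mem_erase.2 ⟨hne.symm, Finset.mem_univ i1⟩)]

lemma card_oth (hne : i0 ≠ i1) : (oth i0 i1).card = n - 2 := by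
  unfold oth
  rw [Finset.card_erase_of_mem (Finset.mem_erase.2 ⟨hne.symm, Finset.mem_univ i1⟩),
    Finset.card_erase_of_mem (Finset.mem_univ i0), Finset.card_univ, Fintype.card_fin]
  omega

/-- normalised weights -/
noncomputable def rh (θ : Fin n → ℝ) (i0 : Fin n) (i : Fin n) : ℝ := (θ i / θ i0)^2

lemma Dir.sum_rh (h : Dir θ i0 i1) : ∑ i ∈ oth i0 i1, rh θ i0 i = 1/(θ i0)^2 - 2 := by
  have ha := h.a_pos
  have h1 := sum_oth h.ne (fun i => θ i^2)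
  rw [h.sum, h.eq] at h1
  unfold rh
  simp_rw [div_pow]
  rw [← Finset.sum_div, eq_sub_iff_add_eq, div_add' _ _ _ (by positivity)]
  congr 1
  linarith

lemma Dir.rh_nonneg (_h : Dir θ i0 i1) (i : Fin n) : 0 ≤ rh θ i0 i := sq_nonneg _

lemma Dir.rh_le_one (h : Dir θ i0 i1) (i : Fin n) : rh θ i0 i ≤ 1 := by
  have ha := h.a_pos
  unfold rh
  have h1 : θ i / θ i0 ≤ 1 := by rw [div_le_one ha]; exact h.le i
  have h0 : 0 ≤ θ i / θ i0 := div_nonneg (h.nonneg i) ha.le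
  exact pow_le_one₀ h0 h1

lemma Dir.rh_le_sum (h : Dir θ i0 i1) {i : Fin n} (hi : i ∈ oth i0 i1) : rh θ i0 i ≤ 1/(θ i0)^2 - 2 := by
  rw [← h.sum_rh]
  exact Finset.single_le_sum (fun j _ => h.rh_nonneg j) hi

lemma Dir.prod_eq (h : Dir θ i0 i1) (t : ℝ) :
    ∏ i, φ (θ i * t) = φ (θ i0 * t)^2 * Rst (oth i0 i1) (rh θ i0) (θ i0 * t) := by
  have ha := h.a_pos
  rw [prod_oth h.ne, h.eq]
  unfold Rst rh
  have : ∀ i, φ (Real.sqrt ((θ i / θ i0)^2) * (θ i0 * t)) = φ (θ i * t) := by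
    intro i
    rw [Real.sqrt_sq (div_nonneg (h.nonneg i) ha.le)]
    congr 1
    field_simp
  simp_rw [this]
  ring

lemma Dir.integrable (h : Dir θ i0 i1) : Integrable (fun t : ℝ => ∏ i, φ (θ i * t)) := by
  have ha := h.a_pos
  have hc : Continuous (fun t : ℝ => ∏ i, φ (θ i * t)) := by
    apply continuous_finsetProd
    intro i _
    exact φ_cont.comp (by fun_prop)
  refine Integrable.mono' ((φ_sq_integrable.comp_mul_left' ha.ne')) hc.aestronglyMeasurable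
    (Filter.Eventually.of_forall fun t => ?_)
  rw [h.prod_eq, Real.norm_eq_abs, abs_mul, abs_of_nonneg (sq_nonneg _)]
  calc φ (θ i0 * t)^2 * |Rst (oth i0 i1) (rh θ i0) (θ i0 * t)| ≤ φ (θ i0 * t)^2 * 1 :=
        mul_le_mul_of_nonneg_left (abs_Rst_le_one _ _ _) (sq_nonneg _)
    _ = φ (θ i0 * t)^2 := mul_one _

lemma φ_abs (t : ℝ) : φ |t| = φ t := by
  rcases abs_choice t with h | h
  · rw [h]
  · rw [h, φ_neg]

lemma φ_mul_abs (a t : ℝ) : φ (a * |t|) = φ (a * t) := by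
  rcases abs_choice t with h | h
  · rw [h]
  · rw [h, mul_neg, φ_neg]

lemma integral_even_prod (θ : Fin n → ℝ) : ∫ t, ∏ i, φ (θ i * t) = 2 * ∫ t in Ioi (0:ℝ), ∏ i, φ (θ i * t) := by
  rw [← integral_comp_abs (f := fun t : ℝ => ∏ i, φ (θ i * t))]
  congr 1
  ext t
  simp_rw [φ_mul_abs]

lemma sqrt12_le_z1 : Real.sqrt 12 ≤ z1 := by
  have h := z1_gt
  rw [Real.sqrt_le_left (by linarith)]
  nlinarith

lemma Dir.tail_le (h : Dir θ i0 i1) {K M : ℕ} (hM1 : 1 ≤ M) (hM2 : M ≤ 1000)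
    (hK : (K:ℝ)/1000 ≤ 1/(θ i0)^2 - 2) (hM : M = 1000 ∨ 1/(θ i0)^2 - 2 ≤ (M:ℝ)/1000) :
    |∫ t in Ioi (z1/θ i0), ∏ i, φ (θ i * t)| ≤ (1/θ i0) * tailB K M := by
  have ha := h.a_pos
  have e1 : ∫ t in Ioi (z1/θ i0), ∏ i, φ (θ i * t)
      = (θ i0)⁻¹ * ∫ u in Ioi z1, φ u^2 * Rst (oth i0 i1) (rh θ i0) u := by
    simp_rw [h.prod_eq]
    have := integral_comp_mul_left_Ioi (fun u => φ u^2 * Rst (oth i0 i1) (rh θ i0) u) (z1/θ i0) ha
    rw [this, smul_eq_mul, mul_div_cancel₀ _ ha.ne']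
  have h0 : ∀ i ∈ oth i0 i1, 0 ≤ rh θ i0 i := fun i _ => h.rh_nonneg i
  have h1 : ∀ i ∈ oth i0 i1, rh θ i0 i ≤ (M:ℝ)/1000 := by
    intro i hi
    rcases hM with hM | hM
    · rw [hM]; norm_num; exact h.rh_le_one i
    · exact (h.rh_le_sum hi).trans hM
  have hK' : (K:ℝ)/1000 ≤ ∑ i ∈ oth i0 i1, rh θ i0 i := by rw [h.sum_rh]; exact hK
  have hb := tail_bound (oth i0 i1) (rh θ i0) hM1 hM2 h0 h1 hK'
  rw [e1, abs_mul, abs_of_pos (inv_pos.2 ha), one_div]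
  apply mul_le_mul_of_nonneg_left _ (inv_pos.2 ha).le
  rw [← Real.norm_eq_abs]
  refine (norm_integral_le_integral_norm _).trans ?_
  have e2 : ∀ u, ‖φ u^2 * Rst (oth i0 i1) (rh θ i0) u‖ = φ u^2 * |Rst (oth i0 i1) (rh θ i0) u| := by
    intro u
    rw [Real.norm_eq_abs, abs_mul, abs_of_nonneg (sq_nonneg _)]
  simp_rw [e2]
  refine le_trans ?_ hb
  exact setIntegral_mono_set (prod_integrable _ _).integrableOn
    (Filter.Eventually.of_forall fun u => mul_nonneg (sq_nonneg _) (abs_nonneg _))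
    (Ioi_subset_Ioi sqrt12_le_z1).eventuallyLE

lemma Dir.split (h : Dir θ i0 i1) : ∫ t in Ioi (0:ℝ), ∏ i, φ (θ i * t)
    = (∫ t in (0:ℝ)..(z1/θ i0), ∏ i, φ (θ i * t)) + ∫ t in Ioi (z1/θ i0), ∏ i, φ (θ i * t) :=
  (intervalIntegral.integral_interval_add_Ioi h.integrable.integrableOn h.integrable.integrableOn).symm

lemma Dir.half_bound (h : Dir θ i0 i1) {K M : ℕ} (hM1 : 1 ≤ M) (hM2 : M ≤ 1000)
    (hK : (K:ℝ)/1000 ≤ 1/(θ i0)^2 - 2) (hM : M = 1000 ∨ 1/(θ i0)^2 - 2 ≤ (M:ℝ)/1000) :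
    ∫ t in Ioi (0:ℝ), ∏ i, φ (θ i * t) ≤
      (∫ t in (0:ℝ)..(z1/θ i0), ∏ i, φ (θ i * t)) + (1/θ i0) * tailB K M := by
  rw [h.split]
  have := (le_abs_self _).trans (h.tail_le hM1 hM2 hK hM)
  linarith

/-- below `z1/θ i0` all factors are positive -/
lemma Dir.arg_lt (h : Dir θ i0 i1) {t : ℝ} (h0 : 0 ≤ t) (h1 : t < z1/θ i0) (i : Fin n) :
    0 ≤ θ i * t ∧ θ i * t < z1 := by
  have ha := h.a_pos
  refine ⟨mul_nonneg (h.nonneg i) h0, ?_⟩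
  calc θ i * t ≤ θ i0 * t := mul_le_mul_of_nonneg_right (h.le i) h0
    _ < z1 := by rw [lt_div_iff₀ ha] at h1; linarith

lemma Dir.s_le (h : Dir θ i0 i1) : (θ i0)^2 ≤ 1/2 := by
  have h1 := sum_oth h.ne (fun i => θ i^2)
  rw [h.sum, h.eq] at h1
  have : 0 ≤ ∑ i ∈ oth i0 i1, θ i^2 := Finset.sum_nonneg fun i _ => sq_nonneg _
  linarith

lemma Dir.n_ge (h : Dir θ i0 i1) : 1 ≤ (n:ℝ) * (θ i0)^2 := by
  rw [← h.sum]
  calc ∑ i, θ i^2 ≤ ∑ _i : Fin n, (θ i0)^2 :=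
        Finset.sum_le_sum fun i _ => pow_le_pow_left₀ (h.nonneg i) (h.le i) 2
    _ = (n:ℝ) * (θ i0)^2 := by simp

lemma Dir.two_le (h : Dir θ i0 i1) : 2 ≤ n := by
  have h0 := i0.isLt
  have h1 := i1.isLt
  have h2 : (i0:ℕ) ≠ i1 := fun e => h.ne (Fin.ext e)
  omega

end Helper64.CubeGauss
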