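import Pool.Agent.Helper64.CubeGauss.NumTools
import Pool.Agent.Helper64.CubeGauss.Upper

/-! Midpoint type upper bound for `∫ exp (-(A t² + B t⁴ + C t⁶))`. -/

namespace Helper64.CubeGauss

open MeasureTheory Set

noncomputable def qp (A B C t : ℝ) : ℝ := A*t^2 + B*t^4 + C*t^6
noncomputable def qp' (A B C t : ℝ) : ℝ := 2*A*t + 4*B*t^3 + 6*C*t^5

lemma qp_tangent {A B C : ℝ} (hA : 0 ≤ A) (hB : 0 ≤ B) (hC : 0 ≤ C) (m t : ℝ) :
    qp A B C m + qp' A B C m * (t-m) ≤ qp A B C t := by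
  have e : qp A B C t - (qp A B C m + qp' A B C m * (t-m))
      = A*(t-m)^2 + B*((t-m)^2*((t+m)^2+2*m^2)) + C*((t-m)^2*((t^2+t*m)^2+2*m^2*(t+m)^2+3*m^4)) := by
    unfold qp qp'; ring
  have : 0 ≤ A*(t-m)^2 + B*((t-m)^2*((t+m)^2+2*m^2)) + C*((t-m)^2*((t^2+t*m)^2+2*m^2*(t+m)^2+3*m^4)) := by
    positivity
  linarith

lemma exp_cell {b r : ℝ} (hr : 0 ≤ r) (hb : |b| * r ≤ 1) :
    ∫ x in (-r)..r, Real.exp (-(b*x)) ≤ 2*r*Real.exp (b^2*r^2/6) := by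
  have hpt : ∀ x ∈ Icc (-r) r, Real.exp (-(b*x)) ≤ 1 - b*x + (b*x)^2/2 - (b*x)^3/6 + 5/96*(b*x)^4 := by
    intro x hx
    have hx' : |x| ≤ r := abs_le.2 hx
    have h1 : |-(b*x)| ≤ 1 := by
      rw [abs_neg, abs_mul]
      exact (mul_le_mul_of_nonneg_left hx' (abs_nonneg b)).trans hb
    have h2 := Real.exp_bound h1 (n := 4) (by norm_num)
    have h3 : |-(b*x)|^4 = (b*x)^4 := by
      rw [abs_neg]; exact (Even.pow_abs (by decide) _)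
    rw [h3] at h2
    have h4 := (abs_le.1 h2).2
    simp only [Finset.sum_range_succ, Finset.sum_range_zero, Nat.factorial] at h4
    norm_num at h4
    linarith
  have hder : ∀ x ∈ uIcc (-r) r, HasDerivAt (fun x => x - b*x^2/2 + b^2*x^3/6 - b^3*x^4/24 + b^4*x^5/96)
      (1 - b*x + (b*x)^2/2 - (b*x)^3/6 + 5/96*(b*x)^4) x := by
    intro x _
    have h := (((((hasDerivAt_id x).sub (((hasDerivAt_pow 2 x).const_mul b).div_const 2)).add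
      (((hasDerivAt_pow 3 x).const_mul (b^2)).div_const 6)).sub
      (((hasDerivAt_pow 4 x).const_mul (b^3)).div_const 24)).add
      (((hasDerivAt_pow 5 x).const_mul (b^4)).div_const 96))
    refine h.congr_deriv ?_
    norm_num
    ring
  have hle : ∫ x in (-r)..r, Real.exp (-(b*x)) ≤
      ∫ x in (-r)..r, (1 - b*x + (b*x)^2/2 - (b*x)^3/6 + 5/96*(b*x)^4) := by
    apply intervalIntegral.integral_mono_on (by linarith)
    · exact (by fun_prop : Continuous fun x => Real.exp (-(b*x))).intervalIntegrable _ _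
    · exact (by fun_prop : Continuous fun x => (1 - b*x + (b*x)^2/2 - (b*x)^3/6 + 5/96*(b*x)^4)).intervalIntegrable _ _
    · exact hpt
  refine hle.trans ?_
  rw [intervalIntegral.integral_eq_sub_of_hasDerivAt hder
    ((by fun_prop : Continuous fun x => (1 - b*x + (b*x)^2/2 - (b*x)^3/6 + 5/96*(b*x)^4)).intervalIntegrable _ _)]
  have hq := Real.quadratic_le_exp_of_nonneg (x := b^2*r^2/6) (by positivity)
  have h5 : 2*r*(1 + b^2*r^2/6 + (b^2*r^2/6)^2/2) ≤ 2*r*Real.exp (b^2*r^2/6) :=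
    mul_le_mul_of_nonneg_left hq (by positivity)
  refine le_trans ?_ h5
  have h6 : 0 ≤ b^4*r^5 := by positivity
  nlinarith

lemma mid_cell {A B C : ℝ} (hA : 0 ≤ A) (hB : 0 ≤ B) (hC : 0 ≤ C) {m r : ℝ} (hm : 0 ≤ m) (hr : 0 ≤ r)
    (hb : qp' A B C m * r ≤ 1) :
    ∫ t in (m-r)..(m+r), Real.exp (-(qp A B C t)) ≤
      2*r*Real.exp (-(qp A B C m - (qp' A B C m)^2*r^2/6)) := by
  have hb0 : 0 ≤ qp' A B C m := by unfold qp'; positivity
  have h1 : ∫ t in (m-r)..(m+r), Real.exp (-(qp A B C t)) ≤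
      ∫ t in (m-r)..(m+r), Real.exp (-(qp A B C m)) * Real.exp (-(qp' A B C m * (t-m))) := by
    apply intervalIntegral.integral_mono_on (by linarith)
    · exact (by unfold qp; fun_prop : Continuous fun t => Real.exp (-(qp A B C t))).intervalIntegrable _ _
    · exact (by fun_prop : Continuous fun t => Real.exp (-(qp A B C m)) *
        Real.exp (-(qp' A B C m * (t-m)))).intervalIntegrable _ _
    · intro t _
      rw [← Real.exp_add]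
      apply Real.exp_le_exp.2
      have := qp_tangent hA hB hC m t
      linarith
  refine h1.trans ?_
  rw [intervalIntegral.integral_const_mul]
  have h2 : ∫ t in (m-r)..(m+r), Real.exp (-(qp' A B C m * (t-m)))
      = ∫ x in (-r)..r, Real.exp (-(qp' A B C m * x)) := by
    have := intervalIntegral.integral_comp_sub_right (a := m-r) (b := m+r)
      (fun x => Real.exp (-(qp' A B C m * x))) m
    rw [this]
    congr 1 <;> ring
  rw [h2]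
  have h3 := exp_cell (b := qp' A B C m) hr (by rw [abs_of_nonneg hb0]; exact hb)
  calc Real.exp (-(qp A B C m)) * ∫ x in (-r)..r, Real.exp (-(qp' A B C m * x))
      ≤ Real.exp (-(qp A B C m)) * (2*r*Real.exp ((qp' A B C m)^2*r^2/6)) :=
        mul_le_mul_of_nonneg_left h3 (Real.exp_pos _).le
    _ = 2*r*Real.exp (-(qp A B C m - (qp' A B C m)^2*r^2/6)) := by
        rw [show -(qp A B C m - (qp' A B C m)^2*r^2/6) = -(qp A B C m) + (qp' A B C m)^2*r^2/6 by ring,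
          Real.exp_add]
        ring

/-- `A = 14556254 / 10^8`, lower bound of `s2/2`. -/
def A1 : ℕ := 14556254

lemma A1_le : (A1:ℝ)/10^8 ≤ s2/2 := by
  have h := s2_bounds.1
  unfold A1
  norm_num at *
  linarith

def qN (B1 C1 k : ℕ) : ℕ := (A1*k^2*160000000000 + B1*k^4*40000 + C1*k^6)/6400000000000

def qN' (B1 C1 k : ℕ) : ℕ := (A1*k*160000000000 + B1*k^3*80000 + 3*C1*k^5)/160000000000000 + 1

def zM (B1 C1 k : ℕ) : ℕ := qN B1 C1 k - ((qN' B1 C1 k)^2/2400000 + 1)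

def ckM (B1 C1 k : ℕ) : Bool :=
  decide ((qN' B1 C1 k)^2/2400000 + 1 ≤ qN B1 C1 k) && decide (qN' B1 C1 k ≤ 20000000)

def mainU (B1 C1 N : ℕ) : ℕ := nsum (fun i => expU (zM B1 C1 (2*i+1))) 0 N

lemma qN_le (B1 C1 k : ℕ) : (qN B1 C1 k : ℝ)/10^9 ≤ qp ((A1:ℝ)/10^8) ((B1:ℝ)/10^12) ((C1:ℝ)/10^14) ((k:ℝ)/20) := by
  have h : (qN B1 C1 k) * 6400000000000 ≤ A1*k^2*160000000000 + B1*k^4*40000 + C1*k^6 :=
    Nat.div_mul_le_self _ _
  have h' := (Nat.cast_le (α := ℝ)).2 h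
  push_cast at h'
  unfold qp
  have e : (A1:ℝ)/10^8*((k:ℝ)/20)^2 + (B1:ℝ)/10^12*((k:ℝ)/20)^4 + (C1:ℝ)/10^14*((k:ℝ)/20)^6
      = ((A1:ℝ)*(k:ℝ)^2*160000000000 + (B1:ℝ)*(k:ℝ)^4*40000 + (C1:ℝ)*(k:ℝ)^6)/(6400000000000*10^9) := by
    ring
  rw [e, div_le_div_iff₀ (by norm_num) (by norm_num)]
  nlinarith [h']

lemma qN'_ge (B1 C1 k : ℕ) : qp' ((A1:ℝ)/10^8) ((B1:ℝ)/10^12) ((C1:ℝ)/10^14) ((k:ℝ)/20) ≤ (qN' B1 C1 k : ℝ)/10^6 := by
  have h : A1*k*160000000000 + B1*k^3*80000 + 3*C1*k^5 ≤ (qN' B1 C1 k) * 160000000000000 := by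
    unfold qN'
    exact (Nat.lt_mul_of_div_lt (Nat.lt_succ_self _) (by norm_num)).le
  have h' := (Nat.cast_le (α := ℝ)).2 h
  push_cast at h'
  unfold qp'
  have e : 2*((A1:ℝ)/10^8)*((k:ℝ)/20) + 4*((B1:ℝ)/10^12)*((k:ℝ)/20)^3 + 6*((C1:ℝ)/10^14)*((k:ℝ)/20)^5
      = ((A1:ℝ)*(k:ℝ)*160000000000 + (B1:ℝ)*(k:ℝ)^3*80000 + 3*(C1:ℝ)*(k:ℝ)^5)/(160000000000000*10^6) := by
    ring
  rw [e, div_le_div_iff₀ (by norm_num) (by norm_num)]
  nlinarith [h']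

lemma zM_le {B1 C1 k : ℕ} (hck : ckM B1 C1 k = true) :
    (zM B1 C1 k : ℝ)/10^9 ≤ qp ((A1:ℝ)/10^8) ((B1:ℝ)/10^12) ((C1:ℝ)/10^14) ((k:ℝ)/20)
      - (qp' ((A1:ℝ)/10^8) ((B1:ℝ)/10^12) ((C1:ℝ)/10^14) ((k:ℝ)/20))^2*(1/20)^2/6 := by
  unfold ckM at hck
  simp only [Bool.and_eq_true, decide_eq_true_eq] at hck
  have h1 := qN_le B1 C1 k
  have h2 := qN'_ge B1 C1 k
  have h0 : 0 ≤ qp' ((A1:ℝ)/10^8) ((B1:ℝ)/10^12) ((C1:ℝ)/10^14) ((k:ℝ)/20) := by unfold qp'; positivity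
  have h3 : (qp' ((A1:ℝ)/10^8) ((B1:ℝ)/10^12) ((C1:ℝ)/10^14) ((k:ℝ)/20))^2 ≤ ((qN' B1 C1 k : ℝ)/10^6)^2 :=
    pow_le_pow_left₀ h0 h2 2
  have h4 : (qN' B1 C1 k)^2 < ((qN' B1 C1 k)^2/2400000 + 1) * 2400000 :=
    Nat.lt_mul_of_div_lt (Nat.lt_succ_self _) (by norm_num)
  unfold zM
  rw [Nat.cast_sub hck.1]
  set b := (qN' B1 C1 k)^2/2400000 + 1 with hb
  have h5 := (Nat.cast_le (α := ℝ)).2 h4.le
  push_cast at h5
  have h6 : ((qN' B1 C1 k : ℝ)/10^6)^2*(1/20)^2/6 ≤ (b:ℝ)/10^9 := by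
    have e : ((qN' B1 C1 k : ℝ)/10^6)^2*(1/20)^2/6 = (qN' B1 C1 k : ℝ)^2/(2400000*10^9) := by ring
    rw [e, div_le_div_iff₀ (by norm_num) (by norm_num)]
    nlinarith [h5]
  rw [sub_div]
  nlinarith

lemma mainU_bound {B1 C1 N : ℕ} (hck : (List.range N).all (fun i => ckM B1 C1 (2*i+1)) = true) :
    ∫ t in (0:ℝ)..((N:ℝ)/10), Real.exp (-(qp ((A1:ℝ)/10^8) ((B1:ℝ)/10^12) ((C1:ℝ)/10^14) t))
      ≤ (mainU B1 C1 N : ℝ)/10^16 := by
  unfold mainU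
  rw [nsum_eq, zero_add]
  have hc : Continuous fun t => Real.exp (-(qp ((A1:ℝ)/10^8) ((B1:ℝ)/10^12) ((C1:ℝ)/10^14) t)) := by
    unfold qp; fun_prop
  have hsum := intervalIntegral.sum_integral_adjacent_intervals (a := fun i : ℕ => (i:ℝ)/10) (n := N)
    (f := fun t => Real.exp (-(qp ((A1:ℝ)/10^8) ((B1:ℝ)/10^12) ((C1:ℝ)/10^14) t))) (μ := volume)
    (fun i _ => hc.intervalIntegrable _ _)
  simp only [Nat.cast_zero, zero_div] at hsum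
  rw [← hsum, Nat.Ico_zero_eq_range, Nat.cast_sum, Finset.sum_div]
  apply Finset.sum_le_sum
  intro i hi
  have hck' := List.all_eq_true.1 hck i (List.mem_range.2 (Finset.mem_range.1 hi))
  have hz := zM_le hck'
  have hq := qN'_ge B1 C1 (2*i+1)
  unfold ckM at hck'
  simp only [Bool.and_eq_true, decide_eq_true_eq] at hck'
  have hq2 := (Nat.cast_le (α := ℝ)).2 hck'.2
  have hcell := mid_cell (A := (A1:ℝ)/10^8) (B := (B1:ℝ)/10^12) (C := (C1:ℝ)/10^14)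
    (by positivity) (by positivity) (by positivity) (m := ((2*i+1:ℕ):ℝ)/20) (r := 1/20)
    (by positivity) (by norm_num) (by
      push_cast at hq hq2 ⊢
      have : qp' ((A1:ℝ)/10^8) ((B1:ℝ)/10^12) ((C1:ℝ)/10^14) ((2*(i:ℝ)+1)/20) ≤ 20 := by
        refine hq.trans ?_
        rw [div_le_iff₀ (by norm_num)]
        linarith
      linarith)
  have e1 : ((2*i+1:ℕ):ℝ)/20 - 1/20 = (i:ℝ)/10 := by push_cast; ring
  have e2 : ((2*i+1:ℕ):ℝ)/20 + 1/20 = ((i+1:ℕ):ℝ)/10 := by push_cast; ring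
  rw [e1, e2] at hcell
  refine hcell.trans ?_
  have h7 := expU_le hz
  calc 2*(1/20)*Real.exp (-(qp ((A1:ℝ)/10^8) ((B1:ℝ)/10^12) ((C1:ℝ)/10^14) (((2*i+1:ℕ):ℝ)/20)
        - (qp' ((A1:ℝ)/10^8) ((B1:ℝ)/10^12) ((C1:ℝ)/10^14) (((2*i+1:ℕ):ℝ)/20))^2*(1/20)^2/6))
      ≤ 2*(1/20)*((expU (zM B1 C1 (2*i+1)) : ℝ)/10^15) := mul_le_mul_of_nonneg_left h7 (by norm_num)
    _ = (expU (zM B1 C1 (2*i+1)) : ℝ)/10^16 := by ring

end Helper64.CubeGauss
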