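import Pool.Agent.Helper64.CubeGauss.Setup
import Pool.Agent.Helper64.CubeGauss.Mid

/-! At most five coordinates, `1/5 ≤ s ≤ 2/5`. -/

namespace Helper64.CubeGauss

open MeasureTheory Set

variable {n : ℕ} {θ : Fin n → ℝ} {i0 i1 : Fin n}

lemma φ_nonneg_lt {t : ℝ} (h0 : 0 ≤ t) (h1 : t < z1) : 0 ≤ φ t := (φ_pos h0 h1).le

lemma Dir.main_exp (h : Dir θ i0 i1) {t : ℝ} (h0 : 0 ≤ t) (h1 : t < z1/θ i0) :
    ∏ i, φ (θ i * t) ≤ Real.exp (-(s2/2*t^2 + c4*(∑ i, θ i^4)*t^4 + c6*(∑ i, θ i^6)*t^6)) := by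
  have hz := z1_lt
  have e : Real.exp (-(s2/2*t^2 + c4*(∑ i, θ i^4)*t^4 + c6*(∑ i, θ i^6)*t^6))
      = ∏ i, Real.exp (-Λ (θ i * t)) := by
    rw [← Real.exp_sum]
    congr 1
    rw [Finset.sum_neg_distrib]
    congr 1
    unfold Λ
    rw [Finset.sum_add_distrib, Finset.sum_add_distrib]
    congr 1
    · congr 1
      · have := h.sum
        calc s2/2*t^2 = s2*t^2/2 * ∑ i, θ i^2 := by rw [this]; ring
          _ = ∑ i, s2*(θ i*t)^2/2 := by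
            rw [Finset.mul_sum]; apply Finset.sum_congr rfl; intro i _; ring
      · rw [Finset.mul_sum, Finset.sum_mul]; apply Finset.sum_congr rfl; intro i _; ring
    · rw [Finset.mul_sum, Finset.sum_mul]; apply Finset.sum_congr rfl; intro i _; ring
  rw [e]
  apply Finset.prod_le_prod
  · intro i _
    obtain ⟨h2, h3⟩ := h.arg_lt h0 h1 i
    exact φ_nonneg_lt h2 h3
  · intro i _
    obtain ⟨h2, h3⟩ := h.arg_lt h0 h1 i
    exact φ_le_exp h2 (by linarith)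

lemma Dir.sum_oth_sq (h : Dir θ i0 i1) : ∑ i ∈ oth i0 i1, θ i^2 = 1 - 2*(θ i0)^2 := by
  have h1 := sum_oth h.ne (fun i => θ i^2)
  rw [h.sum, h.eq] at h1
  linarith

lemma Dir.pow4_ge (h : Dir θ i0 i1) {d : ℝ} (hd : 0 < d) (hn : ((n-2:ℕ):ℝ) ≤ d) :
    2*((θ i0)^2)^2 + (1 - 2*(θ i0)^2)^2/d ≤ ∑ i, θ i^4 := by
  have h1 := sum_oth h.ne (fun i => θ i^4)
  rw [h.eq] at h1
  set x0 := (1 - 2*(θ i0)^2)/d with hx0
  have hx : ∑ i ∈ oth i0 i1, (2*x0*θ i^2 - x0^2) ≤ ∑ i ∈ oth i0 i1, θ i^4 := by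
    apply Finset.sum_le_sum
    intro i _
    nlinarith [sq_nonneg (θ i^2 - x0)]
  rw [Finset.sum_sub_distrib, ← Finset.mul_sum, h.sum_oth_sq, Finset.sum_const, card_oth h.ne,
    nsmul_eq_mul] at hx
  have h2 : ((n-2:ℕ):ℝ)*x0^2 ≤ d*x0^2 := mul_le_mul_of_nonneg_right hn (sq_nonneg _)
  have h3 : (1 - 2*(θ i0)^2)^2/d = 2*x0*(1 - 2*(θ i0)^2) - d*x0^2 := by
    rw [hx0]; field_simp; ring
  rw [h1, h3]
  nlinarith

lemma Dir.pow6_ge (h : Dir θ i0 i1) (hn : n ≤ 5) :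
    2*((θ i0)^2)^3 + (1 - 2*(θ i0)^2)^3/9 ≤ ∑ i, θ i^6 := by
  have h1 := sum_oth h.ne (fun i => θ i^6)
  rw [h.eq] at h1
  set x0 := (1 - 2*(θ i0)^2)/3 with hx0
  have hs := h.s_le
  have hx00 : 0 ≤ x0 := by rw [hx0]; apply div_nonneg _ (by norm_num); linarith
  have hx : ∑ i ∈ oth i0 i1, (3*x0^2*θ i^2 - 2*x0^3) ≤ ∑ i ∈ oth i0 i1, θ i^6 := by
    apply Finset.sum_le_sum
    intro i _
    have e : θ i^6 - (3*x0^2*θ i^2 - 2*x0^3) = (θ i^2 - x0)^2*(θ i^2 + 2*x0) := by ring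
    have : 0 ≤ (θ i^2 - x0)^2*(θ i^2 + 2*x0) := by positivity
    linarith
  rw [Finset.sum_sub_distrib, ← Finset.mul_sum, h.sum_oth_sq, Finset.sum_const, card_oth h.ne,
    nsmul_eq_mul] at hx
  have hn' : ((n-2:ℕ):ℝ) ≤ 3 := by exact_mod_cast (by omega : n - 2 ≤ 3)
  have h2 : ((n-2:ℕ):ℝ)*(2*x0^3) ≤ 3*(2*x0^3) := mul_le_mul_of_nonneg_right hn' (by positivity)
  have h3 : 1 - 2*(θ i0)^2 = 3*x0 := by rw [hx0]; ring
  rw [h3] at hx ⊢
  rw [h1]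
  nlinarith

lemma K2_mono {s l : ℝ} (hl : 1/5 ≤ l) (hs : l ≤ s) : 2*l^2 + (1-2*l)^2/3 ≤ 2*s^2 + (1-2*s)^2/3 := by
  have e : 2*s^2 + (1-2*s)^2/3 - (2*l^2 + (1-2*l)^2/3) = (s-l)*((10/3)*(s+l-2/5)) := by ring
  have : 0 ≤ (s-l)*((10/3)*(s+l-2/5)) := mul_nonneg (by linarith) (by linarith)
  linarith

lemma K3_mono {s l : ℝ} (hl : 1/5 ≤ l) (hs : l ≤ s) (hs2 : s ≤ 1/2) :
    2*l^3 + (1-2*l)^3/9 ≤ 2*s^3 + (1-2*s)^3/9 := by
  have e : 2*s^3 + (1-2*s)^3/9 - (2*l^3 + (1-2*l)^3/9)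
      = (s-l)*(2*(s^2+s*l+l^2) - (2/9)*((1-2*l)^2+(1-2*l)*(1-2*s)+(1-2*s)^2)) := by ring
  have hu : 0 ≤ 1-2*l := by linarith
  have hv : 0 ≤ 1-2*s := by linarith
  have hu2 : 1-2*l ≤ 3*l := by linarith
  have hv2 : 1-2*s ≤ 3*s := by linarith
  have hl0 : 0 ≤ 3*l := by linarith
  have a1 : (1-2*l)^2 ≤ (3*l)^2 := pow_le_pow_left₀ hu hu2 2
  have a2 : (1-2*s)^2 ≤ (3*s)^2 := pow_le_pow_left₀ hv hv2 2
  have a3 : (1-2*l)*(1-2*s) ≤ (3*l)*(3*s) := mul_le_mul hu2 hv2 hv hl0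
  have : 0 ≤ (s-l)*(2*(s^2+s*l+l^2) - (2/9)*((1-2*l)^2+(1-2*l)*(1-2*s)+(1-2*s)^2)) :=
    mul_nonneg (by linarith) (by nlinarith)
  linarith

def BD (m : ℕ) : ℕ := 93500*(6*m^2+(200-2*m)^2)/3
def CD (m : ℕ) : ℕ := 250*(18*m^3+(200-2*m)^3)
def KD (m : ℕ) : ℕ := 1000*(198-2*m)/(m+1)
def MD (m : ℕ) : ℕ := min 1000 ((1000*(200-2*m)+m-1)/m)

/-- upper bounds for `10^6 √(200/m)` -/
def RL : List ℕ := [2294158, 2264555,
  2236068, 2208631, 2182179, 2156656, 2132008, 2108186, 2085145, 2062843, 2041242, 2020306,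
  2000001, 1980296, 1961162, 1942572, 1924501, 1906926, 1889823, 1873172, 1856954, 1841150,
  1825742, 1810715, 1796054, 1781742, 1767767, 1754117, 1740777, 1727737, 1714986, 1702514,
  1690309, 1678363, 1666667, 1655212, 1643990, 1632994, 1622215, 1611646, 1601282, 1591115]

def Rf (m : ℕ) : ℕ := RL.getD (m-38) 0

lemma R_check : ∀ m < 80, 38 ≤ m → 200*10^12 ≤ (Rf m)^2*m := by decide +kernel

lemma inv_a_le {a : ℝ} (ha : 0 < a) {m : ℕ} (h38 : 38 ≤ m) (hm : m < 80) (h : (m:ℝ)/200 ≤ a^2) :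
    1/a ≤ (Rf m : ℝ)/10^6 := by
  have h1 := R_check m hm h38
  have h1' : (200:ℝ)*10^12 ≤ (Rf m : ℝ)^2*m := by exact_mod_cast h1
  have hm0 : (0:ℝ) < m := by exact_mod_cast (by omega : 0 < m)
  rw [div_le_iff₀ ha]
  have hR0 : (0:ℝ) ≤ (Rf m : ℝ)/10^6*a := by positivity
  have h2 : 1 ≤ ((Rf m : ℝ)/10^6*a)^2 := by
    have : ((Rf m : ℝ)/10^6*a)^2 = (Rf m : ℝ)^2/10^12*a^2 := by ring
    rw [this]
    calc (1:ℝ) ≤ (Rf m : ℝ)^2/10^12*((m:ℝ)/200) := by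
          rw [div_mul_div_comm, le_div_iff₀ (by norm_num)]; linarith
      _ ≤ (Rf m : ℝ)^2/10^12*a^2 := mul_le_mul_of_nonneg_left h (by positivity)
  nlinarith

def NDf (m : ℕ) : ℕ := 3495*Rf m/10^8+1

def ckD (m : ℕ) : Bool :=
  (List.range (NDf m)).all (fun i => ckM (BD m) (CD m) (2*i+1)) &&
  decide (mainU (BD m) (CD m) (NDf m) * (16*10^25) + Rf m * (16 * tUsum (KD m) (MD m) + farN (KD m) * 10^9)
    ≤ 22661*(16*10^37))

set_option maxRecDepth 100000 in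
lemma ckD_all : (List.range 40).all (fun i => ckD (40+i)) = true := by decide +kernel

lemma tailB_nonneg (K M : ℕ) : 0 ≤ tailB K M :=
  add_nonneg (div_nonneg (Nat.cast_nonneg _) (by norm_num)) (div_nonneg (Nat.cast_nonneg _) (by norm_num))


lemma MD_range : ∀ m < 80, 38 ≤ m → 1 ≤ MD m ∧ MD m ≤ 1000 := by decide +kernel

lemma K_cell {a : ℝ} (ha : 0 < a) {m : ℕ} (hm : m < 80) (h : a^2 ≤ ((m:ℝ)+1)/200) :
    (KD m : ℝ)/1000 ≤ 1/a^2 - 2 := by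
  have h1 : KD m * (m+1) ≤ 1000*(198-2*m) := Nat.div_mul_le_self _ _
  have h1' := (Nat.cast_le (α := ℝ)).2 h1
  rw [Nat.cast_mul, Nat.cast_mul, Nat.cast_sub (by omega)] at h1'
  push_cast at h1'
  have h2 : (200:ℝ)/((m:ℝ)+1) ≤ 1/a^2 := by
    rw [div_le_div_iff₀ (by positivity) (by positivity)]
    linarith
  have h3 : (KD m : ℝ)/1000 ≤ 200/((m:ℝ)+1) - 2 := by
    rw [div_sub' (by positivity), div_le_div_iff₀ (by norm_num) (by positivity)]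
    linarith
  linarith

lemma M_cell {a : ℝ} (ha : 0 < a) {m : ℕ} (h38 : 38 ≤ m) (hm : m < 80) (h : (m:ℝ)/200 ≤ a^2) :
    MD m = 1000 ∨ 1/a^2 - 2 ≤ (MD m : ℝ)/1000 := by
  have hm0 : (0:ℝ) < m := by exact_mod_cast (by omega : 0 < m)
  have hM : MD m = min 1000 ((1000*(200-2*m)+m-1)/m) := rfl
  rcases le_total 1000 ((1000*(200-2*m)+m-1)/m) with h1 | h1
  · left; rw [hM, min_eq_left h1]
  · right
    rw [hM, min_eq_right h1]
    set q := (1000*(200-2*m)+m-1)/m with hq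
    have h2 : 1000*(200-2*m)+m-1 < (q+1)*m := Nat.lt_mul_of_div_lt (Nat.lt_succ_self _) (by omega)
    have h3 : 1000*(200-2*m) ≤ q*m := by
      have : (q+1)*m = q*m + m := by ring
      omega
    have h3' := (Nat.cast_le (α := ℝ)).2 h3
    rw [Nat.cast_mul, Nat.cast_mul, Nat.cast_sub (by omega)] at h3'
    push_cast at h3'
    have h4 : 1/a^2 ≤ 200/(m:ℝ) := by
      rw [div_le_div_iff₀ (by positivity) hm0]
      have : (m:ℝ) ≤ a^2*200 := by rw [div_le_iff₀ (by norm_num)] at h; exact h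
      linarith
    have h5 : 200/(m:ℝ) - 2 ≤ (q:ℝ)/1000 := by
      rw [div_sub' hm0.ne', div_le_div_iff₀ hm0 (by norm_num)]
      linarith
    linarith

/-- the cell of `s` -/
lemma exists_cell {s : ℝ} {l : ℕ} (hl : l < 80) (h0 : (l:ℝ)/200 ≤ s) (h1 : s ≤ 2/5) :
    ∃ m : ℕ, l ≤ m ∧ m < 80 ∧ (m:ℝ)/200 ≤ s ∧ s ≤ ((m:ℝ)+1)/200 := by
  have hs0 : 0 ≤ s := le_trans (by positivity) h0
  rcases h1.lt_or_eq with h2 | h2
  · refine ⟨⌊200*s⌋₊, ?_, ?_, ?_, ?_⟩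
    · apply Nat.le_floor; linarith
    · rw [Nat.floor_lt (by positivity)]; push_cast; linarith
    · have := Nat.floor_le (a := 200*s) (by positivity); linarith
    · have := Nat.lt_floor_add_one (200*s); linarith
  · refine ⟨79, by omega, by norm_num, ?_, ?_⟩ <;> rw [h2] <;> norm_num

lemma Dir.T_le (h : Dir θ i0 i1) {m : ℕ} (h38 : 38 ≤ m) (hm : m < 80) (hs : (m:ℝ)/200 ≤ (θ i0)^2) :
    z1/θ i0 ≤ (NDf m : ℝ)/10 := by
  have ha := h.a_pos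
  have hz := z1_lt
  have hz0 := z1_gt
  have hi := inv_a_le ha h38 hm hs
  have h2 : 3495*Rf m < NDf m * 10^8 := Nat.lt_mul_of_div_lt (Nat.lt_succ_self _) (by norm_num)
  have h2' := (Nat.cast_le (α := ℝ)).2 h2.le
  push_cast at h2'
  calc z1/θ i0 = z1*(1/θ i0) := by ring
    _ ≤ 3.495*((Rf m : ℝ)/10^6) := mul_le_mul hz.le hi (by positivity) (by norm_num)
    _ ≤ (NDf m : ℝ)/10 := by
      rw [le_div_iff₀ (by norm_num)]
      linarith

theorem Dir.regD (h : Dir θ i0 i1) (hn : n ≤ 5) (hs : (θ i0)^2 ≤ 2/5) :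
    ∫ t in Ioi (0:ℝ), ∏ i, φ (θ i * t) ≤ 2.2661 := by
  have ha := h.a_pos
  have hs0 : (1:ℝ)/5 ≤ (θ i0)^2 := by
    have h1 := h.n_ge
    have h2 : (n:ℝ) ≤ 5 := by exact_mod_cast hn
    have h3 : (n:ℝ)*(θ i0)^2 ≤ 5*(θ i0)^2 := mul_le_mul_of_nonneg_right h2 (sq_nonneg _)
    linarith
  obtain ⟨m, hm1, hm2, hm3, hm4⟩ := exists_cell (l := 40) (by norm_num) (by linarith) hs
  have h38 : 38 ≤ m := by omega
  have hck := List.all_eq_true.1 ckD_all (m-40) (List.mem_range.2 (by omega))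
  rw [show 40 + (m-40) = m by omega] at hck
  unfold ckD at hck
  rw [Bool.and_eq_true, decide_eq_true_eq] at hck
  obtain ⟨hck1, hck2⟩ := hck
  obtain ⟨hM1, hM2⟩ := MD_range m hm2 h38
  have hhalf := h.half_bound hM1 hM2 (K_cell ha hm2 hm4) (M_cell ha h38 hm2 hm3)
  have hmain := mainU_bound hck1
  set A : ℝ := (A1:ℝ)/10^8 with hA
  set B : ℝ := (BD m:ℝ)/10^12 with hB
  set C : ℝ := (CD m:ℝ)/10^14 with hC
  have hz0 := z1_gt
  have hT0 : 0 ≤ z1/θ i0 := by apply div_nonneg _ ha.le; linarith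
  have hT := h.T_le h38 hm2 hm3
  have hl5 : (1:ℝ)/5 ≤ (m:ℝ)/200 := by
    rw [div_le_div_iff₀ (by norm_num) (by norm_num)]
    have : (40:ℝ) ≤ m := by exact_mod_cast hm1
    linarith
  have hm100 : ((200-2*m:ℕ):ℝ) = 200 - 2*(m:ℝ) := by
    rw [Nat.cast_sub (by omega)]; push_cast; ring
  have hBle : B ≤ c4 * ∑ i, θ i^4 := by
    have h1 := h.pow4_ge (d := 3) (by norm_num) (by exact_mod_cast (by omega : n - 2 ≤ 3))
    have h2 := K2_mono hl5 hm3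
    have h3 : BD m * 3 ≤ 93500*(6*m^2+(200-2*m)^2) := Nat.div_mul_le_self _ _
    have h3' := (Nat.cast_le (α := ℝ)).2 h3
    push_cast at h3'
    rw [hm100] at h3'
    have h4 := c4_bounds.1
    have h5 : B ≤ 37400/10^7 * (2*((m:ℝ)/200)^2 + (1-2*((m:ℝ)/200))^2/3) := by
      rw [hB, div_le_iff₀ (by norm_num)]
      nlinarith [h3']
    refine h5.trans (mul_le_mul h4.le (h2.trans h1) ?_ c4_pos.le)
    positivity
  have hCle : C ≤ c6 * ∑ i, θ i^6 := by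
    have h1 := h.pow6_ge hn
    have h2 := K3_mono hl5 hm3 h.s_le
    have h5 : C ≤ c6 * (2*((m:ℝ)/200)^3 + (1-2*((m:ℝ)/200))^3/9) := by
      rw [hC]
      unfold CD c6
      push_cast
      rw [hm100]
      apply le_of_eq
      ring
    exact h5.trans (mul_le_mul_of_nonneg_left (h2.trans h1) (by unfold c6; norm_num))
  have hAle := A1_le
  have hcont : Continuous fun t => Real.exp (-(qp A B C t)) := by unfold qp; fun_prop
  have hpc : Continuous (fun t : ℝ => ∏ i, φ (θ i * t)) := by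
    apply continuous_finsetProd
    intro i _
    exact φ_cont.comp (by fun_prop)
  have hm' : ∫ t in (0:ℝ)..(z1/θ i0), ∏ i, φ (θ i * t) ≤ ∫ t in (0:ℝ)..(z1/θ i0), Real.exp (-(qp A B C t)) := by
    apply intervalIntegral.integral_mono_on_of_le_Ioo hT0 (hpc.intervalIntegrable _ _) (hcont.intervalIntegrable _ _)
    intro t ht
    refine (h.main_exp ht.1.le ht.2).trans (Real.exp_le_exp.2 ?_)
    unfold qp
    have h2 : A*t^2 ≤ s2/2*t^2 := mul_le_mul_of_nonneg_right hAle (by positivity)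
    have h4 : B*t^4 ≤ c4*(∑ i, θ i^4)*t^4 := mul_le_mul_of_nonneg_right hBle (by positivity)
    have h6 : C*t^6 ≤ c6*(∑ i, θ i^6)*t^6 := mul_le_mul_of_nonneg_right hCle (by positivity)
    linarith
  have hm2' : ∫ t in (0:ℝ)..(z1/θ i0), Real.exp (-(qp A B C t)) ≤
      ∫ t in (0:ℝ)..((NDf m : ℝ)/10), Real.exp (-(qp A B C t)) := by
    apply intervalIntegral.integral_mono_interval le_rfl hT0 hT
    · exact Filter.Eventually.of_forall fun t => (Real.exp_pos _).le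
    · exact hcont.intervalIntegrable _ _
  have hinv := inv_a_le ha h38 hm2 hm3
  have htB : 0 ≤ tailB (KD m) (MD m) := tailB_nonneg _ _
  have htail : (1/θ i0)*tailB (KD m) (MD m) ≤ (Rf m : ℝ)/10^6*tailB (KD m) (MD m) :=
    mul_le_mul_of_nonneg_right hinv htB
  have hfin : (mainU (BD m) (CD m) (NDf m) : ℝ)/10^16 + (Rf m : ℝ)/10^6*tailB (KD m) (MD m) ≤ 2.2661 := by
    have h1 := (Nat.cast_le (α := ℝ)).2 hck2
    push_cast at h1
    unfold tailB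
    generalize (mainU (BD m) (CD m) (NDf m) : ℝ) = x1 at *
    generalize (tUsum (KD m) (MD m) : ℝ) = x2 at *
    generalize (farN (KD m) : ℝ) = x3 at *
    generalize (Rf m : ℝ) = x4 at *
    have e : x1/10^16 + x4/10^6*(x2/10^35 + x3/(16*10^26))
        = (x1*(16*10^25) + x4*(16*x2+x3*10^9))/(16*10^41) := by ring
    rw [e, div_le_iff₀ (by norm_num)]
    linarith
  linarith

end Helper64.CubeGauss
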