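import Pool.Agent.Helper64.CubeGauss.RegI2
import Pool.Agent.Helper64.CubeGauss.RegD
import Pool.Agent.Helper58.GC.A2

/-! Numerical bounds for `A2 = ∫_0^∞ φ²`. -/

namespace Helper64.CubeGauss

open MeasureTheory Set

lemma e_poly_bound {x : ℝ} (hx : x ∈ Icc (-1 : ℝ) 1) :
    |Real.exp (-x^2) - (1 - x^2 + x^4/2 - x^6/6 + x^8/24 - x^10/120 + x^12/720 - x^14/5040
      + x^16/40320 - x^18/362880 + x^20/3628800)| ≤ 3 / 10 ^ 8 := by
  have hx2 : x ^ 2 ≤ 1 := by
    have h1 := hx.1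
    have h2 := hx.2
    nlinarith
  have hz : |-x ^ 2| ≤ 1 := by
    rw [abs_neg, abs_of_nonneg (by positivity)]
    linarith
  have h := Real.exp_bound (x := -x ^ 2) hz (n := 11) (by norm_num)
  have hsum : ∑ m ∈ Finset.range 11, (-x ^ 2) ^ m / (m.factorial : ℝ)
      = (1 - x^2 + x^4/2 - x^6/6 + x^8/24 - x^10/120 + x^12/720 - x^14/5040
      + x^16/40320 - x^18/362880 + x^20/3628800) := by
    simp only [Finset.sum_range_succ, Finset.sum_range_zero, Nat.factorial]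
    push_cast
    ring
  rw [hsum] at h
  refine h.trans ?_
  have h3 : |-x ^ 2| ^ 11 ≤ 1 ^ 11 := pow_le_pow_left₀ (abs_nonneg _) hz 11
  calc |-x ^ 2| ^ 11 * ((Nat.succ 11 : ℕ) / (((11 : ℕ).factorial : ℝ) * (11 : ℕ)))
      ≤ 1 ^ 11 * ((Nat.succ 11 : ℕ) / (((11 : ℕ).factorial : ℝ) * (11 : ℕ))) := by
        apply mul_le_mul_of_nonneg_right h3
        positivity
    _ ≤ 3 / 10 ^ 8 := by
        simp only [Nat.factorial]
        norm_num

lemma integral_epoly : ∫ x in (-1 : ℝ)..1, (1 - x^2 + x^4/2 - x^6/6 + x^8/24 - x^10/120 + x^12/720 - x^14/5040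
      + x^16/40320 - x^18/362880 + x^20/3628800)
    = 2 * (1 - 1/3 + 1/10 - 1/42 + 1/216 - 1/1320 + 1/9360 - 1/75600 + 1/685440
      - 1/6894720 + 1/76204800) := by
  have h : ∀ x : ℝ, HasDerivAt (fun x : ℝ => x - x^3/3 + x^5/10 - x^7/42 + x^9/216 - x^11/1320
      + x^13/9360 - x^15/75600 + x^17/685440 - x^19/6894720 + x^21/76204800)
      (1 - x^2 + x^4/2 - x^6/6 + x^8/24 - x^10/120 + x^12/720 - x^14/5040
      + x^16/40320 - x^18/362880 + x^20/3628800) x := by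
    intro x
    have := ((((((((((hasDerivAt_id x).sub ((hasDerivAt_pow 3 x).div_const 3)).add
      ((hasDerivAt_pow 5 x).div_const 10)).sub ((hasDerivAt_pow 7 x).div_const 42)).add
      ((hasDerivAt_pow 9 x).div_const 216)).sub ((hasDerivAt_pow 11 x).div_const 1320)).add
      ((hasDerivAt_pow 13 x).div_const 9360)).sub ((hasDerivAt_pow 15 x).div_const 75600)).add
      ((hasDerivAt_pow 17 x).div_const 685440)).sub ((hasDerivAt_pow 19 x).div_const 6894720)).add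
      ((hasDerivAt_pow 21 x).div_const 76204800)
    refine HasDerivAt.congr_deriv this ?_
    norm_num
    ring
  rw [intervalIntegral.integral_eq_sub_of_hasDerivAt (fun x _ => h x)
    ((by fun_prop : Continuous fun x : ℝ => (1 - x^2 + x^4/2 - x^6/6 + x^8/24 - x^10/120 + x^12/720 - x^14/5040
      + x^16/40320 - x^18/362880 + x^20/3628800)).intervalIntegrable _ _)]
  norm_num

lemma E_bounds : (1.493648 : ℝ) ≤ ∫ x in (-1 : ℝ)..1, Real.exp (-x^2) ∧
    ∫ x in (-1 : ℝ)..1, Real.exp (-x^2) ≤ 1.493649 := by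
  have hc : Continuous fun x : ℝ => Real.exp (-x^2) := by fun_prop
  have h1 : |(∫ x in (-1 : ℝ)..1, Real.exp (-x^2)) - 2 * (1 - 1/3 + 1/10 - 1/42 + 1/216 - 1/1320 + 1/9360
      - 1/75600 + 1/685440 - 1/6894720 + 1/76204800)| ≤ 6 / 10 ^ 8 := by
    rw [← integral_epoly]
    rw [← intervalIntegral.integral_sub (hc.intervalIntegrable _ _)
      ((by fun_prop : Continuous fun x : ℝ => (1 - x^2 + x^4/2 - x^6/6 + x^8/24 - x^10/120 + x^12/720 - x^14/5040
      + x^16/40320 - x^18/362880 + x^20/3628800)).intervalIntegrable _ _)]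
    have := intervalIntegral.norm_integral_le_of_norm_le_const (a := (-1 : ℝ)) (b := 1)
      (C := 3 / 10 ^ 8) (f := fun x => Real.exp (-x^2) - (1 - x^2 + x^4/2 - x^6/6 + x^8/24 - x^10/120
      + x^12/720 - x^14/5040 + x^16/40320 - x^18/362880 + x^20/3628800)) (fun x hx => by
        rw [uIoc_of_le (by norm_num)] at hx
        exact e_poly_bound ⟨hx.1.le, hx.2⟩)
    rw [Real.norm_eq_abs] at this
    refine this.trans ?_
    rw [show (1 : ℝ) - -1 = 2 by norm_num, abs_of_pos (by norm_num : (0 : ℝ) < 2)]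
    norm_num
  rw [abs_le] at h1
  constructor
  · have := h1.1
    norm_num at this ⊢
    linarith
  · have := h1.2
    norm_num at this ⊢
    linarith

lemma A2_formula : A2 = Real.pi / P^2 * ∫ x in (-1 : ℝ)..1, Real.exp (-x^2) := by
  have h1 := Helper58.GC.A2_eq
  have h2 : ∫ t, φ t^2 = 2 * ∫ t in Ioi (0:ℝ), φ t^2 := by
    rw [← integral_comp_abs (f := fun t : ℝ => φ t^2)]
    simp_rw [φ_abs]
  unfold A2
  rw [h1, mul_div_assoc, mul_assoc] at h2
  exact (mul_left_cancel₀ (by norm_num) h2).symm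

lemma A2_ge : 1.6024 ≤ A2 := by
  rw [A2_formula]
  have hE := E_bounds.1
  have hP := P_bounds.2
  have hP0 := P_pos
  have hpi := Real.pi_gt_d6
  rw [div_mul_eq_mul_div, le_div_iff₀ (by positivity)]
  have h1 : P^2 ≤ (171124879/10^8)^2 := pow_le_pow_left₀ hP0.le hP.le 2
  have h2 : 3.141592 * 1.493648 ≤ Real.pi * ∫ x in (-1 : ℝ)..1, Real.exp (-x^2) :=
    mul_le_mul hpi.le hE (by norm_num) Real.pi_pos.le
  have h3 : (1.6024:ℝ) * P^2 ≤ 1.6024*(171124879/10^8)^2 := mul_le_mul_of_nonneg_left h1 (by norm_num)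
  refine h3.trans (le_trans ?_ h2)
  norm_num

lemma A2_le : A2 ≤ 1.60241 := by
  rw [A2_formula]
  have hE := E_bounds.2
  have hP := P_bounds.1
  have hP0 := P_pos
  have hpi := Real.pi_lt_d6
  rw [div_mul_eq_mul_div, div_le_iff₀ (by positivity)]
  have h1 : (171124878/10^8)^2 ≤ P^2 := pow_le_pow_left₀ (by norm_num) hP.le 2
  have h2 : Real.pi * ∫ x in (-1 : ℝ)..1, Real.exp (-x^2) ≤ 3.141593 * 1.493649 :=
    mul_le_mul hpi.le hE (by have := E_bounds.1; linarith) (by norm_num)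
  have h3 : (1.60241:ℝ)*(171124878/10^8)^2 ≤ 1.60241 * P^2 := mul_le_mul_of_nonneg_left h1 (by norm_num)
  refine h2.trans (le_trans ?_ h3)
  norm_num

lemma sqrt2_bounds : (1.41421:ℝ) ≤ Real.sqrt 2 ∧ Real.sqrt 2 ≤ 1.41422 := by
  constructor
  · apply Real.le_sqrt_of_sq_le; norm_num
  · rw [Real.sqrt_le_left (by norm_num)]; norm_num

lemma I2_ge : 2.2661 ≤ Real.sqrt 2 * A2 := by
  have h1 := mul_le_mul sqrt2_bounds.1 A2_ge (by norm_num) (Real.sqrt_nonneg _)
  refine le_trans ?_ h1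
  norm_num

lemma I2_le : Real.sqrt 2 * A2 ≤ 2.2662 := by
  have h1 := mul_le_mul sqrt2_bounds.2 A2_le (by have := A2_ge; linarith) (by norm_num)
  refine h1.trans ?_
  norm_num

lemma integral_cusp_eq : ∫ t, φ (t / Real.sqrt 2)^2 = 2 * (Real.sqrt 2 * A2) := by
  have h1 := Measure.integral_comp_div (fun t => φ t^2) (Real.sqrt 2)
  rw [h1, abs_of_nonneg (Real.sqrt_nonneg _), smul_eq_mul]
  have h2 : ∫ t, φ t^2 = 2 * ∫ t in Ioi (0:ℝ), φ t^2 := by
    rw [← integral_comp_abs (f := fun t : ℝ => φ t^2)]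
    simp_rw [φ_abs]
  rw [h2]
  unfold A2
  ring

variable {n : ℕ} {θ : Fin n → ℝ} {i0 i1 : Fin n}

/-- (T1) at most five coordinates -/
theorem Dir.small (h : Dir θ i0 i1) (hn : n ≤ 5) :
    ∫ t, ∏ i, φ (θ i * t) ≤ ∫ t, φ (t / Real.sqrt 2)^2 := by
  rw [integral_even_prod, integral_cusp_eq]
  apply mul_le_mul_of_nonneg_left _ (by norm_num)
  rcases le_total ((θ i0)^2) (2/5) with hs | hs
  · exact (h.regD hn hs).trans I2_ge
  · exact h.regI A2_ge hs

theorem max_small {n : ℕ} (hn : n ≤ 5) (th : Fin n → ℝ) (hsum : ∑ i, th i ^ 2 = 1) (i0 i1 : Fin n)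
    (hne : i0 ≠ i1) (heq : th i1 = th i0) (hle : ∀ i, 0 ≤ th i ∧ th i ≤ th i0) :
    ∫ t, ∏ i, φ (th i * t) ≤ ∫ t, φ (t / √2) ^ 2 :=
  Dir.small ⟨hsum, hne, heq, fun i => (hle i).1, fun i => (hle i).2⟩ hn

end Helper64.CubeGauss
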