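import Pool.Agent.Helper64.CubeGauss.Taylor

/-! `x ↦ log φ(√x) + c₄ x²` is concave on `[0, z1²)`. -/

namespace Helper64.CubeGauss

open MeasureTheory intervalIntegral Set Filter Topology

noncomputable def Af (t : ℝ) : ℝ := t * Real.cos t + (t^2 - 1) * Real.sin t

/-- `φ` is antitone on `[0,z1]`. -/
lemma φ_antitone : AntitoneOn φ (Icc 0 z1) := by
  have hz1 := z1_gt
  have hz2 := z1_lt
  have hpi1 := Real.pi_gt_d2
  have hpi2 := Real.pi_lt_d2
  apply antitoneOn_of_deriv_nonpos (convex_Icc _ _) φ_cont.continuousOn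
  · exact φ_differentiable.differentiableOn
  · intro t ht
    rw [interior_Icc] at ht
    rw [(hasDerivAt_φ t).deriv]
    have hφ := φ_pos ht.1.le ht.2
    rcases le_or_gt t Real.pi with h | h
    · have h3 := barrier_low ht.1.le h
      have h4 : 0 ≤ ylow (t^2) := by
        have := s2_bounds.1
        have := c4_bounds.1
        unfold ylow c6
        norm_num at *
        positivity
      have : t * φ t * (1 - ylow (t^2)) ≤ t * φ t * 1 := by
        apply mul_le_mul_of_nonneg_left (by linarith)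
        exact mul_nonneg ht.1.le hφ.le
      linarith
    · have hsin : Real.sin t ≤ 0 := by
        have : Real.sin t = - Real.sin (t - Real.pi) := by rw [Real.sin_sub_pi]; ring
        rw [this]
        have := Real.sin_nonneg_of_nonneg_of_le_pi (x := t - Real.pi) (by linarith) (by linarith [ht.2])
        linarith
      have := mul_nonpos_of_nonneg_of_nonpos c_pos.le hsin
      have := mul_nonneg ht.1.le hφ.le
      linarith

lemma Af_antitone : AntitoneOn Af (Icc (5/2) (7/2)) := by
  have hpi1 := Real.pi_gt_d2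
  have hpi2 := Real.pi_lt_d2
  have hder : ∀ t, HasDerivAt Af (t * (Real.sin t + t * Real.cos t)) t := by
    intro t
    have h2 : HasDerivAt (fun t : ℝ => t^2 - 1) (2*t) t := by
      simpa using (hasDerivAt_pow 2 t).sub_const 1
    exact (((hasDerivAt_id t).mul (Real.hasDerivAt_cos t)).add (h2.mul (Real.hasDerivAt_sin t))).congr_deriv
      (by simp; ring)
  apply antitoneOn_of_deriv_nonpos (convex_Icc _ _)
  · exact fun t _ => (hder t).continuousAt.continuousWithinAt
  · exact fun t _ => (hder t).differentiableAt.differentiableWithinAt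
  · intro t ht
    rw [interior_Icc] at ht
    rw [(hder t).deriv]
    have ht0 : 0 < t := by linarith [ht.1]
    -- cos t ≤ -1/2
    have hc : Real.cos t ≤ -1/2 := by
      have h1 : Real.cos t = -Real.cos (t - Real.pi) := by rw [Real.cos_sub_pi]; ring
      have h2 : 1 - (t - Real.pi)^2/2 ≤ Real.cos (t - Real.pi) := Real.one_sub_sq_div_two_le_cos
      have h3 : (t - Real.pi)^2 ≤ 1 := by
        have : t - Real.pi ≤ 1 := by linarith [ht.2]
        have : -1 ≤ t - Real.pi := by linarith [ht.1]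
        nlinarith
      rw [h1]; linarith
    have hs : Real.sin t ≤ 1 := Real.sin_le_one t
    have : Real.sin t + t * Real.cos t ≤ 0 := by nlinarith [ht.1]
    exact mul_nonpos_of_nonneg_of_nonpos ht0.le this

lemma Sn10 (u : ℝ) : Sn 10 u = u - u^3/6 + u^5/120 - u^7/5040 + u^9/362880 - u^11/39916800
    + u^13/6227020800 - u^15/1307674368000 + u^17/355687428096000 - u^19/121645100408832000 := by
  unfold Sn
  simp only [Finset.sum_range_succ, Finset.sum_range_zero, Nat.factorial]
  norm_num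
  ring

lemma Sn9 (u : ℝ) : Sn 9 u = u - u^3/6 + u^5/120 - u^7/5040 + u^9/362880 - u^11/39916800
    + u^13/6227020800 - u^15/1307674368000 + u^17/355687428096000 := by
  unfold Sn
  simp only [Finset.sum_range_succ, Finset.sum_range_zero, Nat.factorial]
  norm_num
  ring

lemma Cn9 (u : ℝ) : Cn 9 u = 1 - u^2/2 + u^4/24 - u^6/720 + u^8/40320 - u^10/3628800
    + u^12/479001600 - u^14/87178291200 + u^16/20922789888000 := by
  unfold Cn
  simp only [Finset.sum_range_succ, Finset.sum_range_zero, Nat.factorial]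
  norm_num
  ring

lemma Sn4 (u : ℝ) : Sn 4 u = u - u^3/6 + u^5/120 - u^7/5040 := by
  unfold Sn
  simp only [Finset.sum_range_succ, Finset.sum_range_zero, Nat.factorial]
  norm_num
  ring

lemma Af_25 : Af 2.5 ≤ 1.1395 := by
  have h1 := cos_le_Cn (n := 8) (by decide) 2.5
  have h2 := sin_le_Sn (n := 8) (by decide) (u := 2.5) (by norm_num)
  norm_num only at h1 h2
  rw [Cn9] at h1
  rw [Sn9] at h2
  unfold Af
  norm_num at *
  linarith

lemma Af_26 : Af 2.6 ≤ 0.742 := by
  have h1 := cos_le_Cn (n := 8) (by decide) 2.6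
  have h2 := sin_le_Sn (n := 8) (by decide) (u := 2.6) (by norm_num)
  norm_num only at h1 h2
  rw [Cn9] at h1
  rw [Sn9] at h2
  unfold Af
  norm_num at *
  linarith

lemma Af_27 : Af 2.7 ≤ 0.249 := by
  have h1 := cos_le_Cn (n := 8) (by decide) 2.7
  have h2 := sin_le_Sn (n := 8) (by decide) (u := 2.7) (by norm_num)
  norm_num only at h1 h2
  rw [Cn9] at h1
  rw [Sn9] at h2
  unfold Af
  norm_num at *
  linarith

lemma Af_28 : Af 2.8 ≤ -0.345 := by
  have h1 := cos_le_Cn (n := 8) (by decide) 2.8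
  have h2 := sin_le_Sn (n := 8) (by decide) (u := 2.8) (by norm_num)
  norm_num only at h1 h2
  rw [Cn9] at h1
  rw [Sn9] at h2
  unfold Af
  norm_num at *
  linarith

lemma Af_3 : Af 3 ≤ -1.84 := by
  have h1 := cos_le_Cn (n := 8) (by decide) 3
  have h2 := sin_le_Sn (n := 8) (by decide) (u := 3) (by norm_num)
  norm_num only at h1 h2
  rw [Cn9] at h1
  rw [Sn9] at h2
  unfold Af
  norm_num at *
  linarith

lemma sin_ge_of_mem {a b t : ℝ} (ha : Real.pi/2 ≤ a) (hb : b ≤ Real.pi) (h1 : a ≤ t) (h2 : t ≤ b) :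
    Real.sin b ≤ Real.sin t := by
  have h3 : Real.sin b = Real.sin (Real.pi - b) := (Real.sin_pi_sub b).symm
  have h4 : Real.sin t = Real.sin (Real.pi - t) := (Real.sin_pi_sub t).symm
  rw [h3, h4]
  apply Real.sin_le_sin_of_le_of_le_pi_div_two <;> linarith [Real.pi_pos]

lemma sin_26 : 0.5155 ≤ Real.sin 2.6 := by
  have h2 := Sn_le_sin (n := 9) (by decide) (u := 2.6) (by norm_num)
  norm_num only at h2
  rw [Sn10] at h2
  norm_num at *
  linarith

lemma sin_27 : 0.4273 ≤ Real.sin 2.7 := by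
  have h2 := Sn_le_sin (n := 9) (by decide) (u := 2.7) (by norm_num)
  norm_num only at h2
  rw [Sn10] at h2
  norm_num at *
  linarith

lemma sin_28 : 0.3349 ≤ Real.sin 2.8 := by
  have h2 := Sn_le_sin (n := 9) (by decide) (u := 2.8) (by norm_num)
  norm_num only at h2
  rw [Sn10] at h2
  norm_num at *
  linarith

lemma φ_25 : φ 2.5 ≤ 0.3303 := by
  refine (φ_upper9 2.5).trans ?_
  obtain ⟨h1, h2⟩ := c_bounds
  norm_num at *
  linarith

lemma φ_26 : φ 2.6 ≤ 0.2919 := by
  refine (φ_upper9 2.6).trans ?_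
  obtain ⟨h1, h2⟩ := c_bounds
  norm_num at *
  linarith

lemma φ_27 : φ 2.7 ≤ 0.2541 := by
  refine (φ_upper9 2.7).trans ?_
  obtain ⟨h1, h2⟩ := c_bounds
  norm_num at *
  linarith

lemma φ_28 : φ 2.8 ≤ 0.2166 := by
  refine (φ_upper9 2.8).trans ?_
  obtain ⟨h1, h2⟩ := c_bounds
  norm_num at *
  linarith

lemma φ_3 : φ 3 ≤ 0.1431 := by
  refine (φ_upper9 3).trans ?_
  obtain ⟨h1, h2⟩ := c_bounds
  norm_num at *
  linarith

end Helper64.CubeGauss
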