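import Mathlib

/-!
# The truncated Gaussian on `[-1,1]` and its characteristic function

`P = ∫_{-1}^1 e^{-x²/2} dx`, `φ t = P⁻¹ ∫_{-1}^1 cos (t x) e^{-x²/2} dx`, `c = 2 e^{-1/2} / P`.
The basic tool is the first order equation `φ' = c sin t - t φ`.
-/

namespace Helper64.CubeGauss

open MeasureTheory intervalIntegral Set

/-- the weight `e^{-x²/2}` -/
noncomputable def g (x : ℝ) : ℝ := Real.exp (-x ^ 2 / 2)

/-- `P = ∫_{-1}^1 e^{-x²/2} dx`. -/
noncomputable def P : ℝ := ∫ x in (-1 : ℝ)..1, g x

/-- The characteristic function of the standard Gaussian conditioned to `[-1,1]`. -/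
noncomputable def φ (t : ℝ) : ℝ := (∫ x in (-1 : ℝ)..1, Real.cos (t * x) * g x) / P

/-- `c = 2 e^{-1/2} / P`; the conditioned variance is `1 - c`. -/
noncomputable def c : ℝ := 2 * Real.exp (-1 / 2) / P

lemma g_cont : Continuous g := by unfold g; fun_prop

lemma g_pos (x : ℝ) : 0 < g x := Real.exp_pos _

lemma g_le_one (x : ℝ) : g x ≤ 1 := by
  unfold g
  rw [Real.exp_le_one_iff]
  nlinarith [sq_nonneg x]

lemma g_hasDeriv (x : ℝ) : HasDerivAt g (-x * g x) x := by
  unfold g
  have h : HasDerivAt (fun x : ℝ => -x ^ 2 / 2) (-x) x :=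
    (((hasDerivAt_pow 2 x).neg).div_const 2).congr_deriv (by norm_num; ring)
  exact h.exp.congr_deriv (by ring)

lemma P_pos : 0 < P := by
  unfold P
  apply intervalIntegral.intervalIntegral_pos_of_pos_on
  · exact g_cont.intervalIntegrable _ _
  · intro x _
    exact g_pos x
  · norm_num

lemma c_pos : 0 < c := by
  unfold c
  have := P_pos
  positivity

lemma φ_zero : φ 0 = 1 := by
  unfold φ
  simp only [zero_mul, Real.cos_zero, one_mul]
  exact div_self P_pos.ne'

lemma φ_neg (t : ℝ) : φ (-t) = φ t := by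
  unfold φ
  congr 1
  apply intervalIntegral.integral_congr
  intro x _
  simp only [neg_mul, Real.cos_neg]

/-- The derivative of `φ`. -/
noncomputable def φ' (t : ℝ) : ℝ := -(∫ x in (-1 : ℝ)..1, x * Real.sin (t * x) * g x) / P

lemma hasDerivAt_φ_aux (t : ℝ) : HasDerivAt φ (φ' t) t := by
  unfold φ φ'
  apply HasDerivAt.div_const
  have key := intervalIntegral.hasDerivAt_integral_of_dominated_loc_of_deriv_le
    (μ := volume) (F := fun s x => Real.cos (s * x) * g x)
    (F' := fun s x => -(x * Real.sin (s * x) * g x)) (x₀ := t) (a := -1) (b := 1)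
    (s := univ) (bound := fun _ => (1 : ℝ)) Filter.univ_mem ?_ ?_ ?_ ?_ ?_ ?_
  · have h2 := key.2
    rw [intervalIntegral.integral_neg] at h2
    exact h2
  · filter_upwards with s
    exact (by have := g_cont; fun_prop : Continuous fun x => Real.cos (s * x) * g x).aestronglyMeasurable
  · exact (by have := g_cont; fun_prop : Continuous fun x => Real.cos (t * x) * g x).intervalIntegrable _ _
  · exact (by have := g_cont; fun_prop : Continuous fun x => -(x * Real.sin (t * x) * g x)).aestronglyMeasurable
  · filter_upwards with x hx s _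
    rw [uIoc_of_le (by norm_num)] at hx
    rw [norm_neg, norm_mul, norm_mul, Real.norm_eq_abs, Real.norm_eq_abs, Real.norm_eq_abs]
    have h1 : |x| ≤ 1 := abs_le.mpr ⟨hx.1.le, hx.2⟩
    have h2 : |Real.sin (s * x)| ≤ 1 := Real.abs_sin_le_one _
    have h3 : |g x| ≤ 1 := by rw [abs_of_pos (g_pos x)]; exact g_le_one x
    have h4 : |x| * |Real.sin (s * x)| ≤ 1 := by
      calc |x| * |Real.sin (s * x)| ≤ 1 * 1 := mul_le_mul h1 h2 (abs_nonneg _) zero_le_one
        _ = 1 := one_mul 1
    calc |x| * |Real.sin (s * x)| * |g x| ≤ 1 * 1 := mul_le_mul h4 h3 (abs_nonneg _) zero_le_one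
      _ = 1 := one_mul 1
  · exact (continuous_const).intervalIntegrable _ _
  · filter_upwards with x _ s _
    have h1 : HasDerivAt (fun s : ℝ => s * x) x s := by simpa using (hasDerivAt_id s).mul_const x
    exact ((h1.cos).mul_const (g x)).congr_deriv (by ring)

/-- **The ODE**: `φ' = c sin t - t φ`. -/
lemma φ'_eq (t : ℝ) : φ' t = c * Real.sin t - t * φ t := by
  have hparts : ∫ x in (-1 : ℝ)..1, (x * Real.sin (t * x) * g x - t * (Real.cos (t * x) * g x))
      = -(Real.sin (t * 1) * g 1) - -(Real.sin (t * (-1)) * g (-1)) := by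
    apply intervalIntegral.integral_eq_sub_of_hasDerivAt (f := fun x => -(Real.sin (t * x) * g x))
    · intro x _
      have h1 : HasDerivAt (fun x : ℝ => t * x) t x := by simpa using (hasDerivAt_id x).const_mul t
      have h2 : HasDerivAt (fun x => -(Real.sin (t * x) * g x))
        (-(Real.cos (t * x) * t * g x + Real.sin (t * x) * (-x * g x))) x :=
        (h1.sin.mul (g_hasDeriv x)).neg
      exact h2.congr_deriv (by ring)
    · exact (by have := g_cont; fun_prop : Continuous fun x =>
        (x * Real.sin (t * x) * g x - t * (Real.cos (t * x) * g x))).intervalIntegrable _ _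
  rw [intervalIntegral.integral_sub
    ((by have := g_cont; fun_prop : Continuous fun x => x * Real.sin (t * x) * g x).intervalIntegrable _ _)
    ((by have := g_cont; fun_prop : Continuous fun x => t * (Real.cos (t * x) * g x)).intervalIntegrable _ _),
    intervalIntegral.integral_const_mul] at hparts
  have hg1 : g 1 = Real.exp (-1 / 2) := by unfold g; norm_num
  have hg2 : g (-1) = Real.exp (-1 / 2) := by unfold g; norm_num
  rw [hg1, hg2, mul_neg_one, mul_one, Real.sin_neg] at hparts
  have hP := P_pos.ne'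
  unfold φ' c φ
  have e : ∫ x in (-1 : ℝ)..1, x * Real.sin (t * x) * g x
      = t * (∫ x in (-1 : ℝ)..1, Real.cos (t * x) * g x) - 2 * Real.exp (-1 / 2) * Real.sin t := by
    linarith
  rw [e]
  field_simp
  ring

lemma hasDerivAt_φ (t : ℝ) : HasDerivAt φ (c * Real.sin t - t * φ t) t := by
  rw [← φ'_eq]; exact hasDerivAt_φ_aux t

lemma φ_cont : Continuous φ := continuous_iff_continuousAt.mpr fun t => (hasDerivAt_φ t).continuousAt

lemma φ_differentiable : Differentiable ℝ φ := fun t => (hasDerivAt_φ t).differentiableAt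

end Helper64.CubeGauss
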