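import Pool.Agent.Helper64.CubeGauss.HighC
import Pool.Agent.Helper64.CubeGauss.NumTools

/-! Integer evaluation of the Taylor bounds of `φ` at `j/500`. -/

namespace Helper64.CubeGauss

open MeasureTheory Set

def pLn (j : ℕ) : ℕ × ℕ :=
  let y := j^2
  (1000000000000*(250000^7*87178291200) + 164500379091*y^2*(250000^5*3632428800)
    + 86514026373*y^4*(250000^3*2162160) + 58389748239*y^6*(250000*182),
   291125094773*y*(250000^6*43589145600) + 113626990229*y^3*(250000^4*121080960)
    + 69751332134*y^5*(250000^2*24024) + 50191821889*y^7)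

/-- lower bound for `10^12 φ(j/500)` -/
def pL (j : ℕ) : ℕ := ((pLn j).1 - (pLn j).2)/(250000^7*87178291200)

def pUn (j : ℕ) : ℕ × ℕ :=
  let y := j^2
  (1000000000000*(250000^8*20922789888000) + 164500379092*y^2*(250000^6*871782912000)
    + 86514026374*y^4*(250000^4*518918400) + 58389748240*y^6*(250000^2*43680) + 44002423097*y^8,
   291125094772*y*(250000^7*10461394944000) + 113626990228*y^3*(250000^5*29059430400)
    + 69751332133*y^5*(250000^3*5765760) + 50191821888*y^7*(250000*240))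

/-- upper bound for `10^12 φ(j/500)` -/
def pU (j : ℕ) : ℕ := ((pUn j).1 - (pUn j).2)/(250000^8*20922789888000) + 1

lemma c_high' : (708874905227206788808987:ℝ)/10^24 ≤ c ∧ c ≤ (708874905227206788808990:ℝ)/10^24 := by
  have h := c_high
  unfold cN0 cN1 at h
  push_cast at h
  exact h

lemma pL_le {j : ℕ} (h : 0 ≤ φ ((j:ℝ)/500)) : (pL j : ℝ)/10^12 ≤ φ ((j:ℝ)/500) := by
  rcases Nat.le_total (pLn j).1 (pLn j).2 with hc | hc
  · have : pL j = 0 := by
      unfold pL
      rw [Nat.sub_eq_zero_of_le hc, Nat.zero_div]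
    rw [this, Nat.cast_zero, zero_div]
    exact h
  have h1 : pL j * (250000^7*87178291200) ≤ (pLn j).1 - (pLn j).2 := Nat.div_mul_le_self _ _
  have h2 := (Nat.cast_le (α := ℝ)).2 h1
  rw [Nat.cast_sub hc] at h2
  unfold pLn at h2
  push_cast at h2
  have h3 := φ_lower8 ((j:ℝ)/500)
  obtain ⟨c1, c2⟩ := c_high'
  refine le_trans ?_ h3
  have hy : (0:ℝ) ≤ (j:ℝ) := Nat.cast_nonneg j
  generalize (j:ℝ) = y at *
  generalize (pL j : ℝ) = p at *
  have e1 : (1-c)*(y/500)^2/2 ≤ 291125094773/10^12*(y/500)^2/2 := by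
    have : 1 - c ≤ 291125094773/10^12 := by norm_num at c1 c2 ⊢; linarith
    gcongr
  have e2 : 164500379091/10^12*(y/500)^4/24 ≤ (3-4*c)*(y/500)^4/24 := by
    have : 164500379091/10^12 ≤ 3-4*c := by norm_num at c1 c2 ⊢; linarith
    gcongr
  have e3 : (15-21*c)*(y/500)^6/720 ≤ 113626990229/10^12*(y/500)^6/720 := by
    have : 15-21*c ≤ 113626990229/10^12 := by norm_num at c1 c2 ⊢; linarith
    gcongr
  have e4 : 86514026373/10^12*(y/500)^8/40320 ≤ (105-148*c)*(y/500)^8/40320 := by
    have : 86514026373/10^12 ≤ 105-148*c := by norm_num at c1 c2 ⊢; linarith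
    gcongr
  have e5 : (945-1333*c)*(y/500)^10/3628800 ≤ 69751332134/10^12*(y/500)^10/3628800 := by
    have : 945-1333*c ≤ 69751332134/10^12 := by norm_num at c1 c2 ⊢; linarith
    gcongr
  have e6 : 58389748239/10^12*(y/500)^12/479001600 ≤ (10395-14664*c)*(y/500)^12/479001600 := by
    have : 58389748239/10^12 ≤ 10395-14664*c := by norm_num at c1 c2 ⊢; linarith
    gcongr
  have e7 : (135135-190633*c)*(y/500)^14/87178291200 ≤ 50191821889/10^12*(y/500)^14/87178291200 := by
    have : 135135-190633*c ≤ 50191821889/10^12 := by norm_num at c1 c2 ⊢; linarith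
    gcongr
  have key : p/10^12 ≤ 1 - 291125094773/10^12*(y/500)^2/2 + 164500379091/10^12*(y/500)^4/24
      - 113626990229/10^12*(y/500)^6/720 + 86514026373/10^12*(y/500)^8/40320
      - 69751332134/10^12*(y/500)^10/3628800 + 58389748239/10^12*(y/500)^12/479001600
      - 50191821889/10^12*(y/500)^14/87178291200 := by
    rw [div_le_iff₀ (by norm_num)]
    have hD : (0:ℝ) < 250000^7*87178291200 := by norm_num
    rw [← mul_le_mul_iff_left₀ hD]
    linarith only [h2]
  linarith

lemma pU_ge (j : ℕ) : φ ((j:ℝ)/500) ≤ (pU j : ℝ)/10^12 := by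
  have h1 : (pUn j).1 - (pUn j).2 < pU j * (250000^8*20922789888000) := by
    unfold pU
    exact Nat.lt_mul_of_div_lt (Nat.lt_succ_self _) (by norm_num)
  have h1' : (pUn j).1 ≤ pU j * (250000^8*20922789888000) + (pUn j).2 := by omega
  have h2 := (Nat.cast_le (α := ℝ)).2 h1'
  unfold pUn at h2
  push_cast at h2
  have h3 := φ_upper9 ((j:ℝ)/500)
  obtain ⟨c1, c2⟩ := c_high'
  refine h3.trans ?_
  have hy : (0:ℝ) ≤ (j:ℝ) := Nat.cast_nonneg j
  generalize (j:ℝ) = y at *
  generalize (pU j : ℝ) = p at *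
  have e1 : 291125094772/10^12*(y/500)^2/2 ≤ (1-c)*(y/500)^2/2 := by
    have : 291125094772/10^12 ≤ 1 - c := by norm_num at c1 c2 ⊢; linarith
    gcongr
  have e2 : (3-4*c)*(y/500)^4/24 ≤ 164500379092/10^12*(y/500)^4/24 := by
    have : 3-4*c ≤ 164500379092/10^12 := by norm_num at c1 c2 ⊢; linarith
    gcongr
  have e3 : 113626990228/10^12*(y/500)^6/720 ≤ (15-21*c)*(y/500)^6/720 := by
    have : 113626990228/10^12 ≤ 15-21*c := by norm_num at c1 c2 ⊢; linarith
    gcongr
  have e4 : (105-148*c)*(y/500)^8/40320 ≤ 86514026374/10^12*(y/500)^8/40320 := by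
    have : 105-148*c ≤ 86514026374/10^12 := by norm_num at c1 c2 ⊢; linarith
    gcongr
  have e5 : 69751332133/10^12*(y/500)^10/3628800 ≤ (945-1333*c)*(y/500)^10/3628800 := by
    have : 69751332133/10^12 ≤ 945-1333*c := by norm_num at c1 c2 ⊢; linarith
    gcongr
  have e6 : (10395-14664*c)*(y/500)^12/479001600 ≤ 58389748240/10^12*(y/500)^12/479001600 := by
    have : 10395-14664*c ≤ 58389748240/10^12 := by norm_num at c1 c2 ⊢; linarith
    gcongr
  have e7 : 50191821888/10^12*(y/500)^14/87178291200 ≤ (135135-190633*c)*(y/500)^14/87178291200 := by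
    have : 50191821888/10^12 ≤ 135135-190633*c := by norm_num at c1 c2 ⊢; linarith
    gcongr
  have e8 : (2027025-2859496*c)*(y/500)^16/20922789888000 ≤ 44002423097/10^12*(y/500)^16/20922789888000 := by
    have : 2027025-2859496*c ≤ 44002423097/10^12 := by norm_num at c1 c2 ⊢; linarith
    gcongr
  have key : 1 - 291125094772/10^12*(y/500)^2/2 + 164500379092/10^12*(y/500)^4/24
      - 113626990228/10^12*(y/500)^6/720 + 86514026374/10^12*(y/500)^8/40320
      - 69751332133/10^12*(y/500)^10/3628800 + 58389748240/10^12*(y/500)^12/479001600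
      - 50191821888/10^12*(y/500)^14/87178291200 + 44002423097/10^12*(y/500)^16/20922789888000 ≤ p/10^12 := by
    rw [le_div_iff₀ (by norm_num)]
    have hD : (0:ℝ) < 250000^8*20922789888000 := by norm_num
    rw [← mul_le_mul_iff_left₀ hD]
    linarith only [h2]
  linarith

def T0 (j : ℕ) : ℕ := (pL (j+1))^6
def T4 (j : ℕ) : ℕ := j^4*(pL (j+1))^6
def T8 (j : ℕ) : ℕ := (j+1)^8*(pU j)^6

set_option maxRecDepth 1000000 in
lemma T0_sum : 926076*500*10^66 ≤ nsum T0 0 1747 := by decide +kernel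

set_option maxRecDepth 1000000 in
lemma T4_sum : 71317*500^5*10^67 ≤ nsum T4 0 1747 := by decide +kernel

set_option maxRecDepth 1000000 in
lemma T8_sum : nsum T8 0 1748 ≤ 51861*500^9*10^68 := by decide +kernel

end Helper64.CubeGauss
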