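import Pool.Agent.Helper64.CubeGauss.Quartic
import Pool.Agent.Helper64.CubeGauss.Poly
import Pool.Agent.Helper64.CubeGauss.Setup

/-! The diagonal, the inequality `F₂ < F₆`, Jensen. -/

namespace Helper64.CubeGauss

open MeasureTheory Set

attribute [local irreducible] pL pU

lemma int_low_gen (e : ℕ) : (nsum (fun k => k^e*(pL (k+1))^6) 0 1747 : ℝ)/(500^(e+1)*10^72)
    ≤ ∫ u in (0:ℝ)..z1, u^e*φ u^6 := by
  have hz := z1_gt
  have hc : Continuous fun u : ℝ => u^e*φ u^6 := (by fun_prop : Continuous fun u : ℝ => u^e).mul (φ_cont.pow 6)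
  have key := sum_le_integral hc (fun k => (k:ℝ)/500) (fun k => by push_cast; linarith)
    (fun k => ((k:ℝ)/500)^e*((pL (k+1) : ℝ)/10^12)^6) (fun _ => 1/500) 0 1747 (by norm_num)
    (fun k _ _ => by positivity) (fun k _ _ => by push_cast; linarith) ?_
  · have e1 : (((1747:ℕ):ℝ)/500) = 3.494 := by norm_num
    rw [e1, Nat.cast_zero, zero_div] at key
    have h2 : ∫ u in (0:ℝ)..z1, u^e*φ u^6 = (∫ u in (0:ℝ)..3.494, u^e*φ u^6) + ∫ u in (3.494:ℝ)..z1, u^e*φ u^6 :=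
      (intervalIntegral.integral_add_adjacent_intervals (hc.intervalIntegrable _ _) (hc.intervalIntegrable _ _)).symm
    have h3 : 0 ≤ ∫ u in (3.494:ℝ)..z1, u^e*φ u^6 := by
      apply intervalIntegral.integral_nonneg hz.le
      intro u hu
      have : 0 ≤ u := by linarith [hu.1]
      have h6 : 0 ≤ φ u^6 := Even.pow_nonneg (by decide) _
      positivity
    rw [h2]
    refine le_trans (le_trans (le_of_eq ?_) key) (by linarith)
    rw [nsum_eq, zero_add, Nat.cast_sum, Finset.sum_div]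
    apply Finset.sum_congr rfl
    intro i _
    push_cast
    rw [div_pow, div_pow, pow_succ]
    field_simp
    ring
  · intro k _ hk x hx1 hx2
    have hk' : ((k+1:ℕ):ℝ)/500 ≤ 3.494 := by
      have : ((k+1:ℕ):ℝ) ≤ 1747 := by exact_mod_cast (by omega : k + 1 ≤ 1747)
      rw [div_le_iff₀ (by norm_num)]; linarith
    have hx0 : 0 ≤ x := le_trans (by positivity) hx1.le
    have h0 : 0 ≤ φ (((k+1:ℕ):ℝ)/500) := (φ_pos (by positivity) (by linarith)).le
    have h1 := pL_le h0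
    have h2 : φ (((k+1:ℕ):ℝ)/500) ≤ φ x := φ_antitone ⟨hx0, by linarith⟩ ⟨by positivity, by linarith⟩ hx2.le
    exact mul_le_mul (pow_le_pow_left₀ (by positivity) hx1.le e)
      (pow_le_pow_left₀ (by positivity) (h1.trans h2) 6) (by positivity) (by positivity)

lemma int0 : (0.926076:ℝ) ≤ ∫ u in (0:ℝ)..z1, φ u^6 := by
  have h := int_low_gen 0
  have e : (fun k => k^0*(pL (k+1))^6) = T0 := by
    funext k; unfold T0; rw [pow_zero, one_mul]
  rw [e] at h
  simp only [pow_zero, one_mul] at h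
  refine le_trans ?_ h
  have h2 := (Nat.cast_le (α := ℝ)).2 T0_sum
  push_cast at h2
  generalize (nsum T0 0 1747 : ℝ) = x at *
  rw [le_div_iff₀ (by norm_num)]
  linarith

lemma int4 : (0.71317:ℝ) ≤ ∫ u in (0:ℝ)..z1, u^4*φ u^6 := by
  have h := int_low_gen 4
  have e : (fun k => k^4*(pL (k+1))^6) = T4 := rfl
  rw [e] at h
  refine le_trans ?_ h
  have h2 := (Nat.cast_le (α := ℝ)).2 T4_sum
  push_cast at h2
  generalize (nsum T4 0 1747 : ℝ) = x at *
  rw [le_div_iff₀ (by norm_num)]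
  linarith

lemma int8 : ∫ u in (0:ℝ)..z1, u^8*φ u^6 ≤ 5.1861 := by
  have hz := z1_gt
  have hz2 := z1_lt
  have hc : Continuous fun u : ℝ => u^8*φ u^6 := (by fun_prop : Continuous fun u : ℝ => u^8).mul (φ_cont.pow 6)
  have key := integral_le_sum hc (fun k => min ((k:ℝ)/500) z1) (fun k => min_le_min_right _ (by push_cast; linarith))
    (fun k => (((k:ℝ)+1)/500)^8*((pU k : ℝ)/10^12)^6) (fun _ => 1/500) 0 1748 (by norm_num)
    (fun k _ _ => by positivity) ?_ ?_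
  · have e0 : min (((0:ℕ):ℝ)/500) z1 = 0 := by
      rw [Nat.cast_zero, zero_div, min_eq_left (by linarith)]
    have e1 : min (((1748:ℕ):ℝ)/500) z1 = z1 := by
      rw [min_eq_right]
      refine hz2.le.trans ?_
      norm_num
    rw [e0, e1] at key
    refine key.trans ?_
    have h2 := (Nat.cast_le (α := ℝ)).2 T8_sum
    push_cast at h2
    have e2 : ∑ k ∈ Finset.Ico (0:ℕ) 1748, (1:ℝ)/500*((((k:ℝ)+1)/500)^8*((pU k : ℝ)/10^12)^6)
        = (nsum T8 0 1748 : ℝ)/(500^9*10^72) := by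
      rw [nsum_eq, zero_add, Nat.cast_sum, Finset.sum_div]
      apply Finset.sum_congr rfl
      intro i _
      unfold T8
      push_cast
      ring
    rw [e2]
    generalize (nsum T8 0 1748 : ℝ) = x at *
    rw [div_le_iff₀ (by norm_num)]
    linarith
  · intro k _ _
    rcases le_total (((k+1:ℕ):ℝ)/500) z1 with h | h
    · rw [min_eq_left h, min_eq_left (le_trans (by push_cast; linarith) h)]
      push_cast; linarith
    · rw [min_eq_right h]
      rcases le_total ((k:ℝ)/500) z1 with h2 | h2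
      · rw [min_eq_left h2]
        push_cast at h
        linarith
      · rw [min_eq_right h2]; norm_num
  · intro k _ hk x hx1 hx2
    have hxz : x < z1 := lt_of_lt_of_le hx2 (min_le_right _ _)
    have hxk : x < ((k+1:ℕ):ℝ)/500 := lt_of_lt_of_le hx2 (min_le_left _ _)
    have hk50 : (k:ℝ)/500 ≤ z1 := by
      have : (k:ℝ) ≤ 1747 := by exact_mod_cast (by omega : k ≤ 1747)
      linarith
    rw [min_eq_left hk50] at hx1
    have hx0 : 0 ≤ x := le_trans (by positivity) hx1.le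
    have hφ0 := (φ_pos hx0 hxz).le
    have hφ1 : φ x ≤ (pU k : ℝ)/10^12 :=
      le_trans (φ_antitone ⟨by positivity, hk50⟩ ⟨hx0, hxz.le⟩ hx1.le) (pU_ge k)
    have hx3 : x ≤ ((k:ℝ)+1)/500 := by
      push_cast at hxk; exact hxk.le
    exact mul_le_mul (pow_le_pow_left₀ hx0 hx3 8) (pow_le_pow_left₀ hφ0 hφ1 6) (by positivity) (by positivity)

lemma sqrt6_bounds : (2.449489:ℝ) ≤ Real.sqrt 6 ∧ Real.sqrt 6 ≤ 2.44949 := by
  constructor
  · apply Real.le_sqrt_of_sq_le; norm_num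
  · rw [Real.sqrt_le_left (by norm_num)]; norm_num

/-- concavity at one point -/
lemma log_star {y l : ℝ} (hy0 : 0 ≤ y) (hy : y < z1^2) (h0 : 0 ≤ l) (h1 : l ≤ 1) :
    l * Real.log (φ (Real.sqrt y)) ≤ Real.log (φ (Real.sqrt (l*y))) := by
  have hz := z1_gt
  have hc := Gq_concave.2 (x := y) ⟨hy0, hy⟩ (y := 0) ⟨le_rfl, by positivity⟩ h0
    (by linarith : 0 ≤ 1 - l) (by ring)
  simp only [smul_eq_mul, mul_zero, add_zero] at hc
  unfold Gq at hc
  rw [Real.sqrt_zero, φ_zero, Real.log_one] at hc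
  have h4 := c4_pos
  have : 0 ≤ c4*(l*(1-l)*y^2) := by
    apply mul_nonneg h4.le
    apply mul_nonneg (mul_nonneg h0 (by linarith)) (sq_nonneg _)
  nlinarith

lemma diag_ge {n : ℕ} (hn : 6 ≤ n) {t : ℝ} (h0 : 0 ≤ t) (h1 : t < z1*Real.sqrt 6) :
    φ (t/Real.sqrt 6)^6 ≤ φ (t/Real.sqrt n)^n := by
  have hn' : (6:ℝ) ≤ n := by exact_mod_cast hn
  have h6 : (0:ℝ) < Real.sqrt 6 := Real.sqrt_pos.2 (by norm_num)
  have hz := z1_gt
  have hlt : t/Real.sqrt 6 < z1 := by rw [div_lt_iff₀ h6]; exact h1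
  have ht0 : 0 ≤ t/Real.sqrt 6 := div_nonneg h0 h6.le
  have hp6 := φ_pos ht0 hlt
  have hsn : (0:ℝ) < Real.sqrt n := Real.sqrt_pos.2 (by linarith)
  have hle : t/Real.sqrt n ≤ t/Real.sqrt 6 :=
    div_le_div_of_nonneg_left h0 h6 (Real.sqrt_le_sqrt hn')
  have hpn := φ_pos (div_nonneg h0 hsn.le) (lt_of_le_of_lt hle hlt)
  have hs := log_star (y := (t/Real.sqrt 6)^2) (l := 6/n) (sq_nonneg _) (pow_lt_pow_left₀ hlt ht0 (by norm_num))
    (by positivity) (by rw [div_le_one (by linarith)]; exact hn')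
  have e1 : Real.sqrt (6/(n:ℝ)*(t/Real.sqrt 6)^2) = t/Real.sqrt n := by
    rw [div_pow, Real.sq_sqrt (by norm_num), show 6/(n:ℝ)*(t^2/6) = t^2/n by field_simp,
      Real.sqrt_div (sq_nonneg _), Real.sqrt_sq h0]
  rw [Real.sqrt_sq ht0, e1] at hs
  rw [← Real.log_le_log_iff (by positivity) (by positivity), Real.log_pow, Real.log_pow]
  have h2 := mul_le_mul_of_nonneg_left hs (by linarith : (0:ℝ) ≤ n)
  have e2 : (n:ℝ)*(6/n*Real.log (φ (t/Real.sqrt 6))) = 6*Real.log (φ (t/Real.sqrt 6)) := by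
    field_simp
  rw [e2] at h2
  exact_mod_cast h2

variable {n : ℕ} {θ : Fin n → ℝ} {i0 i1 : Fin n}

lemma Dir.jensen (h : Dir θ i0 i1) {t : ℝ} (h0 : 0 ≤ t) (h1 : t < z1/θ i0) :
    ∏ i, φ (θ i * t) ≤ φ (t/Real.sqrt n)^n * Real.exp (-(c4*((∑ i, θ i^4) - 1/n)*t^4)) := by
  have hn2 := h.two_le
  have hn0 : (0:ℝ) < n := by exact_mod_cast (by omega : 0 < n)
  have hsn : (0:ℝ) < Real.sqrt n := Real.sqrt_pos.2 hn0
  have hz := z1_gt
  have ha := h.a_pos
  -- φ (t/√n) > 0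
  have hag : 1/Real.sqrt n ≤ θ i0 := by
    have h2 := h.n_ge
    rw [div_le_iff₀ hsn]
    have h3 : 1 ≤ (θ i0*Real.sqrt n)^2 := by
      rw [mul_pow, Real.sq_sqrt hn0.le]; linarith
    have h4 : 0 ≤ θ i0*Real.sqrt n := by positivity
    nlinarith
  have htn : t/Real.sqrt n < z1 := by
    calc t/Real.sqrt n = (1/Real.sqrt n)*t := by ring
      _ ≤ θ i0*t := mul_le_mul_of_nonneg_right hag h0
      _ < z1 := by rw [lt_div_iff₀ ha] at h1; linarith
  have hpn := φ_pos (div_nonneg h0 hsn.le) htn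
  have hpos : ∀ i, 0 < φ (θ i * t) := fun i => φ_pos (h.arg_lt h0 h1 i).1 (h.arg_lt h0 h1 i).2
  have hc := Gq_concave.le_map_sum (t := Finset.univ) (w := fun _ : Fin n => 1/(n:ℝ))
    (p := fun i => (θ i*t)^2) (fun _ _ => by positivity)
    (by simp; field_simp) (fun i _ => ⟨sq_nonneg _, pow_lt_pow_left₀ (h.arg_lt h0 h1 i).2 (h.arg_lt h0 h1 i).1 (by norm_num)⟩)
  have e1 : ∑ i : Fin n, (1/(n:ℝ)) • (θ i*t)^2 = t^2/n := by
    simp only [smul_eq_mul]
    rw [← Finset.mul_sum]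
    simp_rw [mul_pow]
    rw [← Finset.sum_mul, h.sum]
    ring
  rw [e1] at hc
  simp only [smul_eq_mul] at hc
  rw [← Finset.mul_sum] at hc
  unfold Gq at hc
  have e2 : Real.sqrt (t^2/n) = t/Real.sqrt n := by rw [Real.sqrt_div (sq_nonneg _), Real.sqrt_sq h0]
  have e3 : ∀ i, Real.sqrt ((θ i*t)^2) = θ i*t := fun i => Real.sqrt_sq (h.arg_lt h0 h1 i).1
  simp only [e2, e3] at hc
  rw [Finset.sum_add_distrib] at hc
  have e4 : ∑ i, c4*((θ i*t)^2)^2 = c4*(∑ i, θ i^4)*t^4 := by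
    rw [Finset.mul_sum, Finset.sum_mul]
    apply Finset.sum_congr rfl
    intro i _
    ring
  rw [e4] at hc
  have h5 := mul_le_mul_of_nonneg_left hc hn0.le
  have e5 : (n:ℝ)*(1/n*(∑ i, Real.log (φ (θ i*t)) + c4*(∑ i, θ i^4)*t^4))
      = ∑ i, Real.log (φ (θ i*t)) + c4*(∑ i, θ i^4)*t^4 := by
    rw [← mul_assoc, mul_one_div_cancel hn0.ne', one_mul]
  have e6 : (n:ℝ)*(Real.log (φ (t/Real.sqrt n)) + c4*(t^2/n)^2)
      = n*Real.log (φ (t/Real.sqrt n)) + c4*(1/n)*t^4 := by field_simp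
  rw [e5, e6] at h5
  rw [← Real.log_le_log_iff (Finset.prod_pos fun i _ => hpos i) (by positivity),
    Real.log_mul (by positivity) (Real.exp_pos _).ne', Real.log_exp, Real.log_pow,
    Real.log_prod (fun i _ => (hpos i).ne')]
  linarith

end Helper64.CubeGauss
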