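import Pool.Agent.Helper64.CubeGauss.Table
import Pool.Agent.Helper64.CubeGauss.Conc

/-! Envelopes: cell bounds `Vf`, the far bound and the star-shaped exponential envelope. -/

namespace Helper64.CubeGauss

open MeasureTheory intervalIntegral Set Finset

/-- `|φ u| ≤ Vf j / 10^7` for `j/2 ≤ u² ≤ (j+1)/2`, `j < 128` -/
def Vf (j : ℕ) : ℕ := if j < 24 then Wf j else max (Wf j) (Wf (j+1)) + 45500 / j + 1

lemma V_bound {j : ℕ} (hj : j < 128) {u : ℝ} (hu : 0 ≤ u) (h1 : (j:ℝ)/2 ≤ u^2)
    (h2 : u^2 ≤ ((j:ℝ)+1)/2) : |φ u| ≤ (Vf j : ℝ) / 10^7 := by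
  by_cases h24 : j < 24
  · have hz := z1_gt
    have hj' : ((j:ℝ)+1) ≤ 24 := by exact_mod_cast h24
    have hu12 : u^2 ≤ 12 := by linarith
    have hult : u < z1 := by nlinarith
    rw [abs_of_pos (φ_pos hu hult)]
    have ha : Real.sqrt ((j:ℝ)/2) ≤ u := by
      rw [Real.sqrt_le_left hu]; exact h1
    have := φ_antitone ⟨Real.sqrt_nonneg _, ha.trans hult.le⟩ ⟨hu, hult.le⟩ ha
    refine this.trans ?_
    have h3 := W_upper (j := j) (by omega)
    unfold Vf
    rw [if_pos h24]
    exact h3
  · have h24' : 24 ≤ j := by omega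
    have hj24 : (24:ℝ) ≤ j := by exact_mod_cast h24'
    have a1 := W_upper (j := j) (by omega)
    have a2 := W_lower h24' (by omega)
    have b1 := W_upper (j := j+1) (by omega)
    have b2 := W_lower (j := j+1) (by omega) (by omega)
    push_cast at b1 b2
    set a := Real.sqrt ((j:ℝ)/2) with hadef
    set b := Real.sqrt (((j:ℝ)+1)/2) with hbdef
    have ha0 : 0 < a := Real.sqrt_pos.2 (by linarith)
    have hb0 : 0 ≤ b := Real.sqrt_nonneg _
    have ha2 : a^2 = (j:ℝ)/2 := Real.sq_sqrt (by linarith)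
    have hb2 : b^2 = ((j:ℝ)+1)/2 := Real.sq_sqrt (by linarith)
    have hab : a < b := by
      rw [hadef, hbdef]
      apply Real.sqrt_lt_sqrt (by linarith) (by linarith)
    have hau : a ≤ u := by rw [hadef, Real.sqrt_le_left hu]; exact h1
    have hub : u ≤ b := by rw [hbdef]; exact Real.le_sqrt_of_sq_le h2
    have key := abs_φ_le_of_ends (M := (max (Wf j) (Wf (j+1)) : ℕ) / 10^7) hab hau hub ?_ ?_
    · refine key.trans ?_
      unfold Vf
      rw [if_neg h24]
      have hs := s2_bounds.2
      have hs0 := s2_pos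
      have hbma : (b-a)*(a+b) = 1/2 := by nlinarith
      have h4 : (b-a)^2 ≤ 1/(8*j) := by
        have h5 : (b-a)^2*(a+b)^2 = 1/4 := by rw [← mul_pow, hbma]; norm_num
        have h6 : 2*(j:ℝ) ≤ (a+b)^2 := by nlinarith
        have h7 : (b-a)^2*(2*j) ≤ 1/4 := by nlinarith [sq_nonneg (b-a)]
        rw [le_div_iff₀ (by linarith)]
        linarith
      have h5 : s2 * (b-a)^2/8 ≤ 45489/10^7/j := by
        have h6 : s2 * (b-a)^2/8 ≤ s2 * (1/(8*j))/8 := by
          have := mul_le_mul_of_nonneg_left h4 hs0.le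
          linarith
        refine h6.trans ?_
        have e : s2 * (1/(8*(j:ℝ)))/8 = (s2/64)/j := by field_simp; norm_num
        rw [e]
        apply div_le_div_of_nonneg_right _ (by linarith)
        linarith
      have h6 : (45500 : ℝ)/j ≤ ((45500/j : ℕ) : ℝ) + 1 := by
        rw [div_le_iff₀ (by linarith)]
        have h7 : 45500 < (45500/j + 1) * j := Nat.lt_mul_of_div_lt (Nat.lt_succ_self _) (by omega)
        have h8 : ((45500:ℕ):ℝ) ≤ (((45500/j+1)*j : ℕ) : ℝ) := by exact_mod_cast h7.le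
        push_cast at h8
        linarith
      have h9 : 45489/10^7/(j:ℝ) ≤ (45500/(j:ℝ))/10^7 := by
        rw [div_div, div_div, div_le_div_iff₀ (by positivity) (by positivity)]
        nlinarith
      push_cast
      have e2 : ((max (Wf j : ℝ) (Wf (j+1) : ℝ)) + ((45500/j : ℕ):ℝ) + 1)/10^7 =
        max (Wf j : ℝ) (Wf (j+1) : ℝ) / 10^7 + (((45500/j : ℕ):ℝ) + 1)/10^7 := by ring
      have e3 : (((45500/j : ℕ):ℝ)) = ((45500/j : ℕ):ℝ) := rfl
      rw [e2]
      have h10 : (45500/(j:ℝ))/10^7 ≤ (((45500/j : ℕ):ℝ) + 1)/10^7 :=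
        div_le_div_of_nonneg_right h6 (by norm_num)
      linarith
    · rw [abs_le]
      push_cast
      have m1 := le_max_left (Wf j : ℝ) (Wf (j+1) : ℝ)
      constructor <;> [(refine le_trans ?_ a2); (refine a1.trans ?_)]
      · apply neg_le_neg; apply div_le_div_of_nonneg_right m1 (by norm_num)
      · apply div_le_div_of_nonneg_right m1 (by norm_num)
    · rw [abs_le]
      push_cast
      have m1 := le_max_right (Wf j : ℝ) (Wf (j+1) : ℝ)
      constructor <;> [(refine le_trans ?_ b2); (refine b1.trans ?_)]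
      · apply neg_le_neg; apply div_le_div_of_nonneg_right m1 (by norm_num)
      · apply div_le_div_of_nonneg_right m1 (by norm_num)

/-! ### the far bound -/

lemma far_barrier {t : ℝ} (ht : 8 ≤ t) : |φ t| ≤ c * (1/t + 1/t^3 + 5/t^5) := by
  have hc := c_pos
  have hd : ∀ x : ℝ, 0 < x → HasDerivAt (fun x : ℝ => c * (1/x + 1/x^3 + 5/x^5))
      (c * (-1/x^2 - 3/x^4 - 25/x^6)) x := by
    intro x hx
    have h1 : HasDerivAt (fun x : ℝ => 1/x) (-1/x^2) x := by
      have := (hasDerivAt_inv hx.ne')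
      simpa [one_div, neg_div] using this
    have h3 : HasDerivAt (fun x : ℝ => 1/x^3) (-3/x^4) x := by
      have := (hasDerivAt_pow 3 x).inv (by positivity)
      have e : (fun x : ℝ => 1/x^3) = fun x => (x^3)⁻¹ := by ext; rw [one_div]
      rw [e]
      refine this.congr_deriv ?_
      push_cast
      field_simp
    have h5 : HasDerivAt (fun x : ℝ => 5/x^5) (-25/x^6) x := by
      have := ((hasDerivAt_pow 5 x).inv (by positivity)).const_mul 5
      have e : (fun x : ℝ => 5/x^5) = fun x => 5 * (x^5)⁻¹ := by ext; rw [div_eq_mul_inv]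
      rw [e]
      refine this.congr_deriv ?_
      push_cast
      field_simp
      norm_num
    exact (((h1.add h3).add h5).const_mul c).congr_deriv (by ring)
  have hineq : ∀ x : ℝ, 8 ≤ x → c ≤ x * (c * (1/x + 1/x^3 + 5/x^5)) + c * (-1/x^2 - 3/x^4 - 25/x^6) := by
    intro x hx
    have hx0 : 0 < x := by linarith
    have e : x * (c * (1/x + 1/x^3 + 5/x^5)) + c * (-1/x^2 - 3/x^4 - 25/x^6)
        = c + c * (2*x^2 - 25)/x^6 := by
      field_simp
      ring
    rw [e]
    have : 0 ≤ c * (2*x^2 - 25)/x^6 := by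
      apply div_nonneg _ (by positivity)
      apply mul_nonneg hc.le
      nlinarith
    linarith
  have main : ∀ ε : ℝ, |ε| = 1 → ε * φ 8 ≤ c * (1/8 + 1/8^3 + 5/8^5) →
      ε * φ t ≤ c * (1/t + 1/t^3 + 5/t^5) := by
    intro ε hε h8
    have hmono : MonotoneOn (fun x => Real.exp (x^2/2) * (c * (1/x + 1/x^3 + 5/x^5) - ε * φ x)) (Ici 8) := by
      have hder : ∀ x : ℝ, 0 < x → HasDerivAt (fun x => Real.exp (x^2/2) * (c * (1/x + 1/x^3 + 5/x^5) - ε * φ x))
          (Real.exp (x^2/2) * x * (c * (1/x + 1/x^3 + 5/x^5) - ε * φ x)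
            + Real.exp (x^2/2) * (c * (-1/x^2 - 3/x^4 - 25/x^6) - ε * (c * Real.sin x - x * φ x))) x := by
        intro x hx
        have h1 : HasDerivAt (fun x : ℝ => Real.exp (x^2/2)) (Real.exp (x^2/2) * x) x := by
          have := ((hasDerivAt_pow 2 x).div_const 2).exp
          exact this.congr_deriv (by norm_num)
        exact h1.mul ((hd x hx).sub ((hasDerivAt_φ x).const_mul ε))
      apply monotoneOn_of_deriv_nonneg (convex_Ici 8)
      · intro x hx
        have hx8 : (8:ℝ) ≤ x := hx
        exact (hder x (by linarith)).continuousAt.continuousWithinAt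
      · intro x hx
        rw [interior_Ici] at hx
        have hx8 : (8:ℝ) < x := hx
        exact (hder x (by linarith)).differentiableAt.differentiableWithinAt
      · intro x hx
        rw [interior_Ici] at hx
        have hx8 : (8:ℝ) < x := hx
        rw [(hder x (by linarith)).deriv]
        have h2 := hineq x hx8.le
        have h3 : ε * (c * Real.sin x) ≤ c := by
          have hs : |Real.sin x| ≤ 1 := Real.abs_sin_le_one x
          have : |ε * (c * Real.sin x)| ≤ c := by
            rw [abs_mul, hε, one_mul, abs_mul, abs_of_pos hc]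
            nlinarith
          exact (le_abs_self _).trans this
        have h4 := Real.exp_pos (x^2/2)
        nlinarith
    have h9 := hmono (Set.mem_Ici.2 le_rfl) (Set.mem_Ici.2 ht) ht
    simp only at h9
    have e8 := Real.exp_pos ((8:ℝ)^2/2)
    have et := Real.exp_pos (t^2/2)
    have h10 : 0 ≤ Real.exp ((8:ℝ)^2/2) * (c * (1/8 + 1/8^3 + 5/8^5) - ε * φ 8) :=
      mul_nonneg e8.le (by linarith)
    have h11 := h10.trans h9
    have h12 := nonneg_of_mul_nonneg_right h11 et
    linarith
  have h8 : |φ 8| ≤ c * (1/8 + 1/8^3 + 5/8^5) := by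
    have u := W_upper (j := 128) (by norm_num)
    have l := W_lower (j := 128) (by norm_num) (by norm_num)
    have e : Real.sqrt (((128:ℕ):ℝ)/2) = 8 := by
      rw [show (((128:ℕ):ℝ)/2) = 8^2 by norm_num]
      exact Real.sqrt_sq (by norm_num)
    rw [e] at u l
    have hw : Wf 128 ≤ 892820 := by decide +kernel
    have hw' : (Wf 128 : ℝ) ≤ 892820 := by exact_mod_cast hw
    have hcb := c_bounds
    have hw2 : (Wf 128 : ℝ)/10^7 ≤ 892820/10^7 := div_le_div_of_nonneg_right hw' (by norm_num)
    have e4 : (1/8+1/8^3+5/8^5 : ℝ) = 4165/32768 := by norm_num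
    rw [abs_le, e4]
    constructor <;> linarith [hcb.1]
  rw [abs_le] at h8 ⊢
  constructor
  · have := main (-1) (by simp) (by linarith [h8.1])
    linarith
  · have := main 1 (by simp) (by linarith [h8.2])
    linarith

lemma far_bound {t : ℝ} (ht : 8 ≤ t) : |φ t| ≤ 0.7209 / t := by
  refine (far_barrier ht).trans ?_
  have ht0 : 0 < t := by linarith
  have hc := c_bounds.2
  have e : c * (1/t + 1/t^3 + 5/t^5) = c * (1 + 1/t^2 + 5/t^4) / t := by field_simp
  rw [e]
  apply div_le_div_of_nonneg_right _ ht0.le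
  have h1 : 1/t^2 ≤ 1/64 := by
    apply one_div_le_one_div_of_le (by norm_num)
    nlinarith
  have h2 : 5/t^4 ≤ 5/4096 := by
    apply div_le_div_of_nonneg_left (by norm_num) (by norm_num)
    have : (64:ℝ) ≤ t^2 := by nlinarith
    nlinarith
  have hc0 := c_pos
  nlinarith

end Helper64.CubeGauss
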