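import Pool.Agent.Helper64.CubeGauss.Taylor

/-! High precision value of `c` and exact integer evaluation of the Taylor polynomials of `φ (√x)`. -/

namespace Helper64.CubeGauss

open MeasureTheory intervalIntegral Set Finset

/-- `mom k = AA k - BB k * c` -/
def AA : ℕ → ℤ
  | 0 => 1
  | k+1 => (2*k+1) * AA k

def BB : ℕ → ℤ
  | 0 => 0
  | k+1 => (2*k+1) * BB k + 1

lemma mom_eq (k : ℕ) : mom k = (AA k : ℝ) - (BB k : ℝ) * c := by
  induction k with
  | zero => simp [mom_zero, AA, BB]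
  | succ k ih =>
    rw [mom_succ, ih]
    simp only [AA, BB]
    push_cast
    ring

lemma mom_nonneg (k : ℕ) : 0 ≤ mom k := by
  unfold mom
  apply div_nonneg _ P_pos.le
  apply intervalIntegral.integral_nonneg (by norm_num)
  intro x _
  have := (g_pos x).le
  have h2 : x^(2*k) = (x^2)^k := by rw [pow_mul]
  rw [h2]
  positivity

lemma mom_le_one (k : ℕ) : mom k ≤ 1 := by
  unfold mom
  rw [div_le_one P_pos]
  unfold P
  apply intervalIntegral.integral_mono_on (by norm_num)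
  · exact (by have := g_cont; fun_prop : Continuous fun x => x^(2*k) * g x).intervalIntegrable _ _
  · exact g_cont.intervalIntegrable _ _
  · intro x hx
    have h0 := (g_pos x).le
    have hx2 : x^2 ≤ 1 := by
      have h1 := hx.1
      have h2 := hx.2
      nlinarith
    have h1 : x^(2*k) ≤ 1 := by
      rw [pow_mul]
      exact pow_le_one₀ (sq_nonneg x) hx2
    nlinarith

/-- 24 digit enclosure of `c` -/
def cN0 : ℤ := 708874905227206788808987
def cN1 : ℤ := 708874905227206788808990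

lemma AA20 : AA 20 = 319830986772877770815625 := by decide +kernel
lemma BB20 : BB 20 = 451181138469510855618148 := by decide +kernel

lemma c_high : (cN0 : ℝ) / 10^24 ≤ c ∧ c ≤ (cN1 : ℝ) / 10^24 := by
  have h0 := mom_nonneg 20
  have h1 := mom_le_one 20
  rw [mom_eq, AA20, BB20] at h0 h1
  unfold cN0 cN1
  push_cast at *
  constructor
  · linarith
  · linarith

/-- exact evaluation: numerator and denominator of
`∑_{i<m} (-1)^i a_{k+i} (j/2)^i (2k)!/(2(k+i))!` -/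
def hor (a : ℕ → ℤ) (j : ℤ) : ℕ → ℕ → ℤ × ℤ
  | 0, _ => (0, 1)
  | m+1, k =>
    let r := hor a j m (k+1)
    let q : ℤ := 4*(2*k+1)*(k+1)
    (a k * (q * r.2) - j * r.1, q * r.2)

lemma hor_spec (a : ℕ → ℤ) (j : ℤ) (m k : ℕ) :
    0 < (hor a j m k).2 ∧
    ((hor a j m k).1 : ℝ) = (hor a j m k).2 *
      ∑ i ∈ range m, (-1)^i * (a (k+i) : ℝ) * ((j:ℝ)/2)^i * ((2*k).factorial : ℝ) / ((2*(k+i)).factorial : ℝ) := by
  induction m generalizing k with
  | zero => simp [hor]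
  | succ m ih =>
    obtain ⟨ih1, ih2⟩ := ih (k+1)
    have hq : (0:ℤ) < 4*(2*k+1)*(k+1) := by positivity
    refine ⟨by simp only [hor]; positivity, ?_⟩
    rw [Finset.sum_range_succ']
    simp only [hor]
    push_cast
    rw [ih2]
    have e : ∑ i ∈ range m, (-1)^(i+1) * (a (k+(i+1)) : ℝ) * ((j:ℝ)/2)^(i+1) * ((2*k).factorial : ℝ) /
        ((2*(k+(i+1))).factorial : ℝ)
        = - ((j:ℝ) / (4*(2*k+1)*(k+1))) * ∑ i ∈ range m, (-1)^i * (a (k+1+i) : ℝ) * ((j:ℝ)/2)^i *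
          ((2*(k+1)).factorial : ℝ) / ((2*(k+1+i)).factorial : ℝ) := by
      rw [Finset.mul_sum]
      apply Finset.sum_congr rfl
      intro i _
      have h1 : k + (i+1) = k+1+i := by ring
      rw [h1]
      have h2 : ((2*(k+1)).factorial : ℝ) = (2*k+2)*(2*k+1)*((2*k).factorial : ℝ) := by
        have : 2*(k+1) = 2*k+1+1 := by ring
        rw [this, Nat.factorial_succ, Nat.factorial_succ]
        push_cast
        ring
      rw [h2]
      have h3 : ((2*(k+1+i)).factorial : ℝ) ≠ 0 := by positivity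
      have h4 : (2*(k:ℝ)+1) ≠ 0 := by positivity
      have h5 : ((k:ℝ)+1) ≠ 0 := by positivity
      field_simp
      ring
    rw [e]
    generalize ∑ i ∈ range m, (-1)^i * (a (k+1+i) : ℝ) * ((j:ℝ)/2)^i *
          ((2*(k+1)).factorial : ℝ) / ((2*(k+1+i)).factorial : ℝ) = Sg
    have h4 : (2*(k:ℝ)+1) ≠ 0 := by positivity
    have h5 : ((k:ℝ)+1) ≠ 0 := by positivity
    have h6 : ((2*k).factorial : ℝ) ≠ 0 := by positivity
    simp only [pow_zero, one_mul, mul_one, add_zero]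
    field_simp
    ring

/-- coefficients for the value `cn / 10^24` of `c` -/
def co (cn : ℤ) (k : ℕ) : ℤ := AA k * 10^24 - BB k * cn

lemma φn_affine (N : ℕ) (x : ℝ) (hx : 0 ≤ x) :
    ∃ p q : ℝ, (∀ cn : ℤ, ∑ i ∈ range N, (-1)^i * (co cn i : ℝ) * x^i / ((2*i).factorial : ℝ)
      = 10^24 * (p - q * ((cn:ℝ)/10^24))) ∧ φn N (Real.sqrt x) = p - q * c := by
  refine ⟨∑ i ∈ range N, (-1)^i * (AA i : ℝ) * x^i / ((2*i).factorial : ℝ),
    ∑ i ∈ range N, (-1)^i * (BB i : ℝ) * x^i / ((2*i).factorial : ℝ), ?_, ?_⟩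
  · intro cn
    rw [Finset.sum_mul, ← Finset.sum_sub_distrib, Finset.mul_sum]
    apply Finset.sum_congr rfl
    intro i _
    unfold co
    push_cast
    field_simp
    ring
  · unfold φn
    rw [Finset.sum_mul, ← Finset.sum_sub_distrib]
    apply Finset.sum_congr rfl
    intro i _
    rw [mom_eq, pow_mul, Real.sq_sqrt hx]
    ring

/-- upper check at `x = j/2` : `φn 23 (√x) ≤ W / 10^7` -/
def ckU (cn : ℤ) (j W : ℤ) : Bool :=
  let r := hor (co cn) j 23 0
  decide (r.1 * 10^7 ≤ W * (r.2 * 10^24))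

/-- lower check at `x = j/2` : `-W / 10^7 ≤ φn 22 (√x)` -/
def ckL (cn : ℤ) (j W : ℤ) : Bool :=
  let r := hor (co cn) j 22 0
  decide (-(W * (r.2 * 10^24)) ≤ r.1 * 10^7)

lemma hor_zero (a : ℕ → ℤ) (j : ℤ) (m : ℕ) :
    ((hor a j m 0).1 : ℝ) = (hor a j m 0).2 *
      ∑ i ∈ range m, (-1)^i * (a i : ℝ) * ((j:ℝ)/2)^i / ((2*i).factorial : ℝ) := by
  have := (hor_spec a j m 0).2
  simpa using this

lemma upper_of_ck {j W : ℤ} (hj : 0 ≤ j) (h0 : ckU cN0 j W = true) (h1 : ckU cN1 j W = true) :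
    φ (Real.sqrt ((j:ℝ)/2)) ≤ (W:ℝ) / 10^7 := by
  have hx : (0:ℝ) ≤ (j:ℝ)/2 := by
    have : (0:ℝ) ≤ j := by exact_mod_cast hj
    positivity
  refine (φ_le_φn (n := 22) (by decide) _).trans ?_
  obtain ⟨p, q, hpq, hφ⟩ := φn_affine 23 _ hx
  rw [hφ]
  have key : ∀ cn : ℤ, ckU cn j W = true → p - q * ((cn:ℝ)/10^24) ≤ (W:ℝ)/10^7 := by
    intro cn h
    unfold ckU at h
    simp only [decide_eq_true_eq] at h
    have h' : ((hor (co cn) j 23 0).1 : ℝ) * 10^7 ≤ (W:ℝ) * ((hor (co cn) j 23 0).2 * 10^24) := by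
      exact_mod_cast h
    rw [hor_zero, hpq] at h'
    have hpos : (0:ℝ) < (hor (co cn) j 23 0).2 := by exact_mod_cast (hor_spec (co cn) j 23 0).1
    have h2 : (hor (co cn) j 23 0).2 * ((p - q * ((cn:ℝ)/10^24)) * 10^7 * 10^24)
        ≤ (hor (co cn) j 23 0).2 * ((W:ℝ) * 10^24) := by linarith
    have h3 := le_of_mul_le_mul_left h2 hpos
    linarith
  obtain ⟨c0, c1⟩ := c_high
  have k0 := key _ h0
  have k1 := key _ h1
  rcases le_total 0 q with hq | hq
  · nlinarith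
  · nlinarith

lemma lower_of_ck {j W : ℤ} (hj : 0 ≤ j) (h0 : ckL cN0 j W = true) (h1 : ckL cN1 j W = true) :
    -((W:ℝ) / 10^7) ≤ φ (Real.sqrt ((j:ℝ)/2)) := by
  have hx : (0:ℝ) ≤ (j:ℝ)/2 := by
    have : (0:ℝ) ≤ j := by exact_mod_cast hj
    positivity
  refine le_trans ?_ (φn_le_φ (n := 21) (by decide) _)
  obtain ⟨p, q, hpq, hφ⟩ := φn_affine 22 _ hx
  rw [hφ]
  have key : ∀ cn : ℤ, ckL cn j W = true → -((W:ℝ)/10^7) ≤ p - q * ((cn:ℝ)/10^24) := by
    intro cn h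
    unfold ckL at h
    simp only [decide_eq_true_eq] at h
    have h' : -((W:ℝ) * ((hor (co cn) j 22 0).2 * 10^24)) ≤ ((hor (co cn) j 22 0).1 : ℝ) * 10^7 := by
      exact_mod_cast h
    rw [hor_zero, hpq] at h'
    have hpos : (0:ℝ) < (hor (co cn) j 22 0).2 := by exact_mod_cast (hor_spec (co cn) j 22 0).1
    have h2 : (hor (co cn) j 22 0).2 * (-((W:ℝ) * 10^24)) ≤
        (hor (co cn) j 22 0).2 * ((p - q * ((cn:ℝ)/10^24)) * 10^7 * 10^24) := by linarith
    have h3 := le_of_mul_le_mul_left h2 hpos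
    linarith
  obtain ⟨c0, c1⟩ := c_high
  have k0 := key _ h0
  have k1 := key _ h1
  rcases le_total 0 q with hq | hq
  · nlinarith
  · nlinarith

end Helper64.CubeGauss
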