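import Pool.Agent.Helper64.CubeGauss.DiagN
import Pool.Agent.Helper64.CubeGauss.A2b

/-! At least six coordinates: comparison with the diagonal for `0.19 ≤ s`. -/

namespace Helper64.CubeGauss

open MeasureTheory Set

attribute [local irreducible] pL pU expU tUsum farN mainU nsum

lemma Dn_cont (n : ℕ) : Continuous (fun t : ℝ => φ (t/Real.sqrt n)^n) :=
  (φ_cont.comp (by fun_prop)).pow n

lemma pow_le_sq {x : ℝ} (hx : |x| ≤ 1) {n : ℕ} (hn : 2 ≤ n) : |x^n| ≤ x^2 := by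
  rw [abs_pow, ← sq_abs x]
  exact pow_le_pow_of_le_one (abs_nonneg _) hx hn

lemma Dn_integrable {n : ℕ} (hn : 2 ≤ n) : Integrable (fun t : ℝ => φ (t/Real.sqrt n)^n) := by
  have hn0 : (0:ℝ) < n := by exact_mod_cast (by omega : 0 < n)
  have hs : Real.sqrt n ≠ 0 := (Real.sqrt_pos.2 hn0).ne'
  refine Integrable.mono' (φ_sq_integrable.comp_div hs) (Dn_cont n).aestronglyMeasurable
    (Filter.Eventually.of_forall fun t => ?_)
  rw [Real.norm_eq_abs]
  exact pow_le_sq (abs_φ_le_one _) hn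

noncomputable def DG (n : ℕ) : ℝ := ∫ t in Ioi (0:ℝ), φ (t/Real.sqrt n)^n

lemma integral_diag_eq (n : ℕ) : ∫ t, φ (t/Real.sqrt n)^n = 2 * DG n := by
  unfold DG
  rw [← integral_comp_abs (f := fun t : ℝ => φ (t/Real.sqrt n)^n)]
  congr 1
  ext t
  rw [div_eq_inv_mul, div_eq_inv_mul, φ_mul_abs]

lemma n_pow_small {n : ℕ} (hn : 7 ≤ n) : (n:ℝ)*0.15^(n-2) ≤ 7*0.15^5 := by
  induction n, hn using Nat.le_induction with
  | base => norm_num
  | succ k hk ih =>
    have hk' : (7:ℝ) ≤ k := by exact_mod_cast hk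
    have e : k + 1 - 2 = (k - 2) + 1 := by omega
    rw [e, pow_succ]
    push_cast
    have h0 : (0:ℝ) < 0.15^(k-2) := by positivity
    nlinarith

set_option maxRecDepth 100000 in
lemma tail01 : tUsum 0 1 * 16 + farN 0 * 10^9 ≤ 107*16*10^32 := by
  unfold tUsum farN nsum
  decide +kernel

lemma tail_sq : ∫ u in Ioi (Real.sqrt 12), φ u^2 ≤ 0.107 := by
  have h := tail_bound (∅ : Finset ℕ) (fun _ => 0) (K := 0) (M := 1) le_rfl (by norm_num)
    (by simp) (by simp) (by simp)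
  have e : ∀ u, φ u^2 * |Rst (∅ : Finset ℕ) (fun _ => 0) u| = φ u^2 := by
    intro u; simp [Rst]
  simp_rw [e] at h
  refine h.trans ?_
  have h2 := (Nat.cast_le (α := ℝ)).2 tail01
  push_cast at h2
  unfold tailB
  generalize (tUsum 0 1 : ℝ) = x at *
  generalize (farN 0 : ℝ) = y at *
  have e2 : x/10^35 + y/(16*10^26) = (x*16 + y*10^9)/(16*10^35) := by ring
  rw [e2, div_le_iff₀ (by norm_num)]
  linarith

lemma diag_tail {n : ℕ} (hn : 6 ≤ n) :
    -0.00006 ≤ ∫ t in Ioi (z1*Real.sqrt n), φ (t/Real.sqrt n)^n := by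
  have hn0 : (0:ℝ) < n := by exact_mod_cast (by omega : 0 < n)
  have hn1 : (1:ℝ) ≤ n := by exact_mod_cast (by omega : 1 ≤ n)
  rcases Nat.even_or_odd n with he | ho
  · have : 0 ≤ ∫ t in Ioi (z1*Real.sqrt n), φ (t/Real.sqrt n)^n :=
      setIntegral_nonneg measurableSet_Ioi fun t _ => he.pow_nonneg _
    linarith
  · have h7 : 7 ≤ n := by
      rcases ho with ⟨k, hk⟩
      omega
    have hsn : (0:ℝ) < Real.sqrt n := Real.sqrt_pos.2 hn0
    have e1 : ∫ t in Ioi (z1*Real.sqrt n), φ (t/Real.sqrt n)^n = Real.sqrt n * ∫ u in Ioi z1, φ u^n := by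
      have := integral_comp_mul_left_Ioi (fun u => φ u^n) (z1*Real.sqrt n) (inv_pos.2 hsn)
      rw [show (Real.sqrt n)⁻¹*(z1*Real.sqrt n) = z1 by field_simp, inv_inv, smul_eq_mul] at this
      rw [← this]
      apply integral_congr_ae
      apply Filter.Eventually.of_forall
      intro t
      simp only [div_eq_inv_mul]
    have hint : Integrable (fun u => φ u^n) := by
      refine Integrable.mono' φ_sq_integrable (φ_cont.pow n).aestronglyMeasurable
        (Filter.Eventually.of_forall fun t => ?_)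
      rw [Real.norm_eq_abs]
      exact pow_le_sq (abs_φ_le_one _) (by omega)
    have h2 : -(0.15^(n-2)*∫ u in Ioi z1, φ u^2) ≤ ∫ u in Ioi z1, φ u^n := by
      rw [← integral_const_mul, ← integral_neg]
      apply setIntegral_mono_on (φ_sq_integrable.integrableOn.const_mul _).neg hint.integrableOn measurableSet_Ioi
      intro u hu
      have hu1 : z1 < u := hu
      have hz := z1_gt
      have h15 := abs_φ_le_15 (u := u) (by linarith) (by nlinarith)
      have h3 : |φ u^n| ≤ 0.15^(n-2)*φ u^2 := by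
        rw [abs_pow, show n = (n-2)+2 by omega, pow_add, sq_abs]
        simp only [Nat.add_sub_cancel]
        exact mul_le_mul_of_nonneg_right (pow_le_pow_left₀ (abs_nonneg _) h15 _) (sq_nonneg _)
      have := neg_abs_le (φ u^n)
      simp only [Pi.neg_apply]
      linarith
    have h3 : ∫ u in Ioi z1, φ u^2 ≤ 0.107 := by
      refine le_trans ?_ tail_sq
      exact setIntegral_mono_set φ_sq_integrable.integrableOn
        (Filter.Eventually.of_forall fun u => sq_nonneg _) (Ioi_subset_Ioi sqrt12_le_z1).eventuallyLE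
    have h0 : 0 ≤ ∫ u in Ioi z1, φ u^2 := setIntegral_nonneg measurableSet_Ioi fun t _ => sq_nonneg _
    rw [e1]
    have hs2 : Real.sqrt n ≤ n := by
      rw [Real.sqrt_le_left hn0.le]
      nlinarith
    have h4 : Real.sqrt n * (0.15^(n-2)*∫ u in Ioi z1, φ u^2) ≤ (7*0.15^5)*0.107 := by
      calc Real.sqrt n * (0.15^(n-2)*∫ u in Ioi z1, φ u^2)
          = (Real.sqrt n * 0.15^(n-2)) * ∫ u in Ioi z1, φ u^2 := by ring
        _ ≤ (7*0.15^5)*0.107 := by
          apply mul_le_mul _ h3 h0 (by norm_num)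
          exact (mul_le_mul_of_nonneg_right hs2 (by positivity)).trans (n_pow_small h7)
    have h5 := mul_le_mul_of_nonneg_left h2 hsn.le
    have h6 : (7*(0.15:ℝ)^5)*0.107 ≤ 0.00006 := by norm_num
    linarith

lemma sqrt_mono_z1 {n : ℕ} (hn : 6 ≤ n) : z1*Real.sqrt 6 ≤ z1*Real.sqrt n := by
  have hz := z1_gt
  apply mul_le_mul_of_nonneg_left _ (by linarith)
  apply Real.sqrt_le_sqrt
  exact_mod_cast hn

/-- splitting of the diagonal integral -/
lemma DG_ge {n : ℕ} (hn : 6 ≤ n) :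
    (∫ t in (0:ℝ)..(z1*Real.sqrt 6), φ (t/Real.sqrt n)^n) - 0.00006 ≤ DG n := by
  have hint := Dn_integrable (n := n) (by omega)
  have hz := z1_gt
  have hn0 : (0:ℝ) < n := by exact_mod_cast (by omega : 0 < n)
  have hsn : (0:ℝ) < Real.sqrt n := Real.sqrt_pos.2 hn0
  have e : DG n = ((∫ t in (0:ℝ)..(z1*Real.sqrt 6), φ (t/Real.sqrt n)^n)
      + ∫ t in (z1*Real.sqrt 6)..(z1*Real.sqrt n), φ (t/Real.sqrt n)^n)
      + ∫ t in Ioi (z1*Real.sqrt n), φ (t/Real.sqrt n)^n := by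
    unfold DG
    rw [intervalIntegral.integral_add_adjacent_intervals (hint.intervalIntegrable) (hint.intervalIntegrable),
      intervalIntegral.integral_interval_add_Ioi hint.integrableOn hint.integrableOn]
  have h1 : 0 ≤ ∫ t in (z1*Real.sqrt 6)..(z1*Real.sqrt n), φ (t/Real.sqrt n)^n := by
    apply intervalIntegral.integral_nonneg (sqrt_mono_z1 hn)
    intro t ht
    have ht0 : 0 ≤ t := le_trans (by positivity) ht.1
    have h2 : t/Real.sqrt n ≤ z1 := by rw [div_le_iff₀ hsn]; exact ht.2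
    have h3 : 0 ≤ φ (t/Real.sqrt n) := by
      rw [← φ_z1]
      exact φ_antitone ⟨div_nonneg ht0 hsn.le, h2⟩ ⟨by linarith, le_rfl⟩ h2
    positivity
  have h2 := diag_tail hn
  linarith

lemma int6_scale (f : ℝ → ℝ) : ∫ t in (0:ℝ)..(z1*Real.sqrt 6), f (t/Real.sqrt 6) = Real.sqrt 6 * ∫ u in (0:ℝ)..z1, f u := by
  have h6 : Real.sqrt 6 ≠ 0 := (Real.sqrt_pos.2 (by norm_num)).ne'
  rw [intervalIntegral.integral_comp_div (fun u => f u) h6, smul_eq_mul, zero_div, mul_div_cancel_right₀ _ h6]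

lemma DG_lower {n : ℕ} (hn : 6 ≤ n) : 2.2683 ≤ DG n := by
  have h := DG_ge hn
  have hz := z1_gt
  have h2 : ∫ t in (0:ℝ)..(z1*Real.sqrt 6), φ (t/Real.sqrt 6)^6 ≤ ∫ t in (0:ℝ)..(z1*Real.sqrt 6), φ (t/Real.sqrt n)^n := by
    apply intervalIntegral.integral_mono_on_of_le_Ioo (by positivity)
    · exact ((φ_cont.comp (by fun_prop)).pow 6 : Continuous fun t : ℝ => φ (t/Real.sqrt 6)^6).intervalIntegrable _ _
    · exact (Dn_cont n).intervalIntegrable _ _
    · intro t ht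
      exact diag_ge hn ht.1.le ht.2
  rw [int6_scale (fun u => φ u^6)] at h2
  have h3 := mul_le_mul sqrt6_bounds.1 int0 (by norm_num) (Real.sqrt_nonneg _)
  norm_num at h3 h2 h ⊢
  linarith

/-- (3) the cusp is worse than the diagonal for `n ≥ 6` -/
theorem cusp_lt_diag {n : ℕ} (hn : 6 ≤ n) : ∫ t, φ (t / Real.sqrt 2)^2 < ∫ t, φ (t / Real.sqrt n)^n := by
  rw [integral_cusp_eq, integral_diag_eq]
  have := DG_lower hn
  have := I2_le
  linarith

lemma gain {κ : ℝ} (hκ : 0 ≤ κ) : (196:ℝ)/10^8*(120000*κ) - 8/10^12*(120000*κ)^2 ≤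
    ∫ t in (0:ℝ)..(z1*Real.sqrt 6), φ (t/Real.sqrt 6)^6*(1 - Real.exp (-(c4*κ*t^4))) := by
  have h6p : (0:ℝ) < Real.sqrt 6 := Real.sqrt_pos.2 (by norm_num)
  have hz := z1_gt
  have e : ∀ t, φ (t/Real.sqrt 6)^6*(1 - Real.exp (-(c4*κ*t^4)))
      = (fun u => φ u^6*(1 - Real.exp (-(36*c4*κ*u^4)))) (t/Real.sqrt 6) := by
    intro t
    simp only
    have : 36*c4*κ*(t/Real.sqrt 6)^4 = c4*κ*t^4 := by
      have h4 : Real.sqrt 6^4 = 36 := by
        calc Real.sqrt 6^4 = (Real.sqrt 6^2)^2 := by ring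
          _ = 36 := by rw [Real.sq_sqrt (by norm_num)]; norm_num
      rw [div_pow, h4]; ring
    rw [this]
  simp_rw [e]
  rw [int6_scale (fun u => φ u^6*(1 - Real.exp (-(36*c4*κ*u^4))))]
  have hc6 : Continuous fun u : ℝ => φ u^6 := φ_cont.pow 6
  have h1 : ∫ u in (0:ℝ)..z1, (36*c4*κ*(u^4*φ u^6) - 648*c4^2*κ^2*(u^8*φ u^6)) ≤
      ∫ u in (0:ℝ)..z1, φ u^6*(1 - Real.exp (-(36*c4*κ*u^4))) := by
    apply intervalIntegral.integral_mono_on (by linarith)
    · exact (by fun_prop : Continuous fun u : ℝ => (36*c4*κ*(u^4*φ u^6) - 648*c4^2*κ^2*(u^8*φ u^6))).intervalIntegrable _ _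
    · exact (by fun_prop : Continuous fun u : ℝ => φ u^6*(1 - Real.exp (-(36*c4*κ*u^4)))).intervalIntegrable _ _
    · intro u hu
      have h0 : 0 ≤ φ u^6 := Even.pow_nonneg (by decide) _
      have hc := c4_pos
      have hy : 0 ≤ 36*c4*κ*u^4 := by positivity
      have h2 := exp_neg_le_quad hy
      have h3 := mul_le_mul_of_nonneg_left h2 h0
      have e2 : 36*c4*κ*(u^4*φ u^6) - 648*c4^2*κ^2*(u^8*φ u^6)
          = φ u^6*(36*c4*κ*u^4 - (36*c4*κ*u^4)^2/2) := by ring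
      rw [e2]
      linarith
  rw [intervalIntegral.integral_sub
    ((by fun_prop : Continuous fun u : ℝ => 36*c4*κ*(u^4*φ u^6)).intervalIntegrable _ _)
    ((by fun_prop : Continuous fun u : ℝ => 648*c4^2*κ^2*(u^8*φ u^6)).intervalIntegrable _ _),
    intervalIntegral.integral_const_mul, intervalIntegral.integral_const_mul] at h1
  have h2 := mul_le_mul_of_nonneg_left h1 h6p.le
  refine le_trans ?_ h2
  have h4 := int4
  have h8 := int8
  obtain ⟨s1, s2'⟩ := sqrt6_bounds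
  obtain ⟨c1, c2⟩ := c4_bounds
  have hc := c4_pos
  set m4 := ∫ u in (0:ℝ)..z1, u^4*φ u^6
  set m8 := ∫ u in (0:ℝ)..z1, u^8*φ u^6
  have a1 : (2.449489:ℝ)*(36*(37400/10^7)*0.71317) ≤ Real.sqrt 6*(36*c4*m4) := by
    apply mul_le_mul s1 _ (by norm_num) h6p.le
    apply mul_le_mul _ h4 (by norm_num) (by positivity)
    linarith
  have a2 : Real.sqrt 6*(648*c4^2*m8) ≤ (2.44949:ℝ)*(648*(37401/10^7)^2*5.1861) := by
    have hm8 : 0 ≤ m8 := by
      apply intervalIntegral.integral_nonneg (by linarith)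
      intro u hu
      have h0 : 0 ≤ φ u^6 := Even.pow_nonneg (by decide) _
      positivity
    apply mul_le_mul s2' _ (by positivity) (by norm_num)
    apply mul_le_mul _ h8 hm8 (by norm_num)
    have : c4^2 ≤ (37401/10^7)^2 := pow_le_pow_left₀ hc.le c2.le 2
    linarith
  have b1 := mul_le_mul_of_nonneg_left a1 hκ
  have b2 := mul_le_mul_of_nonneg_left a2 (sq_nonneg κ)
  have n1 : (196:ℝ)/10^8*120000 ≤ (2.449489:ℝ)*(36*(37400/10^7)*0.71317) := by norm_num
  have n2 : (2.44949:ℝ)*(648*(37401/10^7)^2*5.1861) ≤ 8/10^12*120000^2 := by norm_num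
  have d1 := mul_le_mul_of_nonneg_left n1 hκ
  have d2 := mul_le_mul_of_nonneg_left n2 (sq_nonneg κ)
  calc (196:ℝ)/10^8*(120000*κ) - 8/10^12*(120000*κ)^2
      = κ*((196:ℝ)/10^8*120000) - κ^2*(8/10^12*120000^2) := by ring
    _ ≤ κ*(Real.sqrt 6*(36*c4*m4)) - κ^2*(Real.sqrt 6*(648*c4^2*m8)) := by linarith
    _ = Real.sqrt 6*(36*c4*κ*m4 - 648*c4^2*κ^2*m8) := by ring

end Helper64.CubeGauss
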