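import Pool.Agent.Helper64.CubeGauss.Setup
import Pool.Agent.Helper64.CubeGauss.Poly

/-! The region `s ≥ 2/5`. -/

namespace Helper64.CubeGauss

open MeasureTheory Set

variable {n : ℕ} {θ : Fin n → ℝ} {i0 i1 : Fin n}

lemma Vf_le_all : ∀ j < 128, 24 ≤ j → Vf j ≤ 1500000 := by decide +kernel

attribute [local irreducible] Vf pU Dd

lemma abs_φ_le_15 {u : ℝ} (hu : 0 ≤ u) (h12 : 12 ≤ u^2) : |φ u| ≤ 0.15 := by
  rcases lt_or_ge (u^2) 64 with h | h
  · set j := ⌊2*u^2⌋₊ with hj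
    have hj1 : (j:ℝ) ≤ 2*u^2 := Nat.floor_le (by positivity)
    have hj2 : 2*u^2 < (j:ℝ)+1 := Nat.lt_floor_add_one _
    have hj3 : j < 128 := by
      rw [hj, Nat.floor_lt (by positivity)]; push_cast; linarith
    have hj4 : 24 ≤ j := by apply Nat.le_floor; push_cast; linarith
    refine (V_bound hj3 hu (by linarith) (by linarith)).trans ?_
    have := (Nat.cast_le (α := ℝ)).2 (Vf_le_all j hj3 hj4)
    push_cast at this
    rw [div_le_iff₀ (by norm_num)]
    linarith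
  · have h8 : 8 ≤ u := by nlinarith
    refine (far_bound h8).trans ?_
    rw [div_le_iff₀ (by linarith)]
    linarith

/-- the simple envelope -/
noncomputable def Gm (y : ℝ) : ℝ := max (Real.exp (-y)) 0.1572

lemma Gm_ge (y : ℝ) : 0.1572 ≤ Gm y := le_max_right _ _

lemma Gm_pos (y : ℝ) : 0 < Gm y := lt_of_lt_of_le (by norm_num) (Gm_ge y)

lemma Gm_le_one {y : ℝ} (hy : 0 ≤ y) : Gm y ≤ 1 := by
  unfold Gm
  apply max_le
  · rw [Real.exp_le_one_iff]; linarith
  · norm_num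

lemma Gm_zero : Gm 0 = 1 := by
  unfold Gm
  rw [neg_zero, Real.exp_zero]
  norm_num

lemma Gm_mul {x y : ℝ} (hx : 0 ≤ x) (hy : 0 ≤ y) : Gm x * Gm y ≤ Gm (x+y) := by
  have h1 := Gm_le_one hx
  have h2 := Gm_le_one hy
  rcases max_choice (Real.exp (-x)) 0.1572 with h3 | h3
  · rcases max_choice (Real.exp (-y)) 0.1572 with h4 | h4
    · have e : Gm x * Gm y = Real.exp (-(x+y)) := by
        unfold Gm
        rw [h3, h4, ← Real.exp_add]
        congr 1; ring
      rw [e]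
      exact le_max_left _ _
    · have e : Gm y = 0.1572 := h4
      rw [e]
      have := Gm_ge (x+y)
      nlinarith [Gm_pos x]
  · have e : Gm x = 0.1572 := h3
    rw [e]
    have := Gm_ge (x+y)
    nlinarith [Gm_pos y]

lemma Gm_prod {ι : Type*} (S : Finset ι) (x : ι → ℝ) (hx : ∀ i ∈ S, 0 ≤ x i) :
    ∏ i ∈ S, Gm (x i) ≤ Gm (∑ i ∈ S, x i) := by
  classical
  induction S using Finset.induction_on with
  | empty => simp [Gm_zero]
  | insert a S ha ih =>
    rw [Finset.prod_insert ha, Finset.sum_insert ha]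
    have h1 := ih (fun i hi => hx i (Finset.mem_insert_of_mem hi))
    have h2 : 0 ≤ ∑ i ∈ S, x i := Finset.sum_nonneg fun i hi => hx i (Finset.mem_insert_of_mem hi)
    exact (mul_le_mul_of_nonneg_left h1 (Gm_pos _).le).trans
      (Gm_mul (hx a (Finset.mem_insert_self a S)) h2)

/-- `Gm (k y)` is convex in `k` -/
lemma Gm_conv {a b l y : ℝ} (h0 : 0 ≤ l) (h1 : l ≤ 1) :
    Gm (((1-l)*a+l*b)*y) ≤ (1-l)*Gm (a*y) + l*Gm (b*y) := by
  unfold Gm
  apply max_le
  · have hc := convexOn_exp.2 (mem_univ (-(a*y))) (mem_univ (-(b*y)))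
      (by linarith : 0 ≤ 1 - l) h0 (by ring)
    simp only [smul_eq_mul] at hc
    rw [show (1-l)*(-(a*y)) + l*(-(b*y)) = -(((1-l)*a+l*b)*y) by ring] at hc
    refine hc.trans ?_
    have e1 := mul_le_mul_of_nonneg_left (le_max_left (Real.exp (-(a*y))) 0.1572) (by linarith : 0 ≤ 1-l)
    have e2 := mul_le_mul_of_nonneg_left (le_max_left (Real.exp (-(b*y))) 0.1572) h0
    linarith
  · have e1 := mul_le_mul_of_nonneg_left (le_max_right (Real.exp (-(a*y))) (0.1572:ℝ)) (by linarith : 0 ≤ 1-l)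
    have e2 := mul_le_mul_of_nonneg_left (le_max_right (Real.exp (-(b*y))) (0.1572:ℝ)) h0
    linarith

lemma Gm_cont : Continuous Gm := by
  unfold Gm
  fun_prop

lemma abs_φ_le_Gm {u : ℝ} (hu : 0 ≤ u) : |φ u| ≤ Gm (s2*u^2/2) := by
  rcases le_or_gt (u^2) 12 with h | h
  · have hz := z1_gt
    have hz2 := z1_lt
    have hu1 : u < z1 := by nlinarith
    rw [abs_of_nonneg (φ_pos hu hu1).le]
    refine (φ_le_exp hu (by linarith)).trans (le_trans ?_ (le_max_left _ _))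
    apply Real.exp_le_exp.2
    unfold Λ
    have h4 := c4_pos
    have h6 : 0 ≤ c4*u^4 + c6*u^6 := by unfold c6; positivity
    linarith
  · exact (abs_φ_le_15 hu h.le).trans (le_trans (by norm_num) (Gm_ge _))

lemma abs_Rst_le_Gm {ι : Type*} (S : Finset ι) (ρ : ι → ℝ) (h0 : ∀ i ∈ S, 0 ≤ ρ i) {u : ℝ} (hu : 0 ≤ u) :
    |Rst S ρ u| ≤ Gm ((∑ i ∈ S, ρ i) * (s2*u^2/2)) := by
  unfold Rst
  rw [Finset.abs_prod, Finset.sum_mul]
  refine le_trans ?_ (Gm_prod S (fun i => ρ i * (s2*u^2/2)) ?_)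
  · apply Finset.prod_le_prod (fun i _ => abs_nonneg _)
    intro i hi
    refine (abs_φ_le_Gm (mul_nonneg (Real.sqrt_nonneg _) hu)).trans (le_of_eq ?_)
    congr 1
    rw [mul_pow, Real.sq_sqrt (h0 i hi)]
    ring
  · intro i hi
    have := s2_pos
    exact mul_nonneg (h0 i hi) (by positivity)

noncomputable def A2 : ℝ := ∫ u in Ioi (0:ℝ), φ u^2

noncomputable def HG (k : ℝ) : ℝ := ∫ u in Ioi (0:ℝ), φ u^2 * Gm (k * (s2*u^2/2))

lemma HG_integrable {k : ℝ} (hk : 0 ≤ k) : Integrable (fun u : ℝ => φ u^2 * Gm (k * (s2*u^2/2))) := by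
  refine Integrable.mono' φ_sq_integrable ?_ (Filter.Eventually.of_forall fun t => ?_)
  · exact ((φ_cont.pow 2).mul (Gm_cont.comp (by fun_prop))).aestronglyMeasurable
  · have := s2_pos
    rw [Real.norm_eq_abs, abs_mul, abs_of_nonneg (sq_nonneg _), abs_of_pos (Gm_pos _)]
    have h1 : Gm (k * (s2*t^2/2)) ≤ 1 := Gm_le_one (by positivity)
    nlinarith [sq_nonneg (φ t)]

lemma HG_zero : HG 0 = A2 := by
  unfold HG A2
  simp only [zero_mul, Gm_zero, mul_one]

lemma HG_conv {a b l : ℝ} (ha : 0 ≤ a) (hb : 0 ≤ b) (h0 : 0 ≤ l) (h1 : l ≤ 1) :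
    HG ((1-l)*a+l*b) ≤ (1-l)*HG a + l*HG b := by
  have hk : 0 ≤ (1-l)*a+l*b := add_nonneg (mul_nonneg (by linarith) ha) (mul_nonneg h0 hb)
  unfold HG
  rw [← integral_const_mul, ← integral_const_mul, ← integral_add
    ((HG_integrable ha).integrableOn.const_mul _) ((HG_integrable hb).integrableOn.const_mul _)]
  apply setIntegral_mono_on (HG_integrable hk).integrableOn
    (((HG_integrable ha).integrableOn.const_mul _).add ((HG_integrable hb).integrableOn.const_mul _))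
    measurableSet_Ioi
  intro u _
  have := mul_le_mul_of_nonneg_left (Gm_conv (a := a) (b := b) (y := s2*u^2/2) h0 h1) (sq_nonneg (φ u))
  simp only [Pi.add_apply]
  linarith

/-- reduction of the integral to `HG` -/
lemma Dir.le_HG (h : Dir θ i0 i1) : ∫ t in Ioi (0:ℝ), ∏ i, φ (θ i * t) ≤
    (1/θ i0) * HG (1/(θ i0)^2 - 2) := by
  have ha := h.a_pos
  have hk : 0 ≤ 1/(θ i0)^2 - 2 := by
    rw [← h.sum_rh]; exact Finset.sum_nonneg fun i _ => h.rh_nonneg i
  have e1 : ∫ t in Ioi (0:ℝ), ∏ i, φ (θ i * t)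
      = (θ i0)⁻¹ * ∫ u in Ioi (0:ℝ), φ u^2 * Rst (oth i0 i1) (rh θ i0) u := by
    simp_rw [h.prod_eq]
    have := integral_comp_mul_left_Ioi (fun u => φ u^2 * Rst (oth i0 i1) (rh θ i0) u) 0 ha
    rw [this, smul_eq_mul, mul_zero]
  rw [e1, one_div]
  apply mul_le_mul_of_nonneg_left _ (inv_pos.2 ha).le
  have hint : Integrable (fun u => φ u^2 * Rst (oth i0 i1) (rh θ i0) u) := by
    refine Integrable.mono' (prod_integrable (oth i0 i1) (rh θ i0))
      ((φ_cont.pow 2).mul (Rst_cont _ _)).aestronglyMeasurable (Filter.Eventually.of_forall fun t => ?_)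
    rw [Real.norm_eq_abs, abs_mul, abs_of_nonneg (sq_nonneg _)]
  apply setIntegral_mono_on hint.integrableOn (HG_integrable hk).integrableOn measurableSet_Ioi
  intro u hu
  apply mul_le_mul_of_nonneg_left _ (sq_nonneg _)
  have := abs_Rst_le_Gm (oth i0 i1) (rh θ i0) (fun i _ => h.rh_nonneg i) (le_of_lt (mem_Ioi.1 hu))
  rw [h.sum_rh] at this
  exact (le_abs_self _).trans this

end Helper64.CubeGauss
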