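import Pool.Agent.Helper64.CubeGauss.RegI
import Pool.Agent.Helper64.CubeGauss.Mid

/-! Numerical bounds for `HG`, and the region `s ≥ 2/5`. -/

namespace Helper64.CubeGauss

open MeasureTheory Set

variable {n : ℕ} {θ : Fin n → ℝ} {i0 i1 : Fin n}

def gU (z : ℕ) : ℕ := expU z - 157200000000000

def zI (kk i : ℕ) : ℕ := kk*14556254*i^2/250000
def zJ (kk j : ℕ) : ℕ := kk*14556254*j/200

def tI (kk i : ℕ) : ℕ := (pU (10*i))^2 * gU (zI kk i)
def tJ (kk j : ℕ) : ℕ := Dd j * (Vf j)^2 * gU (zJ kk j)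

set_option maxRecDepth 100000 in
lemma num200 : nsum (tI 200) 0 174 * 2 + nsum (tJ 200) 24 104 * 10^6 ≤ 126500*10^36 := by decide +kernel

set_option maxRecDepth 100000 in
lemma num500 : nsum (tI 500) 0 174 * 2 + nsum (tJ 500) 24 104 * 10^6 ≤ 117800*10^36 := by decide +kernel

attribute [local irreducible] expU pU Vf Dd

lemma Gm_sub_le {z : ℕ} {y : ℝ} (h : (z:ℝ)/10^9 ≤ y) : Gm y - 0.1572 ≤ (gU z : ℝ)/10^15 := by
  have h1 := expU_le h
  unfold gU Gm
  rw [sub_le_iff_le_add]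
  apply max_le
  · refine h1.trans ?_
    have h2 : expU z ≤ (expU z - 157200000000000) + 157200000000000 := by omega
    have h3 := (Nat.cast_le (α := ℝ)).2 h2
    push_cast at h3
    rw [div_le_iff₀ (by norm_num)]
    generalize ((expU z - 157200000000000 : ℕ) : ℝ) = q at *
    generalize (expU z : ℝ) = p at *
    norm_num
    linarith
  · have : (0:ℝ) ≤ ((expU z - 157200000000000 : ℕ) : ℝ)/10^15 :=
      div_nonneg (Nat.cast_nonneg _) (by norm_num)
    linarith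

attribute [local irreducible] gU

lemma zI_le {kk i : ℕ} {x : ℝ} (hx : (i:ℝ)/50 ≤ x) : (zI kk i : ℝ)/10^9 ≤ (kk:ℝ)/1000 * (s2*x^2/2) := by
  have h1 : zI kk i * 250000 ≤ kk*14556254*i^2 := Nat.div_mul_le_self _ _
  have h1' := (Nat.cast_le (α := ℝ)).2 h1
  push_cast at h1'
  have hA := A1_le
  unfold A1 at hA
  push_cast at hA
  have h2 : ((i:ℝ)/50)^2 ≤ x^2 := pow_le_pow_left₀ (by positivity) hx 2
  have h3 : (kk:ℝ)/1000*((14556254:ℝ)/10^8*((i:ℝ)/50)^2) ≤ (kk:ℝ)/1000 * (s2*x^2/2) := by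
    apply mul_le_mul_of_nonneg_left _ (by positivity)
    calc (14556254:ℝ)/10^8*((i:ℝ)/50)^2 ≤ (s2/2)*x^2 := mul_le_mul hA h2 (by positivity) (by have := s2_pos; positivity)
      _ = s2*x^2/2 := by ring
  refine le_trans ?_ h3
  rw [div_le_iff₀ (by norm_num)]
  have e : (kk:ℝ)/1000*((14556254:ℝ)/10^8*((i:ℝ)/50)^2)*10^9 = (kk:ℝ)*14556254*(i:ℝ)^2/250000 := by ring
  rw [e, le_div_iff₀ (by norm_num)]
  exact h1'

lemma zJ_le {kk j : ℕ} {x : ℝ} (hx : (j:ℝ)/2 ≤ x^2) : (zJ kk j : ℝ)/10^9 ≤ (kk:ℝ)/1000 * (s2*x^2/2) := by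
  have h1 : zJ kk j * 200 ≤ kk*14556254*j := Nat.div_mul_le_self _ _
  have h1' := (Nat.cast_le (α := ℝ)).2 h1
  push_cast at h1'
  have hA := A1_le
  unfold A1 at hA
  push_cast at hA
  have h3 : (kk:ℝ)/1000*((14556254:ℝ)/10^8*((j:ℝ)/2)) ≤ (kk:ℝ)/1000 * (s2*x^2/2) := by
    apply mul_le_mul_of_nonneg_left _ (by positivity)
    calc (14556254:ℝ)/10^8*((j:ℝ)/2) ≤ (s2/2)*x^2 := mul_le_mul hA hx (by positivity) (by have := s2_pos; positivity)
      _ = s2*x^2/2 := by ring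
  refine le_trans ?_ h3
  rw [div_le_iff₀ (by norm_num)]
  have e : (kk:ℝ)/1000*((14556254:ℝ)/10^8*((j:ℝ)/2))*10^9 = (kk:ℝ)*14556254*(j:ℝ)/200 := by ring
  rw [e, le_div_iff₀ (by norm_num)]
  exact h1'

noncomputable def fI (kk : ℕ) (u : ℝ) : ℝ := φ u^2 * (Gm ((kk:ℝ)/1000 * (s2*u^2/2)) - 0.1572)

lemma fI_cont (kk : ℕ) : Continuous (fI kk) := by
  unfold fI
  exact (φ_cont.pow 2).mul ((Gm_cont.comp (by fun_prop)).sub continuous_const)

lemma sqrt12_bounds : (3.46:ℝ) ≤ Real.sqrt 12 ∧ Real.sqrt 12 ≤ 3.48 := by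
  constructor
  · apply Real.le_sqrt_of_sq_le; norm_num
  · rw [Real.sqrt_le_left (by norm_num)]; norm_num

lemma int_low (kk : ℕ) : ∫ u in (0:ℝ)..(Real.sqrt 12), fI kk u ≤ (nsum (tI kk) 0 174 : ℝ)/(50*10^39) := by
  obtain ⟨hs1, hs2⟩ := sqrt12_bounds
  have key := integral_le_sum (fI_cont kk) (fun i => min ((i:ℝ)/50) (Real.sqrt 12))
    (fun k => min_le_min_right _ (by push_cast; linarith))
    (fun i => ((pU (10*i) : ℝ)/10^12)^2*((gU (zI kk i) : ℝ)/10^15)) (fun _ => 1/50) 0 174 (by norm_num)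
    (fun k _ _ => by positivity) ?_ ?_
  · have e0 : min (((0:ℕ):ℝ)/50) (Real.sqrt 12) = 0 := by
      rw [Nat.cast_zero, zero_div, min_eq_left (Real.sqrt_nonneg _)]
    have e1 : min (((174:ℕ):ℝ)/50) (Real.sqrt 12) = Real.sqrt 12 := by
      rw [min_eq_right]
      refine hs2.trans ?_
      norm_num
    rw [e0, e1] at key
    refine key.trans (le_of_eq ?_)
    rw [nsum_eq, zero_add, Nat.cast_sum, Finset.sum_div]
    apply Finset.sum_congr rfl
    intro i _
    unfold tI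
    push_cast
    ring
  · intro k _ _
    rcases le_total (((k+1:ℕ):ℝ)/50) (Real.sqrt 12) with h | h
    · rw [min_eq_left h, min_eq_left (le_trans (by push_cast; linarith) h)]
      push_cast; linarith
    · rw [min_eq_right h]
      rcases le_total ((k:ℝ)/50) (Real.sqrt 12) with h2 | h2
      · rw [min_eq_left h2]
        push_cast at h
        linarith
      · rw [min_eq_right h2]; norm_num
  · intro k _ hk x hx1 hx2
    have hx12 : x < Real.sqrt 12 := lt_of_lt_of_le hx2 (min_le_right _ _)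
    have hk50 : (k:ℝ)/50 ≤ Real.sqrt 12 := by
      have : (k:ℝ) ≤ 173 := by exact_mod_cast (by omega : k ≤ 173)
      linarith
    rw [min_eq_left hk50] at hx1
    have hx0 : 0 ≤ x := le_trans (by positivity) hx1.le
    have hz := sqrt12_le_z1
    have hφ0 := (φ_pos hx0 (by linarith)).le
    have hφ1 : φ x ≤ (pU (10*k) : ℝ)/10^12 := by
      refine le_trans (φ_antitone (a := (k:ℝ)/50) (b := x) ⟨by positivity, by linarith⟩
        ⟨hx0, by linarith⟩ hx1.le) ?_
      have := pU_ge (10*k)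
      rw [show ((10*k:ℕ):ℝ)/500 = (k:ℝ)/50 by push_cast; ring] at this
      exact this
    unfold fI
    exact mul_le_mul (pow_le_pow_left₀ hφ0 hφ1 2) (Gm_sub_le (zI_le hx1.le))
      (by have := Gm_ge ((kk:ℝ)/1000 * (s2*x^2/2)); linarith) (by positivity)

lemma int_mid (kk : ℕ) : ∫ u in (Real.sqrt 12)..8, fI kk u ≤ (nsum (tJ kk) 24 104 : ℝ)/10^35 := by
  have key := integral_le_sum (fI_cont kk) (fun j => Real.sqrt ((j:ℝ)/2))
    (fun k => Real.sqrt_le_sqrt (by push_cast; linarith))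
    (fun j => ((Vf j : ℝ)/10^7)^2*((gU (zJ kk j) : ℝ)/10^15)) (fun j => (Dd j : ℝ)/10^6) 24 128 (by norm_num)
    (fun k _ _ => by positivity) (fun k h1 h2 => sqrt_step h1 h2) ?_
  · have e1 : Real.sqrt (((24:ℕ):ℝ)/2) = Real.sqrt 12 := by norm_num
    have e2 : Real.sqrt (((128:ℕ):ℝ)/2) = 8 := by
      rw [show (((128:ℕ):ℝ)/2) = 8^2 by norm_num]
      exact Real.sqrt_sq (by norm_num)
    rw [e1, e2] at key
    refine key.trans (le_of_eq ?_)
    rw [nsum_eq, Nat.cast_sum, Finset.sum_div]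
    apply Finset.sum_congr rfl
    intro i _
    unfold tJ
    push_cast
    ring
  · intro j h24 hj x hx1 hx2
    have hx0 : 0 ≤ x := (Real.sqrt_nonneg _).trans hx1.le
    have h1 : (j:ℝ)/2 ≤ x^2 := by
      have := pow_le_pow_left₀ (Real.sqrt_nonneg _) hx1.le 2
      rwa [Real.sq_sqrt (by positivity)] at this
    have h2 : x^2 ≤ ((j:ℝ)+1)/2 := by
      have := pow_le_pow_left₀ hx0 hx2.le 2
      rw [Real.sq_sqrt (by positivity)] at this
      push_cast at this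
      exact this
    have hφ := V_bound hj hx0 h1 h2
    have hφ2 : φ x^2 ≤ ((Vf j : ℝ)/10^7)^2 := by
      rw [← sq_abs (φ x)]
      exact pow_le_pow_left₀ (abs_nonneg _) hφ 2
    unfold fI
    exact mul_le_mul hφ2 (Gm_sub_le (zJ_le h1))
      (by have := Gm_ge ((kk:ℝ)/1000 * (s2*x^2/2)); linarith) (by positivity)

lemma exp_far {y : ℝ} (hy : 1.8632 ≤ y) : Real.exp (-y) ≤ 0.1572 := by
  have h1 : Real.exp (-y) ≤ Real.exp (-(2:ℝ)) * Real.exp (0.1368) := by
    rw [← Real.exp_add]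
    apply Real.exp_le_exp.2
    linarith
  refine h1.trans ?_
  have h2 : Real.exp (0.1368:ℝ) ≤ 1/(1-0.1368) := Real.exp_bound_div_one_sub_of_interval (by norm_num) (by norm_num)
  have h3 : Real.exp (-(2:ℝ)) ≤ 1/2.7182818283^2 := by
    rw [Real.exp_neg, one_div]
    apply inv_anti₀ (by norm_num)
    have := Real.exp_one_gt_d9
    rw [show (2:ℝ) = 1 + 1 by norm_num, Real.exp_add]
    nlinarith
  calc Real.exp (-(2:ℝ)) * Real.exp 0.1368 ≤ (1/2.7182818283^2)*(1/(1-0.1368)) :=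
        mul_le_mul h3 h2 (Real.exp_pos _).le (by norm_num)
    _ ≤ 0.1572 := by norm_num

lemma HG_le {kk : ℕ} (h200 : 200 ≤ kk) : HG ((kk:ℝ)/1000) ≤ 0.1572 * A2 +
    ((nsum (tI kk) 0 174 : ℝ)/(50*10^39) + (nsum (tJ kk) 24 104 : ℝ)/10^35) := by
  have hk : (0:ℝ) ≤ (kk:ℝ)/1000 := by positivity
  have hi := (HG_integrable hk).integrableOn (s := Ioi (0:ℝ))
  have hi2 := φ_sq_integrable.integrableOn (s := Ioi (0:ℝ))
  have hsub : IntegrableOn (fI kk) (Ioi (0:ℝ)) := by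
    have : fI kk = fun u => φ u^2 * Gm ((kk:ℝ)/1000 * (s2*u^2/2)) - 0.1572*(φ u^2) := by
      ext u; unfold fI; ring
    rw [this]
    exact hi.sub (hi2.const_mul _)
  have e : HG ((kk:ℝ)/1000) = 0.1572 * A2 + ∫ u in Ioi (0:ℝ), fI kk u := by
    unfold HG A2
    rw [← integral_const_mul, ← integral_add (hi2.const_mul _) hsub]
    apply integral_congr_ae
    apply Filter.Eventually.of_forall
    intro u
    simp only [fI]
    ring
  rw [e]
  have h8 : ∫ u in Ioi (8:ℝ), fI kk u = 0 := by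
    rw [setIntegral_congr_fun (g := fun _ => (0:ℝ)) measurableSet_Ioi]
    · simp
    · intro u hu
      have hu8 : (8:ℝ) < u := hu
      have hkk : (200:ℝ) ≤ kk := by exact_mod_cast h200
      have h2 := A1_le
      unfold A1 at h2
      push_cast at h2
      have h3 : (64:ℝ) ≤ u^2 := by nlinarith
      have h4 : 1.8632 ≤ (kk:ℝ)/1000 * (s2*u^2/2) := by
        have h5 : (14556254:ℝ)/10^8*64 ≤ s2*u^2/2 := by
          calc (14556254:ℝ)/10^8*64 ≤ (s2/2)*u^2 := mul_le_mul h2 h3 (by norm_num) (by have := s2_pos; positivity)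
            _ = s2*u^2/2 := by ring
        calc (1.8632:ℝ) ≤ (200/1000)*((14556254:ℝ)/10^8*64) := by norm_num
          _ ≤ (kk:ℝ)/1000 * (s2*u^2/2) := by
            apply mul_le_mul _ h5 (by norm_num) hk
            linarith
      have h6 : Gm ((kk:ℝ)/1000 * (s2*u^2/2)) = 0.1572 := max_eq_right (exp_far h4)
      simp only [fI, h6]
      ring
  have h12 : Real.sqrt 12 ≤ 8 := by have := sqrt12_bounds.2; linarith
  have e8 : ∫ u in Ioi (0:ℝ), fI kk u = (∫ u in (0:ℝ)..8, fI kk u) + ∫ u in Ioi (8:ℝ), fI kk u := by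
    rw [intervalIntegral.integral_interval_add_Ioi hsub
      (hsub.mono_set (Ioi_subset_Ioi (by norm_num)))]
  have e12 : ∫ u in (0:ℝ)..8, fI kk u = (∫ u in (0:ℝ)..(Real.sqrt 12), fI kk u) + ∫ u in (Real.sqrt 12)..8, fI kk u :=
    (intervalIntegral.integral_add_adjacent_intervals ((fI_cont kk).intervalIntegrable _ _)
      ((fI_cont kk).intervalIntegrable _ _)).symm
  rw [e8, h8, e12]
  have := int_low kk
  have := int_mid kk
  linarith

lemma HG_200 (hA2 : 1.6024 ≤ A2) : HG 0.2 ≤ 0.95 * A2 := by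
  have h := HG_le (kk := 200) le_rfl
  rw [show (((200:ℕ):ℝ)/1000) = 0.2 by norm_num] at h
  have h2 := (Nat.cast_le (α := ℝ)).2 num200
  push_cast at h2
  generalize (nsum (tI 200) 0 174 : ℝ) = x at *
  generalize (nsum (tJ 200) 24 104 : ℝ) = y at *
  have e : x/(50*10^39) + y/10^35 = (x*2 + y*10^6)/10^41 := by ring
  rw [e] at h
  have h3 : (x*2 + y*10^6)/10^41 ≤ 1.265 := by
    rw [div_le_iff₀ (by norm_num)]
    linarith
  linarith

lemma HG_500 (hA2 : 1.6024 ≤ A2) : HG 0.5 ≤ 0.893 * A2 := by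
  have h := HG_le (kk := 500) (by norm_num)
  rw [show (((500:ℕ):ℝ)/1000) = 0.5 by norm_num] at h
  have h2 := (Nat.cast_le (α := ℝ)).2 num500
  push_cast at h2
  generalize (nsum (tI 500) 0 174 : ℝ) = x at *
  generalize (nsum (tJ 500) 24 104 : ℝ) = y at *
  have e : x/(50*10^39) + y/10^35 = (x*2 + y*10^6)/10^41 := by ring
  rw [e] at h
  have h3 : (x*2 + y*10^6)/10^41 ≤ 1.178 := by
    rw [div_le_iff₀ (by norm_num)]
    linarith
  linarith

theorem Dir.regI (h : Dir θ i0 i1) (hA2 : 1.6024 ≤ A2) (hs : 2/5 ≤ (θ i0)^2) :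
    ∫ t in Ioi (0:ℝ), ∏ i, φ (θ i * t) ≤ Real.sqrt 2 * A2 := by
  have ha := h.a_pos
  refine h.le_HG.trans ?_
  have hs2 := h.s_le
  set k := 1/(θ i0)^2 - 2 with hk
  have hk0 : 0 ≤ k := by
    rw [hk, sub_nonneg, le_div_iff₀ (by positivity)]; linarith
  have hk5 : k ≤ 1/2 := by
    rw [hk, sub_le_iff_le_add, div_le_iff₀ (by positivity)]; linarith
  have hA0 : 0 < A2 := by linarith
  have hinv : (1/θ i0)^2 = k + 2 := by rw [hk]; ring
  -- it suffices to bound `HG k` by `l A2` with `(k+2) l^2 ≤ 2`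
  have fin : ∀ l : ℝ, 0 ≤ l → HG k ≤ l * A2 → (k+2)*l^2 ≤ 2 → (1/θ i0) * HG k ≤ Real.sqrt 2 * A2 := by
    intro l hl h1 h2
    have h3 : (1/θ i0) * l ≤ Real.sqrt 2 := by
      apply Real.le_sqrt_of_sq_le
      rw [mul_pow, hinv]
      exact h2
    calc (1/θ i0) * HG k ≤ (1/θ i0) * (l * A2) := mul_le_mul_of_nonneg_left h1 (by positivity)
      _ = ((1/θ i0) * l) * A2 := by ring
      _ ≤ Real.sqrt 2 * A2 := mul_le_mul_of_nonneg_right h3 hA0.le
  rcases le_total k 0.2 with h2 | h2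
  · have hc := HG_conv (a := 0) (b := 0.2) (l := 5*k) le_rfl (by norm_num) (by linarith) (by linarith)
    rw [show (1-5*k)*0 + 5*k*0.2 = k by ring, HG_zero] at hc
    have hb := mul_le_mul_of_nonneg_left (HG_200 hA2) (by linarith : 0 ≤ 5*k)
    apply fin (1 - k/4) (by linarith)
    · linarith
    · have e : (k+2)*(1-k/4)^2 = 2 - k^2*(3/8 - k/16) := by ring
      rw [e]
      have : 0 ≤ k^2*(3/8 - k/16) := mul_nonneg (sq_nonneg _) (by linarith)
      linarith
  · have hc := HG_conv (a := 0.2) (b := 0.5) (l := (k-0.2)/0.3) (by norm_num) (by norm_num)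
      (by apply div_nonneg _ (by norm_num); linarith)
      (by rw [div_le_one (by norm_num)]; linarith)
    rw [show (1-(k-0.2)/0.3)*0.2 + (k-0.2)/0.3*0.5 = k by ring] at hc
    have hb1 := mul_le_mul_of_nonneg_left (HG_200 hA2)
      (by rw [sub_nonneg, div_le_one (by norm_num)]; linarith : 0 ≤ 1-(k-0.2)/0.3)
    have hb2 := mul_le_mul_of_nonneg_left (HG_500 hA2)
      (by apply div_nonneg _ (by norm_num); linarith : 0 ≤ (k-0.2)/0.3)
    apply fin (0.988 - 0.19*k) (by linarith)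
    · refine (hc.trans (add_le_add hb1 hb2)).trans (le_of_eq ?_)
      ring
    · have e : 2 - (k+2)*(0.988-0.19*k)^2 = (k-0.4)^2*(0.27436 - 0.0361*k) + 0.0038144 := by ring
      have : 0 ≤ (k-0.4)^2*(0.27436 - 0.0361*k) := mul_nonneg (sq_nonneg _) (by linarith)
      linarith

end Helper64.CubeGauss
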