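import Mathlib

/-! The scale `10^15` of the integer arithmetic. -/

namespace Helper64.CubeGauss

/-- the scale `10^15` -/
def SC : ℕ := 1000000000000000

lemma SC_cast : ((SC : ℕ) : ℝ) = 10^15 := by unfold SC; norm_num

attribute [irreducible] SC

end Helper64.CubeGauss
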