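import Pool.Agent.Helper64.CubeGauss.Env
import Pool.Agent.Helper64.CubeGauss.Sc

/-! The star-shaped exponential envelope `|φ u| ≤ exp (- sr (u²) u²)` with `sr` nonincreasing. -/

namespace Helper64.CubeGauss

open MeasureTheory intervalIntegral Set Finset

def SL : List ℕ := [
  145562, 145562, 145562, 145562, 145562, 145562, 145562, 145562, 145562, 145562, 145562,
  145562, 145562, 145562, 145562, 145562, 145562, 145562, 145562, 145562, 145562, 145562,
  145562, 145562, 145562, 145562, 145562, 145562, 145562, 145562, 145562, 144797, 135416,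
  127419, 120530, 114550, 109326, 104738, 100693, 97115, 93942, 91125, 88619, 86392, 84411,
  82577, 80895, 79406, 78093, 76940, 75933, 75063, 74319, 73692, 73176, 72764, 72452, 72235,
  72110, 72075, 72075, 72075, 72075, 72075, 72075, 72075, 72075, 72075, 72075, 72075, 72075,
  72075, 72075, 72075, 72075, 72075, 72075, 72075, 72075, 72075, 72075, 72075, 72075, 72075,
  72075, 72075, 72075, 72075, 72075, 72075, 72075, 72075, 69540, 67046, 64789, 62734, 60852,
  59121, 57523, 56043, 54668, 53389, 52196, 51080, 50037, 49059, 48141, 47280, 46471, 45710,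
  44994, 44320, 43686, 43089, 42528, 41999, 41503, 41036, 40597, 40185, 39799, 39437, 39099,
  38784, 38473, 38184, 37916, 37667]

def Sf (j : ℕ) : ℕ := SL.getD j 0

def sqIter : ℕ → ℕ → ℕ
  | 0, a => a
  | n+1, a => sqIter n (a^2/SC)

lemma sqIter_spec (n a : ℕ) : (sqIter n a : ℝ)/SC ≤ ((a:ℝ)/SC)^(2^n) := by
  induction n generalizing a with
  | zero => simp [sqIter]
  | succ n ih =>
    rw [sqIter]
    refine (ih _).trans ?_
    rw [pow_succ' 2 n, pow_mul]
    apply pow_le_pow_left₀ (by positivity)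
    have h : ((a^2/SC : ℕ) : ℝ) ≤ ((a^2 : ℕ):ℝ)/((SC : ℕ):ℝ) := Nat.cast_div_le
    have : ((a:ℝ)/SC)^2 = (((a^2:ℕ):ℝ)/SC)/SC := by push_cast; ring
    rw [this]
    exact div_le_div_of_nonneg_right h (by positivity)

/-- `⌈ z 10^15/4096 ⌉` with `z = Sf j/10^6 * (j+1)/2` -/
def zS (j : ℕ) : ℕ := Sf j * (j+1) * 1000000000/8192 + 1

def ckS (j : ℕ) : Bool :=
  decide (Sf (j+1) ≤ Sf j) && decide (Sf j ≤ 145562) &&
  (decide (j < 24) || decide (Vf j * 100000000 ≤ sqIter 12 (SC - zS j)))
  && decide (zS j ≤ SC)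

lemma ckS_all : (List.range 128).all ckS = true := by decide +kernel

lemma S_small {j : ℕ} (hj : j < 24) : Sf j = 145562 := by
  have : ∀ j < 24, Sf j = 145562 := by decide +kernel
  exact this j hj

lemma S_127 : Sf 127 = 37667 := by decide +kernel

attribute [irreducible] sqIter zS Sf
attribute [local irreducible] Vf

lemma S_anti {i j : ℕ} (hij : i ≤ j) (hj : j < 129) : Sf j ≤ Sf i := by
  induction j, hij using Nat.le_induction with
  | base => exact le_rfl
  | succ k hk ih =>
    have h := List.all_eq_true.1 ckS_all k (List.mem_range.2 (by omega))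
    unfold ckS at h
    simp only [Bool.and_eq_true, decide_eq_true_eq] at h
    exact h.1.1.1.trans (ih (by omega))

lemma zS_ge (j : ℕ) : (Sf j : ℝ)/10^6 * (((j:ℝ)+1)/2) * 10^15/4096 ≤ (zS j : ℝ) := by
  unfold zS
  have h4 : Sf j * (j+1) * 1000000000 < (Sf j * (j+1) * 1000000000/8192 + 1) * 8192 :=
    Nat.lt_mul_of_div_lt (Nat.lt_succ_self _) (by norm_num)
  have h5 : ((Sf j * (j+1) * 1000000000 : ℕ):ℝ) ≤
      (((Sf j * (j+1) * 1000000000/8192 + 1) * 8192 : ℕ):ℝ) := by exact_mod_cast h4.le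
  rw [Nat.cast_mul (Sf j * (j+1) * 1000000000/8192 + 1) 8192] at h5
  rw [Nat.cast_mul, Nat.cast_mul] at h5
  push_cast at h5
  push_cast
  linarith

lemma V_le_exp {j : ℕ} (h24 : 24 ≤ j) (hj : j < 128) :
    (Vf j : ℝ)/10^7 ≤ Real.exp (-((Sf j : ℝ)/10^6 * (((j:ℝ)+1)/2))) := by
  have h := List.all_eq_true.1 ckS_all j (List.mem_range.2 hj)
  unfold ckS at h
  have h24' : ¬ (j < 24) := by omega
  simp only [Bool.and_eq_true, decide_eq_true_eq, Bool.or_eq_true, h24', false_or] at h
  obtain ⟨⟨_, h2⟩, h3⟩ := h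
  have hzm := zS_ge j
  have hsq := sqIter_spec 12 (SC - zS j)
  have hm15 : ((zS j : ℕ):ℝ) ≤ (SC:ℝ) := by exact_mod_cast h3
  have hsub : ((SC - zS j : ℕ) : ℝ) = (SC:ℝ) - ((zS j : ℕ):ℝ) := Nat.cast_sub h3
  have h7 : ((Vf j * 100000000 : ℕ):ℝ) ≤ ((sqIter 12 (SC - zS j) : ℕ) : ℝ) := by exact_mod_cast h2
  rw [hsub] at hsq
  rw [Nat.cast_mul] at h7
  generalize ((sqIter 12 (SC - zS j) : ℕ) : ℝ) = Q at *
  generalize ((zS j : ℕ) : ℝ) = m at *
  rw [SC_cast] at *
  set z : ℝ := (Sf j : ℝ)/10^6 * (((j:ℝ)+1)/2) with hz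
  have h6 : (Vf j : ℝ)/10^7 ≤ ((10^15 - m)/10^15)^(2^12) := by
    refine le_trans ?_ hsq
    rw [div_le_div_iff₀ (by positivity) (by positivity)]
    push_cast at h7
    nlinarith
  refine h6.trans ?_
  clear h6 hsq
  have hz0 : 0 ≤ z := by positivity
  have hz1 : z ≤ 4096 := by
    by_contra hcon
    have hcon' := not_le.1 hcon
    have : (10:ℝ)^15 < z * 10^15/4096 := by nlinarith only [hcon']
    linarith only [this, hzm, hm15]
  have h8 := Real.one_sub_div_pow_le_exp_neg (n := 4096) (t := z) (by exact_mod_cast hz1)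
  refine le_trans ?_ h8
  have h12 : (2:ℕ)^12 = 4096 := by norm_num
  rw [h12]
  have ha : 0 ≤ (10^15 - m)/10^15 := by
    apply div_nonneg _ (by positivity)
    linarith only [hm15]
  have hb : (10^15 - m)/10^15 ≤ 1 - z/((4096:ℕ):ℝ) := by
    have hc4 : ((4096:ℕ):ℝ) = 4096 := by norm_num
    rw [hc4, div_le_iff₀ (by positivity)]
    have : (1 - z/4096) * 10^15 = 10^15 - z*10^15/4096 := by ring
    rw [this]
    linarith only [hzm]
  exact pow_le_pow_left₀ ha hb 4096

/-- nonincreasing slope -/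
noncomputable def sr (x : ℝ) : ℝ :=
  if x < 64 then (Sf ⌊2*x⌋₊ : ℝ)/10^6 else Real.log (Real.sqrt x/0.7209)/x

lemma sr_pos {x : ℝ} (hx : 0 ≤ x) : 0 < sr x := by
  unfold sr
  split_ifs with h
  · have hfl : ⌊2*x⌋₊ < 128 := by
      rw [Nat.floor_lt (by linarith)]
      push_cast; linarith
    have h1 := S_anti (i := ⌊2*x⌋₊) (j := 127) (by omega) (by norm_num)
    rw [S_127] at h1
    have : (37667:ℝ) ≤ Sf ⌊2*x⌋₊ := by exact_mod_cast h1
    positivity
  · have h := not_lt.1 h
    apply div_pos _ (by linarith)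
    apply Real.log_pos
    rw [lt_div_iff₀ (by norm_num)]
    have : (8:ℝ) ≤ Real.sqrt x := by
      apply Real.le_sqrt_of_sq_le; linarith
    linarith

lemma log8_bound : Real.log (8/0.7209) ≤ 2.41 ∧ 2.4066 ≤ Real.log (8/0.7209) := by
  constructor
  · rw [Real.log_le_iff_le_exp (by norm_num)]
    have h := Real.exp_one_gt_d9
    have e : Real.exp 2.41 = Real.exp 1 * Real.exp 1 * Real.exp 0.41 := by
      rw [← Real.exp_add, ← Real.exp_add]; norm_num
    have h2 : 1.5067 ≤ Real.exp 0.41 := by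
      refine le_trans ?_ (Real.sum_le_exp_of_nonneg (by norm_num) 6)
      simp only [Finset.sum_range_succ, Finset.sum_range_zero, Nat.factorial]
      norm_num
    rw [e]
    have h3 : (2.7182818283:ℝ) * 2.7182818283 ≤ Real.exp 1 * Real.exp 1 := by nlinarith
    have h4 : (2.7182818283:ℝ) * 2.7182818283 * 1.5067 ≤
        Real.exp 1 * Real.exp 1 * Real.exp 0.41 := by
      apply mul_le_mul h3 h2 (by norm_num) (by positivity)
    refine le_trans ?_ h4
    norm_num
  · rw [Real.le_log_iff_exp_le (by norm_num)]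
    have e : Real.exp 2.4066 = Real.exp 1 * Real.exp 1 * Real.exp 0.4066 := by
      rw [← Real.exp_add, ← Real.exp_add]; norm_num
    have h := Real.exp_one_lt_d9
    have h0 := Real.exp_pos 1
    have h2 := Real.exp_bound' (x := 0.4066) (by norm_num) (by norm_num) (n := 8) (by norm_num)
    have h3 : Real.exp 0.4066 ≤ 1.50171 := by
      refine h2.trans ?_
      simp only [Finset.sum_range_succ, Finset.sum_range_zero, Nat.factorial]
      norm_num
    rw [e]
    have h4 : Real.exp 1 * Real.exp 1 ≤ 2.7182818286 * 2.7182818286 := by nlinarith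
    have h5 : Real.exp 1 * Real.exp 1 * Real.exp 0.4066 ≤ 2.7182818286 * 2.7182818286 * 1.50171 := by
      apply mul_le_mul h4 h3 (Real.exp_pos _).le (by norm_num)
    refine h5.trans ?_
    norm_num

lemma sr_anti {x y : ℝ} (hx : 0 ≤ x) (hxy : x ≤ y) : sr y ≤ sr x := by
  have hlow : ∀ z : ℝ, 0 ≤ z → z < 64 → (37667:ℝ)/10^6 ≤ (Sf ⌊2*z⌋₊ : ℝ)/10^6 := by
    intro z hz0 hz
    have hfl : ⌊2*z⌋₊ < 128 := by
      rw [Nat.floor_lt (by linarith)]
      push_cast; linarith
    have h1 := S_anti (i := ⌊2*z⌋₊) (j := 127) (by omega) (by norm_num)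
    rw [S_127] at h1
    have : (37667:ℝ) ≤ Sf ⌊2*z⌋₊ := by exact_mod_cast h1
    exact div_le_div_of_nonneg_right this (by norm_num)
  have hfar : ∀ z w : ℝ, 64 ≤ z → z ≤ w → Real.log (Real.sqrt w/0.7209)/w ≤ Real.log (Real.sqrt z/0.7209)/z := by
    intro z w hz hzw
    have hz0 : 0 < z := by linarith
    have hw0 : 0 < w := by linarith
    have hlog : ∀ v : ℝ, 0 < v → Real.log (Real.sqrt v/0.7209)/v =
        (1/(2*0.7209^2)) * (Real.log (v/0.7209^2)/(v/0.7209^2)) := by
      intro v hv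
      have e : v/0.7209^2 = (Real.sqrt v/0.7209)^2 := by rw [div_pow, Real.sq_sqrt hv.le]
      rw [e, Real.log_pow]
      have hs : Real.sqrt v ≠ 0 := (Real.sqrt_pos.2 hv).ne'
      have hv2 : (Real.sqrt v)^2 = v := Real.sq_sqrt hv.le
      rw [div_pow, hv2]
      field_simp
      norm_num
    rw [hlog w hw0, hlog z hz0]
    apply mul_le_mul_of_nonneg_left _ (by norm_num)
    have he := Real.exp_one_lt_d9
    apply Real.log_div_self_antitoneOn
    · change Real.exp 1 ≤ _
      rw [le_div_iff₀ (by norm_num)]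
      nlinarith
    · change Real.exp 1 ≤ _
      rw [le_div_iff₀ (by norm_num)]
      nlinarith
    · exact div_le_div_of_nonneg_right hzw (by norm_num)
  unfold sr
  split_ifs with h1 h2 h2
  · have hfl : ⌊2*y⌋₊ < 128 := by
      rw [Nat.floor_lt (by linarith)]
      push_cast; linarith
    have hm : ⌊2*x⌋₊ ≤ ⌊2*y⌋₊ := Nat.floor_mono (by linarith)
    have := S_anti hm (by omega)
    have h3 : (Sf ⌊2*y⌋₊ : ℝ) ≤ Sf ⌊2*x⌋₊ := by exact_mod_cast this
    exact div_le_div_of_nonneg_right h3 (by norm_num)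
  · linarith
  · have h1 := not_lt.1 h1
    refine le_trans (hfar 64 y le_rfl h1) ?_
    refine le_trans ?_ (hlow x hx h2)
    have : Real.sqrt 64 = 8 := by
      rw [show (64:ℝ) = 8^2 by norm_num]; exact Real.sqrt_sq (by norm_num)
    rw [this]
    have := log8_bound.1
    rw [div_le_iff₀ (by norm_num)]
    linarith
  · have h2 := not_lt.1 h2
    exact hfar x y h2 hxy

lemma env_bound {u : ℝ} (hu : 0 ≤ u) : |φ u| ≤ Real.exp (-(sr (u^2) * u^2)) := by
  unfold sr
  split_ifs with h
  · set j := ⌊2*u^2⌋₊ with hj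
    have hj1 : (j:ℝ) ≤ 2*u^2 := Nat.floor_le (by positivity)
    have hj2 : 2*u^2 < (j:ℝ)+1 := Nat.lt_floor_add_one _
    have hj128 : j < 128 := by
      rw [hj, Nat.floor_lt (by positivity)]
      push_cast; linarith
    by_cases h24 : j < 24
    · rw [S_small h24]
      have hj' : ((j:ℝ)+1) ≤ 24 := by exact_mod_cast h24
      have hz := z1_gt
      have hult : u < 3.494 := by nlinarith
      rw [abs_of_pos (φ_pos hu (hult.trans hz))]
      refine (φ_le_exp hu (by linarith)).trans ?_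
      apply Real.exp_le_exp.2
      unfold Λ
      have hs := s2_bounds.1
      have h4 := c4_bounds.1
      have h6 : 0 < c6 := by unfold c6; norm_num
      have p4 : 0 ≤ c4 * u^4 := by
        apply mul_nonneg _ (by positivity); linarith
      have p6 : 0 ≤ c6 * u^6 := by positivity
      push_cast
      nlinarith [sq_nonneg u]
    · refine (V_bound hj128 hu (by linarith) (by linarith)).trans ?_
      refine (V_le_exp (by omega) hj128).trans ?_
      apply Real.exp_le_exp.2
      apply neg_le_neg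
      apply mul_le_mul_of_nonneg_left _ (by positivity)
      linarith
  · have h := not_lt.1 h
    have hu8 : 8 ≤ u := by nlinarith
    have hu0 : 0 < u := by linarith
    rw [Real.sqrt_sq hu]
    have e : Real.log (u/0.7209)/u^2 * u^2 = Real.log (u/0.7209) := by field_simp
    rw [e, Real.exp_neg, Real.exp_log (by positivity)]
    refine (far_bound hu8).trans (le_of_eq ?_)
    field_simp

/-- the star-shaped bound for products -/
lemma prod_env {ι : Type*} (S : Finset ι) (ρ : ι → ℝ) {μ : ℝ} (h0 : ∀ i ∈ S, 0 ≤ ρ i)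
    (h1 : ∀ i ∈ S, ρ i ≤ μ) {u : ℝ} (hu : 0 ≤ u) :
    |∏ i ∈ S, φ (Real.sqrt (ρ i) * u)| ≤ Real.exp (-(sr (μ*u^2) * ((∑ i ∈ S, ρ i) * u^2))) := by
  rw [Finset.abs_prod]
  have e : -(sr (μ*u^2) * ((∑ i ∈ S, ρ i) * u^2)) = ∑ i ∈ S, -(sr (μ*u^2) * (ρ i * u^2)) := by
    rw [Finset.sum_neg_distrib, ← Finset.mul_sum, Finset.sum_mul]
  rw [e, Real.exp_sum]
  apply Finset.prod_le_prod
  · intro i _; exact abs_nonneg _
  · intro i hi
    refine (env_bound (mul_nonneg (Real.sqrt_nonneg _) hu)).trans ?_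
    rw [mul_pow, Real.sq_sqrt (h0 i hi)]
    apply Real.exp_le_exp.2
    apply neg_le_neg
    apply mul_le_mul_of_nonneg_right
    · exact sr_anti (by have := h0 i hi; positivity) (mul_le_mul_of_nonneg_right (h1 i hi) (sq_nonneg u))
    · have := h0 i hi; positivity

end Helper64.CubeGauss
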