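import Pool.Agent.Helper64.CubeGauss.HighC
import Pool.Agent.Helper64.CubeGauss.Upper

/-! Verified table of bounds for `|φ (√x)|`, `0 ≤ x ≤ 64`. -/

namespace Helper64.CubeGauss

open MeasureTheory intervalIntegral Set Finset

/-- `|φ (√(j/2))| ≤ WL[j] / 10^7` -/
def WL : List ℕ := [
  10000002, 9289128, 8611361, 7965563, 7350630, 6765485, 6209084, 5680408, 5178468, 4702304,
  4250979, 3823586, 3419242, 3037089, 2676292, 2336044, 2015557, 1714068, 1430836, 1165142,
  916287, 683594, 466406, 264085, 76013, 98412, 259766, 408614, 545502, 670959, 785496, 889610,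
  983780, 1068471, 1144132, 1211198, 1270090, 1321214, 1364963, 1401717, 1431843, 1455695,
  1473615, 1485934, 1492970, 1495031, 1492413, 1485401, 1474271, 1459287, 1440706, 1418773,
  1393723, 1365785, 1335177, 1302109, 1266782, 1229390, 1190118, 1149144, 1106639, 1062766,
  1017682, 971536, 924470, 876622, 828122, 779093, 729655, 679921, 629997, 579986, 529984,
  480083, 430371, 380929, 331837, 283166, 234986, 187363, 140357, 94026, 48423, 3599, 40403,
  83533, 125754, 167030, 207327, 246612, 284859, 322040, 358133, 393118, 426975, 459690, 491247,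
  521636, 550846, 578869, 605701, 631336, 655771, 679007, 701044, 721883, 741529, 759987,
  777261, 793361, 808294, 822070, 834700, 846195, 856569, 865833, 874004, 881095, 887122,
  892103, 896054, 898993, 900938, 901908, 901922, 901000, 899162, 896428, 892820]

def Wf (j : ℕ) : ℕ := WL.getD j 0

def ckW (j : ℕ) : Bool :=
  ckU cN0 j (Wf j) && ckU cN1 j (Wf j) && (decide (j < 24) || (ckL cN0 j (Wf j) && ckL cN1 j (Wf j)))

lemma ckW_all : (List.range 129).all ckW = true := by decide +kernel

lemma W_upper {j : ℕ} (hj : j < 129) : φ (Real.sqrt ((j:ℝ)/2)) ≤ (Wf j : ℝ) / 10^7 := by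
  have h := List.all_eq_true.1 ckW_all j (List.mem_range.2 hj)
  unfold ckW at h
  simp only [Bool.and_eq_true] at h
  have := upper_of_ck (j := (j:ℤ)) (W := (Wf j : ℤ)) (by positivity) h.1.1 h.1.2
  simpa using this

lemma W_lower {j : ℕ} (h24 : 24 ≤ j) (hj : j < 129) : -((Wf j : ℝ) / 10^7) ≤ φ (Real.sqrt ((j:ℝ)/2)) := by
  have h := List.all_eq_true.1 ckW_all j (List.mem_range.2 hj)
  unfold ckW at h
  have h24' : ¬ (j < 24) := by omega
  simp only [Bool.and_eq_true, Bool.or_eq_true, decide_eq_true_eq, h24', false_or] at h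
  have := lower_of_ck (j := (j:ℤ)) (W := (Wf j : ℤ)) (by positivity) h.2.1 h.2.2
  simpa using this

/-! ### convexity -/

lemma convex_cos_sq : ConvexOn ℝ Set.univ (fun y : ℝ => Real.cos y + y^2/2) := by
  apply MonotoneOn.convexOn_of_deriv convex_univ
  · fun_prop
  · exact (by fun_prop : Differentiable ℝ fun y : ℝ => Real.cos y + y^2/2).differentiableOn
  · have hd : ∀ y : ℝ, HasDerivAt (fun y : ℝ => Real.cos y + y^2/2) (-Real.sin y + y) y := by
      intro y
      have := (Real.hasDerivAt_cos y).add ((hasDerivAt_pow 2 y).div_const 2)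
      exact this.congr_deriv (by norm_num)
    have hmono : Monotone (fun y : ℝ => -Real.sin y + y) := by
      apply monotone_of_deriv_nonneg
      · fun_prop
      · intro y
        have : HasDerivAt (fun y : ℝ => -Real.sin y + y) (-Real.cos y + 1) y :=
          ((Real.hasDerivAt_sin y).neg).add (hasDerivAt_id y)
        rw [this.deriv]
        linarith [Real.cos_le_one y]
    intro a _ b _ hab
    rw [(hd a).deriv, (hd b).deriv]
    exact hmono hab

lemma convex_neg_cos_sq : ConvexOn ℝ Set.univ (fun y : ℝ => -Real.cos y + y^2/2) := by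
  apply MonotoneOn.convexOn_of_deriv convex_univ
  · fun_prop
  · exact (by fun_prop : Differentiable ℝ fun y : ℝ => -Real.cos y + y^2/2).differentiableOn
  · have hd : ∀ y : ℝ, HasDerivAt (fun y : ℝ => -Real.cos y + y^2/2) (Real.sin y + y) y := by
      intro y
      have := ((Real.hasDerivAt_cos y).neg).add ((hasDerivAt_pow 2 y).div_const 2)
      exact this.congr_deriv (by norm_num)
    have hmono : Monotone (fun y : ℝ => Real.sin y + y) := by
      apply monotone_of_deriv_nonneg
      · fun_prop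
      · intro y
        have : HasDerivAt (fun y : ℝ => Real.sin y + y) (Real.cos y + 1) y :=
          ((Real.hasDerivAt_sin y)).add (hasDerivAt_id y)
        rw [this.deriv]
        linarith [Real.neg_one_le_cos y]
    intro a _ b _ hab
    rw [(hd a).deriv, (hd b).deriv]
    exact hmono hab

lemma int_add_sq (ε t : ℝ) :
    ∫ x in (-1 : ℝ)..1, (ε * Real.cos (t*x) + (t*x)^2/2) * g x = P * (ε * φ t + s2 * t^2/2) := by
  have e : ∀ x, (ε * Real.cos (t*x) + (t*x)^2/2) * g x
      = ε * (Real.cos (t*x) * g x) + (t^2/2) * (x^(2*1) * g x) := by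
    intro x; ring
  simp_rw [e]
  rw [intervalIntegral.integral_add
    ((by have := g_cont; fun_prop : Continuous fun x => ε * (Real.cos (t*x) * g x)).intervalIntegrable _ _)
    ((by have := g_cont; fun_prop : Continuous fun x => (t^2/2) * (x^(2*1) * g x)).intervalIntegrable _ _),
    intervalIntegral.integral_const_mul, intervalIntegral.integral_const_mul]
  have h1 : ∫ x in (-1 : ℝ)..1, Real.cos (t*x) * g x = P * φ t := by
    unfold φ; field_simp [P_pos.ne']
  have h2 : ∫ x in (-1 : ℝ)..1, x^(2*1) * g x = P * s2 := by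
    have : mom 1 = s2 := by rw [mom1]; rfl
    rw [← this]; unfold mom; field_simp [P_pos.ne']
  rw [h1, h2]; ring

lemma φ_convex_aux {ε : ℝ} (hε : ConvexOn ℝ Set.univ (fun y : ℝ => ε * Real.cos y + y^2/2))
    {a b θ : ℝ} (h0 : 0 ≤ θ) (h1 : θ ≤ 1) :
    ε * φ (θ*a + (1-θ)*b) + s2 * (θ*a + (1-θ)*b)^2/2 ≤
      θ * (ε * φ a + s2 * a^2/2) + (1-θ) * (ε * φ b + s2 * b^2/2) := by
  have key : P * (ε * φ (θ*a + (1-θ)*b) + s2 * (θ*a + (1-θ)*b)^2/2) ≤
      θ * (P * (ε * φ a + s2 * a^2/2)) + (1-θ) * (P * (ε * φ b + s2 * b^2/2)) := by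
    rw [← int_add_sq, ← int_add_sq, ← int_add_sq, ← intervalIntegral.integral_const_mul,
      ← intervalIntegral.integral_const_mul, ← intervalIntegral.integral_add]
    · apply intervalIntegral.integral_mono_on (by norm_num)
      · exact (by have := g_cont; fun_prop : Continuous fun x =>
          (ε * Real.cos ((θ*a + (1-θ)*b)*x) + ((θ*a + (1-θ)*b)*x)^2/2) * g x).intervalIntegrable _ _
      · exact (by have := g_cont; fun_prop : Continuous fun x =>
          θ * ((ε * Real.cos (a*x) + (a*x)^2/2) * g x) +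
          (1-θ) * ((ε * Real.cos (b*x) + (b*x)^2/2) * g x)).intervalIntegrable _ _
      · intro x _
        have h := hε.2 (Set.mem_univ (a*x)) (Set.mem_univ (b*x)) h0 (sub_nonneg.2 h1) (by ring)
        simp only [smul_eq_mul] at h
        have hg := (g_pos x).le
        have e1 : θ * (a*x) + (1-θ)*(b*x) = (θ*a + (1-θ)*b)*x := by ring
        rw [e1] at h
        nlinarith [mul_le_mul_of_nonneg_right h hg]
    · exact (by have := g_cont; fun_prop : Continuous fun x =>
          θ * ((ε * Real.cos (a*x) + (a*x)^2/2) * g x)).intervalIntegrable _ _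
    · exact (by have := g_cont; fun_prop : Continuous fun x =>
          (1-θ) * ((ε * Real.cos (b*x) + (b*x)^2/2) * g x)).intervalIntegrable _ _
  have hP := P_pos
  have : P * (ε * φ (θ*a + (1-θ)*b) + s2 * (θ*a + (1-θ)*b)^2/2) ≤
      P * (θ * (ε * φ a + s2 * a^2/2) + (1-θ) * (ε * φ b + s2 * b^2/2)) := by linarith
  exact le_of_mul_le_mul_left this hP

lemma s2_pos : 0 < s2 := by have := s2_bounds; linarith

/-- bound between two grid points -/
lemma abs_φ_le_of_ends {a b u M : ℝ} (hab : a < b) (hau : a ≤ u) (hub : u ≤ b)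
    (ha : |φ a| ≤ M) (hb : |φ b| ≤ M) : |φ u| ≤ M + s2 * (b-a)^2/8 := by
  set θ := (b-u)/(b-a) with hθ
  have hba : 0 < b - a := by linarith
  have h0 : 0 ≤ θ := div_nonneg (by linarith) hba.le
  have h1 : θ ≤ 1 := by rw [hθ, div_le_one hba]; linarith
  have hu : θ*a + (1-θ)*b = u := by rw [hθ]; field_simp; ring
  have c1 : ConvexOn ℝ Set.univ (fun y : ℝ => (1:ℝ) * Real.cos y + y^2/2) := by
    simpa using convex_cos_sq
  have c2 : ConvexOn ℝ Set.univ (fun y : ℝ => (-1:ℝ) * Real.cos y + y^2/2) := by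
    simpa using convex_neg_cos_sq
  have k1 := φ_convex_aux c1 (a := a) (b := b) h0 h1
  have k2 := φ_convex_aux c2 (a := a) (b := b) h0 h1
  have hs := s2_pos
  have e : s2 * (θ*a^2 + (1-θ)*b^2 - (θ*a + (1-θ)*b)^2)/2 = s2 * (θ*(1-θ)) * (b-a)^2/2 := by ring
  have e2 : θ*(1-θ) ≤ 1/4 := by nlinarith [sq_nonneg (θ - 1/2)]
  have e3 : s2 * (θ*(1-θ)) * (b-a)^2/2 ≤ s2 * (b-a)^2/8 := by
    have := mul_le_mul_of_nonneg_left e2 (mul_nonneg hs.le (sq_nonneg (b-a)))
    linarith
  rw [hu] at k1 k2 e
  rw [abs_le] at *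
  have m1 : θ * φ a + (1-θ) * φ b ≤ M := by nlinarith [ha.2, hb.2]
  have m2 : -M ≤ θ * φ a + (1-θ) * φ b := by nlinarith [ha.1, hb.1]
  constructor <;> linarith

end Helper64.CubeGauss
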