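import Pool.Agent.Helper64.CubeGauss.NumTools
import Pool.Agent.Helper64.CubeGauss.Star

/-! Tail integrals. -/

namespace Helper64.CubeGauss

open MeasureTheory intervalIntegral Set Finset

def DL : List ℕ := [
  72169, 70711, 69338, 68042, 66816, 65654, 64550, 63501, 62501, 61546, 60634, 59762, 58926,
  58124, 57354, 56614, 55902, 55216, 54555, 53917, 53301, 52705, 52129, 51572, 51032, 50508,
  50001, 49508, 49030, 48565, 48113, 47674, 47246, 46830, 46424, 46029, 45644, 45268, 44902,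
  44544, 44195, 43853, 43520, 43194, 42875, 42563, 42258, 41960, 41667, 41381, 41100, 40825,
  40556, 40292, 40033, 39778, 39529, 39284, 39044, 38808, 38576, 38349, 38125, 37905, 37689,
  37477, 37268, 37063, 36861, 36662, 36467, 36274, 36085, 35898, 35715, 35534, 35356, 35180,
  35008, 34837, 34669, 34504, 34341, 34180, 34021, 33865, 33710, 33558, 33408, 33260, 33114,
  32970, 32827, 32687, 32548, 32411, 32275, 32142, 32010, 31879, 31751, 31623, 31498, 31373]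

def Dd (j : ℕ) : ℕ := DL.getD (j-24) 0

lemma D_check : ∀ j < 128, 24 ≤ j → 10^12 ≤ (Dd j)^2*(8*j) := by decide +kernel

lemma sqrt_step {j : ℕ} (h24 : 24 ≤ j) (hj : j < 128) :
    Real.sqrt (((j+1:ℕ):ℝ)/2) - Real.sqrt ((j:ℝ)/2) ≤ (Dd j : ℝ)/10^6 := by
  have h := D_check j hj h24
  have h' : ((10:ℝ))^12 ≤ (Dd j : ℝ)^2*(8*j) := by exact_mod_cast h
  have hj24 : (24:ℝ) ≤ j := by exact_mod_cast h24
  set a := Real.sqrt ((j:ℝ)/2) with hadef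
  set b := Real.sqrt (((j+1:ℕ):ℝ)/2) with hbdef
  have ha0 : 0 < a := Real.sqrt_pos.2 (by linarith)
  have hb0 : 0 ≤ b := Real.sqrt_nonneg _
  have ha2 : a^2 = (j:ℝ)/2 := Real.sq_sqrt (by linarith)
  have hb2 : b^2 = ((j:ℝ)+1)/2 := by rw [hbdef, Real.sq_sqrt (by positivity)]; push_cast; ring
  have hab : a ≤ b := by
    rw [hadef, hbdef]
    apply Real.sqrt_le_sqrt
    push_cast; linarith
  -- (b-a)*(2a) ≤ 1/2
  have h1 : (b-a)*(2*a) ≤ 1/2 := by nlinarith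
  -- D/10^6 * 4 a ≥ 1
  have h2 : 1 ≤ (Dd j : ℝ)/10^6*(4*a) := by
    have h3 : (1:ℝ)^2 ≤ ((Dd j : ℝ)/10^6*(4*a))^2 := by
      have e : ((Dd j : ℝ)/10^6*(4*a))^2 = (Dd j : ℝ)^2*(8*j)/10^12 := by
        rw [mul_pow, mul_pow, ha2]; ring
      rw [e, le_div_iff₀ (by positivity)]
      linarith
    exact abs_le_of_sq_le_sq' h3 (by positivity) |>.2
  have h4 : (b-a)*(4*a) ≤ (Dd j : ℝ)/10^6*(4*a) := by linarith
  exact le_of_mul_le_mul_right h4 (by linarith)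

def tUterm (K M j : ℕ) : ℕ := Dd j * (Vf j)^2 * expU (K * Sf ((M*(j+1)-1)/1000) * j / 2)

def tUsum (K M : ℕ) : ℕ := nsum (tUterm K M) 24 104

/-- the remaining product -/
noncomputable def Rst {ι : Type*} (S : Finset ι) (ρ : ι → ℝ) (u : ℝ) : ℝ :=
  ∏ i ∈ S, φ (Real.sqrt (ρ i) * u)

lemma Rst_cont {ι : Type*} (S : Finset ι) (ρ : ι → ℝ) : Continuous (Rst S ρ) := by
  unfold Rst
  apply continuous_finsetProd
  intro i _
  exact φ_cont.comp (by fun_prop)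

lemma cell_bound {ι : Type*} (S : Finset ι) (ρ : ι → ℝ) {K M : ℕ} (hM1 : 1 ≤ M) (hM2 : M ≤ 1000)
    (h0 : ∀ i ∈ S, 0 ≤ ρ i) (h1 : ∀ i ∈ S, ρ i ≤ (M:ℝ)/1000) (hK : (K:ℝ)/1000 ≤ ∑ i ∈ S, ρ i)
    {j : ℕ} (h24 : 24 ≤ j) (hj : j < 128) {u : ℝ} (hu : 0 ≤ u) (hu1 : (j:ℝ)/2 ≤ u^2)
    (hu2 : u^2 < ((j:ℝ)+1)/2) :
    |Rst S ρ u| ≤ (expU (K * Sf ((M*(j+1)-1)/1000) * j / 2) : ℝ)/10^15 := by
  refine (prod_env S ρ h0 h1 hu).trans ?_
  apply expU_le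
  set m : ℕ := (M*(j+1)-1)/1000 with hm
  have hM0 : (0:ℝ) < M := by exact_mod_cast hM1
  have hx64 : (M:ℝ)/1000*u^2 < 64 := by
    have : (M:ℝ)/1000 ≤ 1 := by
      rw [div_le_one (by norm_num)]
      exact_mod_cast hM2
    have hj' : (j:ℝ)+1 ≤ 128 := by exact_mod_cast hj
    nlinarith [sq_nonneg u]
  have hsr : (Sf m : ℝ)/10^6 ≤ sr ((M:ℝ)/1000*u^2) := by
    unfold sr
    rw [if_pos hx64]
    apply div_le_div_of_nonneg_right _ (by norm_num)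
    have hfl : ⌊2*((M:ℝ)/1000*u^2)⌋₊ ≤ m := by
      have h3 : 2*((M:ℝ)/1000*u^2) < (m:ℝ)+1 := by
        have h4 : M*(j+1)-1 < (m+1)*1000 := Nat.lt_mul_of_div_lt (by omega) (by norm_num)
        have h5 : M*(j+1) ≤ (m+1)*1000 := by omega
        have h6 : (M:ℝ)*((j:ℝ)+1) ≤ ((m:ℝ)+1)*1000 := by exact_mod_cast h5
        nlinarith
      have := (Nat.floor_lt (by positivity)).2 (by exact_mod_cast h3 : 2*((M:ℝ)/1000*u^2) < ((m+1:ℕ):ℝ))
      omega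
    have hm128 : m < 129 := by
      rw [hm]
      have : M*(j+1) ≤ 1000*128 := Nat.mul_le_mul hM2 (by omega)
      omega
    have := S_anti hfl hm128
    exact_mod_cast this
  have hk0 : 0 ≤ ∑ i ∈ S, ρ i := Finset.sum_nonneg h0
  have hz : ((K * Sf m * j / 2 : ℕ) : ℝ) ≤ (K:ℝ) * Sf m * j / 2 := by
    have := Nat.cast_div_le (α := ℝ) (m := K * Sf m * j) (n := 2)
    push_cast at this
    exact this
  have h7 : ((K * Sf m * j / 2 : ℕ) : ℝ)/10^9 ≤ (Sf m : ℝ)/10^6 * ((K:ℝ)/1000 * ((j:ℝ)/2)) := by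
    rw [div_le_iff₀ (by norm_num)]
    refine hz.trans (le_of_eq ?_)
    ring
  refine h7.trans ?_
  apply mul_le_mul hsr _ (by positivity) ((by positivity : (0:ℝ) ≤ (Sf m : ℝ)/10^6).trans hsr)
  apply mul_le_mul hK hu1 (by positivity) hk0

lemma tail_mid {ι : Type*} (S : Finset ι) (ρ : ι → ℝ) {K M : ℕ} (hM1 : 1 ≤ M) (hM2 : M ≤ 1000)
    (h0 : ∀ i ∈ S, 0 ≤ ρ i) (h1 : ∀ i ∈ S, ρ i ≤ (M:ℝ)/1000) (hK : (K:ℝ)/1000 ≤ ∑ i ∈ S, ρ i) :
    ∫ u in (Real.sqrt 12)..8, φ u^2 * |Rst S ρ u| ≤ (tUsum K M : ℝ)/10^35 := by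
  have hcont : Continuous (fun u => φ u^2 * |Rst S ρ u|) :=
    (φ_cont.pow 2).mul ((Rst_cont S ρ).abs)
  have key := integral_le_sum hcont (fun j => Real.sqrt ((j:ℝ)/2))
    (fun k => Real.sqrt_le_sqrt (by push_cast; linarith))
    (fun j => ((Vf j : ℝ)/10^7)^2 * ((expU (K * Sf ((M*(j+1)-1)/1000) * j / 2) : ℝ)/10^15))
    (fun j => (Dd j : ℝ)/10^6) 24 128 (by norm_num) (fun k _ _ => by positivity)
    (fun k hk1 hk2 => sqrt_step hk1 hk2) ?_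
  · have e1 : Real.sqrt (((24:ℕ):ℝ)/2) = Real.sqrt 12 := by norm_num
    have e2 : Real.sqrt (((128:ℕ):ℝ)/2) = 8 := by
      rw [show (((128:ℕ):ℝ)/2) = 8^2 by norm_num]
      exact Real.sqrt_sq (by norm_num)
    rw [e1, e2] at key
    refine key.trans (le_of_eq ?_)
    unfold tUsum
    rw [nsum_eq, Nat.cast_sum, Finset.sum_div]
    apply Finset.sum_congr rfl
    intro j _
    unfold tUterm
    push_cast
    ring
  · intro j hj1 hj2 u hu1 hu2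
    have hu0 : 0 ≤ u := (Real.sqrt_nonneg _).trans hu1.le
    have hx1 : (j:ℝ)/2 ≤ u^2 := by
      have := Real.sq_sqrt (by positivity : (0:ℝ) ≤ (j:ℝ)/2)
      rw [← this]
      exact pow_le_pow_left₀ (Real.sqrt_nonneg _) hu1.le 2
    have hx2 : u^2 < ((j:ℝ)+1)/2 := by
      have h3 := Real.sq_sqrt (by positivity : (0:ℝ) ≤ ((j+1:ℕ):ℝ)/2)
      have h4 : u^2 < (Real.sqrt (((j+1:ℕ):ℝ)/2))^2 := pow_lt_pow_left₀ hu2 hu0 (by norm_num)
      rw [h3] at h4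
      push_cast at h4
      linarith
    have h5 := V_bound hj2 hu0 hx1 hx2.le
    have h6 := cell_bound S ρ hM1 hM2 h0 h1 hK hj1 hj2 hu0 hx1 hx2
    have h7 : φ u^2 ≤ ((Vf j : ℝ)/10^7)^2 := by
      rw [← sq_abs (φ u)]
      exact pow_le_pow_left₀ (abs_nonneg _) h5 2
    exact mul_le_mul h7 h6 (abs_nonneg _) (by positivity)

end Helper64.CubeGauss
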