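import Pool.Agent.Helper64.CubeGauss.Tail

/-! Far tail, total tail bound, integrability. -/

namespace Helper64.CubeGauss

open MeasureTheory Set Finset

lemma abs_φ_le_one (t : ℝ) : |φ t| ≤ 1 := by
  wlog ht : 0 ≤ t generalizing t with H
  · have := H (-t) (by linarith)
    rwa [φ_neg] at this
  refine (env_bound ht).trans ?_
  rw [← Real.exp_zero]
  apply Real.exp_le_exp.2
  have := sr_pos (sq_nonneg t)
  have : 0 ≤ sr (t^2) * t^2 := by positivity
  linarith

lemma abs_Rst_le_one {ι : Type*} (S : Finset ι) (ρ : ι → ℝ) (u : ℝ) : |Rst S ρ u| ≤ 1 := by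
  unfold Rst
  rw [Finset.abs_prod]
  apply Finset.prod_le_one
  · intro i _; exact abs_nonneg _
  · intro i _; exact abs_φ_le_one _

lemma φ_sq_le (t : ℝ) : φ t^2 ≤ 65 * (1 + t^2)⁻¹ := by
  wlog ht : 0 ≤ t generalizing t with H
  · have := H (-t) (by linarith)
    rwa [φ_neg, neg_sq] at this
  have h1 := abs_φ_le_one t
  have h2 : φ t^2 ≤ 1 := by
    rw [← sq_abs]; nlinarith [abs_nonneg (φ t)]
  rw [← div_eq_mul_inv, le_div_iff₀ (by positivity)]
  rcases le_total t 8 with h8 | h8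
  · nlinarith [sq_nonneg (φ t), sq_nonneg t]
  · have h3 := far_bound h8
    have ht0 : 0 < t := by linarith
    have h4 : φ t^2 ≤ (0.7209/t)^2 := by
      rw [← sq_abs (φ t)]
      exact pow_le_pow_left₀ (abs_nonneg _) h3 2
    have h5 : (0.7209/t)^2 * (1+t^2) ≤ 65 := by
      rw [div_pow, div_mul_eq_mul_div, div_le_iff₀ (by positivity)]
      nlinarith
    nlinarith [sq_nonneg t]

lemma φ_sq_integrable : Integrable (fun t : ℝ => φ t^2) := by
  refine Integrable.mono' (integrable_inv_one_add_sq.const_mul 65)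
    (φ_cont.pow 2).aestronglyMeasurable (Filter.Eventually.of_forall fun t => ?_)
  rw [Real.norm_eq_abs, abs_of_nonneg (sq_nonneg _)]
  exact φ_sq_le t

lemma prod_integrable {ι : Type*} (S : Finset ι) (ρ : ι → ℝ) :
    Integrable (fun u => φ u^2 * |Rst S ρ u|) := by
  refine Integrable.mono' φ_sq_integrable
    ((φ_cont.pow 2).mul ((Rst_cont S ρ).abs)).aestronglyMeasurable
    (Filter.Eventually.of_forall fun t => ?_)
  rw [Real.norm_eq_abs, abs_mul, abs_abs, abs_of_nonneg (sq_nonneg _)]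
  exact mul_le_of_le_one_right (sq_nonneg _) (abs_Rst_le_one S ρ t)

lemma far_integral {A B : ℝ} (hA : 0 ≤ A) (hB : 0 ≤ B) :
    IntegrableOn (fun u : ℝ => A/u^2 + B/u^3) (Ioi 8) ∧ ∫ u in Ioi (8:ℝ), (A/u^2 + B/u^3) = A/8 + B/128 := by
  have hder : ∀ x ∈ Ioi (8:ℝ), HasDerivAt (fun u : ℝ => -(A/u) - B/(2*u^2)) (A/x^2 + B/x^3) x := by
    intro x hx
    have hx0 : 0 < x := by have := Set.mem_Ioi.1 hx; linarith
    have h1 : HasDerivAt (fun u : ℝ => A/u) (-A/x^2) x := by
      have := (hasDerivAt_inv hx0.ne').const_mul A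
      have e : (fun u : ℝ => A/u) = fun u => A * u⁻¹ := by ext; rw [div_eq_mul_inv]
      rw [e]
      refine this.congr_deriv ?_
      ring
    have h2 : HasDerivAt (fun u : ℝ => B/(2*u^2)) (-B/x^3) x := by
      have := ((hasDerivAt_pow 2 x).inv (by positivity)).const_mul (B/2)
      have e : (fun u : ℝ => B/(2*u^2)) = fun u => (B/2) * (u^2)⁻¹ := by
        ext u; rw [div_mul_eq_div_div, div_eq_mul_inv]
      rw [e]
      refine this.congr_deriv ?_
      push_cast
      field_simp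
    exact ((h1.neg).sub h2).congr_deriv (by ring)
  have hcont : ContinuousWithinAt (fun u : ℝ => -(A/u) - B/(2*u^2)) (Ici 8) 8 := by
    apply ContinuousAt.continuousWithinAt
    have : ContinuousAt (fun u : ℝ => A/u) 8 := continuousAt_const.div continuousAt_id (by norm_num)
    have h2 : ContinuousAt (fun u : ℝ => B/(2*u^2)) 8 :=
      continuousAt_const.div (by fun_prop) (by norm_num)
    exact this.neg.sub h2
  have hlim : Filter.Tendsto (fun u : ℝ => -(A/u) - B/(2*u^2)) Filter.atTop (nhds 0) := by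
    have h1 : Filter.Tendsto (fun u : ℝ => A/u) Filter.atTop (nhds 0) := tendsto_const_nhds.div_atTop Filter.tendsto_id
    have h2 : Filter.Tendsto (fun u : ℝ => B/(2*u^2)) Filter.atTop (nhds 0) := by
      apply tendsto_const_nhds.div_atTop
      apply Filter.Tendsto.const_mul_atTop (by norm_num)
      exact Filter.tendsto_pow_atTop (by norm_num)
    have := h1.neg.sub h2
    simpa using this
  have hnn : ∀ x ∈ Ioi (8:ℝ), 0 ≤ A/x^2 + B/x^3 := by
    intro x hx
    have hx0 : 0 < x := by have := Set.mem_Ioi.1 hx; linarith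
    positivity
  refine ⟨integrableOn_Ioi_deriv_of_nonneg hcont hder hnn hlim, ?_⟩
  rw [integral_Ioi_of_hasDerivAt_of_nonneg hcont hder hnn hlim]
  ring

def farN (K : ℕ) : ℕ := 51969681 * (2000 - min K 1000) * expU (K * 2406600)

lemma tail_far {ι : Type*} (S : Finset ι) (ρ : ι → ℝ) {K : ℕ}
    (h0 : ∀ i ∈ S, 0 ≤ ρ i) (h1 : ∀ i ∈ S, ρ i ≤ 1) (hK : (K:ℝ)/1000 ≤ ∑ i ∈ S, ρ i) :
    ∫ u in Ioi (8:ℝ), φ u^2 * |Rst S ρ u| ≤ (farN K : ℝ)/(16*10^26) := by
  set kl : ℝ := (K:ℝ)/1000 with hkl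
  set κ : ℝ := min kl 1 with hκ
  have hkl0 : 0 ≤ kl := by positivity
  have hκ0 : 0 ≤ κ := le_min hkl0 (by norm_num)
  have hκ1 : κ ≤ 1 := min_le_right _ _
  have hκk : κ ≤ kl := min_le_left _ _
  set ℓ : ℝ := Real.log (8/0.7209) with hℓ
  have hℓ1 := log8_bound.2
  have hℓ0 : 0 < ℓ := by linarith
  set E : ℝ := Real.exp (-(kl*ℓ)) with hE
  have hE0 : 0 < E := Real.exp_pos _
  have hpt : ∀ u ∈ Ioi (8:ℝ), φ u^2 * |Rst S ρ u| ≤
      (0.7209^2*E*(1-κ))/u^2 + (0.7209^2*E*κ*8)/u^3 := by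
    intro u hu
    have hu8 : (8:ℝ) < u := hu
    have hu0 : 0 < u := by linarith
    have h2 := far_bound hu8.le
    have h3 : φ u^2 ≤ (0.7209/u)^2 := by
      rw [← sq_abs (φ u)]
      exact pow_le_pow_left₀ (abs_nonneg _) h2 2
    have h4 := prod_env S ρ h0 h1 hu0.le
    rw [one_mul] at h4
    have hsr : sr (u^2) * u^2 = Real.log (u/0.7209) := by
      unfold sr
      rw [if_neg (by nlinarith), Real.sqrt_sq hu0.le]
      field_simp
    have hlog : Real.log (u/0.7209) = ℓ + Real.log (u/8) := by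
      rw [hℓ, ← Real.log_mul (by norm_num) (by positivity)]
      congr 1
      field_simp
    have hlu : 0 ≤ Real.log (u/8) := Real.log_nonneg (by rw [le_div_iff₀ (by norm_num)]; linarith)
    have h5 : |Rst S ρ u| ≤ E * (8/u)^κ := by
      refine h4.trans ?_
      have e1 : -(sr (u^2) * ((∑ i ∈ S, ρ i) * u^2)) = -((∑ i ∈ S, ρ i) * (ℓ + Real.log (u/8))) := by
        rw [← hlog, ← hsr]; ring
      rw [e1, Real.rpow_def_of_pos (by positivity), hE, ← Real.exp_add]
      apply Real.exp_le_exp.2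
      have e2 : Real.log (8/u) = -Real.log (u/8) := by
        rw [← Real.log_inv]; congr 1; field_simp
      rw [e2]
      have h6 : kl * (ℓ + Real.log (u/8)) ≤ (∑ i ∈ S, ρ i) * (ℓ + Real.log (u/8)) :=
        mul_le_mul_of_nonneg_right hK (by linarith)
      have h7 : κ * Real.log (u/8) ≤ kl * Real.log (u/8) := mul_le_mul_of_nonneg_right hκk hlu
      linarith
    have h8 : (8/u)^κ ≤ 1 + κ * (8/u - 1) := by
      have := _root_.rpow_one_add_le_one_add_mul_self (s := 8/u - 1) (p := κ)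
        (by have : 0 < 8/u := by positivity
            linarith) hκ0 hκ1
      simpa using this
    have h9 : |Rst S ρ u| ≤ E * (1 + κ * (8/u - 1)) := h5.trans (mul_le_mul_of_nonneg_left h8 hE0.le)
    calc φ u^2 * |Rst S ρ u| ≤ (0.7209/u)^2 * (E * (1 + κ * (8/u - 1))) :=
          mul_le_mul h3 h9 (abs_nonneg _) (by positivity)
      _ = (0.7209^2*E*(1-κ))/u^2 + (0.7209^2*E*κ*8)/u^3 := by
          field_simp
          ring
  have hfi := far_integral (A := 0.7209^2*E*(1-κ)) (B := 0.7209^2*E*κ*8)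
    (by have : 0 ≤ 1-κ := by linarith
        positivity) (by positivity)
  have hle := setIntegral_mono_on (prod_integrable S ρ).integrableOn hfi.1 measurableSet_Ioi hpt
  refine hle.trans ?_
  rw [hfi.2]
  have hmin : ((2000 - min K 1000 : ℕ):ℝ) = 1000 * (2 - κ) := by
    rw [Nat.cast_sub (by omega), Nat.cast_min, hκ, hkl]
    push_cast
    rcases le_total ((K:ℝ)) 1000 with h | h
    · rw [min_eq_left h, min_eq_left (by rw [div_le_one (by norm_num)]; exact h)]; ring
    · rw [min_eq_right h, min_eq_right (by rw [le_div_iff₀ (by norm_num)]; linarith)]; ring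
  have hEU : E ≤ (expU (K * 2406600) : ℝ)/10^15 := by
    rw [hE]
    apply expU_le
    push_cast
    rw [hkl]
    have : (K:ℝ)/1000*2.4066 ≤ (K:ℝ)/1000*ℓ := mul_le_mul_of_nonneg_left hℓ1 (by positivity)
    linarith
  unfold farN
  rw [Nat.cast_mul, Nat.cast_mul, hmin]
  have h2κ : 0 ≤ 2 - κ := by linarith
  have : 0.7209^2*E*(1-κ)/8 + 0.7209^2*E*κ*8/128 = 0.7209^2*(2-κ)/16 * E := by ring
  rw [this]
  refine (mul_le_mul_of_nonneg_left hEU (by positivity)).trans (le_of_eq ?_)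
  push_cast
  ring

/-- total tail bound -/
noncomputable def tailB (K M : ℕ) : ℝ := (tUsum K M : ℝ)/10^35 + (farN K : ℝ)/(16*10^26)

lemma tail_bound {ι : Type*} (S : Finset ι) (ρ : ι → ℝ) {K M : ℕ} (hM1 : 1 ≤ M) (hM2 : M ≤ 1000)
    (h0 : ∀ i ∈ S, 0 ≤ ρ i) (h1 : ∀ i ∈ S, ρ i ≤ (M:ℝ)/1000) (hK : (K:ℝ)/1000 ≤ ∑ i ∈ S, ρ i) :
    ∫ u in Ioi (Real.sqrt 12), φ u^2 * |Rst S ρ u| ≤ tailB K M := by
  have h12 : Real.sqrt 12 ≤ 8 := by
    rw [Real.sqrt_le_left (by norm_num)]; norm_num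
  have hint := prod_integrable S ρ
  rw [← intervalIntegral.integral_interval_add_Ioi (b := 8) hint.integrableOn hint.integrableOn]
  have hM1' : (M:ℝ)/1000 ≤ 1 := by
    rw [div_le_one (by norm_num)]; exact_mod_cast hM2
  have a := tail_mid S ρ hM1 hM2 h0 h1 hK
  have b := tail_far S ρ h0 (fun i hi => (h1 i hi).trans hM1') hK
  unfold tailB
  linarith

end Helper64.CubeGauss
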