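import Pool.Agent.Helper64.CubeGauss.Upper

/-! Taylor bounds for `cos`, `sin` and `φ`; the first zero of `φ`. -/

namespace Helper64.CubeGauss

open MeasureTheory intervalIntegral Set Finset

/-- partial sums of the cosine and sine series -/
noncomputable def Cn (n : ℕ) (u : ℝ) : ℝ := ∑ k ∈ range n, (-1)^k * u^(2*k) / ((2*k).factorial : ℝ)
noncomputable def Sn (n : ℕ) (u : ℝ) : ℝ := ∑ k ∈ range n, (-1)^k * u^(2*k+1) / ((2*k+1).factorial : ℝ)

lemma Sn_hasDeriv (n : ℕ) (u : ℝ) : HasDerivAt (Sn n) (Cn n u) u := by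
  unfold Sn Cn
  apply HasDerivAt.fun_sum
  intro k _
  have h := ((hasDerivAt_pow (2*k+1) u).const_mul ((-1)^k)).div_const ((2*k+1).factorial : ℝ)
  refine HasDerivAt.congr_deriv h ?_
  rw [Nat.factorial_succ]
  push_cast
  have h1 : ((2 * (k:ℝ) + 1)) ≠ 0 := by positivity
  have h2 : (((2*k).factorial : ℕ) : ℝ) ≠ 0 := by positivity
  field_simp

lemma Cn_hasDeriv (n : ℕ) (u : ℝ) : HasDerivAt (Cn (n+1)) (-(Sn n u)) u := by
  have h0 : Cn (n+1) = fun u => (1 : ℝ) + ∑ k ∈ range n, (-1)^(k+1) * u^(2*(k+1)) / ((2*(k+1)).factorial : ℝ) := by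
    funext u
    unfold Cn
    rw [Finset.sum_range_succ']
    simp
    ring
  rw [h0]
  have h1 : HasDerivAt (fun u : ℝ => ∑ k ∈ range n, (-1)^(k+1) * u^(2*(k+1)) / ((2*(k+1)).factorial : ℝ))
      (∑ k ∈ range n, -((-1)^k * u^(2*k+1) / ((2*k+1).factorial : ℝ))) u := by
    apply HasDerivAt.fun_sum
    intro k _
    have h := ((hasDerivAt_pow (2*(k+1)) u).const_mul ((-1)^(k+1))).div_const ((2*(k+1)).factorial : ℝ)
    refine HasDerivAt.congr_deriv h ?_
    have e : (2*(k+1)).factorial = (2*k+2) * (2*k+1).factorial := by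
      rw [show 2*(k+1) = (2*k+1)+1 by ring, Nat.factorial_succ]
    rw [e]
    push_cast
    have h1 : ((2 * (k:ℝ) + 2)) ≠ 0 := by positivity
    have h2 : (((2*k+1).factorial : ℕ) : ℝ) ≠ 0 := by positivity
    have e2 : 2*(k+1) - 1 = 2*k+1 := by omega
    rw [e2]
    field_simp
    ring
  have h2 := (hasDerivAt_const u (1:ℝ)).add h1
  refine HasDerivAt.congr_deriv h2 ?_
  unfold Sn
  rw [Finset.sum_neg_distrib, zero_add]

lemma series_bounds (n : ℕ) : (∀ u : ℝ, 0 ≤ u → 0 ≤ (-1)^(n+1) * (Real.cos u - Cn (n+1) u)) ∧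
    (∀ u : ℝ, 0 ≤ u → 0 ≤ (-1)^(n+1) * (Real.sin u - Sn (n+1) u)) := by
  -- sine from cosine
  have step : ∀ n, (∀ u : ℝ, 0 ≤ u → 0 ≤ (-1)^(n+1) * (Real.cos u - Cn (n+1) u)) →
      (∀ u : ℝ, 0 ≤ u → 0 ≤ (-1)^(n+1) * (Real.sin u - Sn (n+1) u)) := by
    intro n h u hu
    have hder : ∀ v, HasDerivAt (fun v => (-1)^(n+1) * (Real.sin v - Sn (n+1) v))
        ((-1)^(n+1) * (Real.cos v - Cn (n+1) v)) v := fun v =>
      ((Real.hasDerivAt_sin v).sub (Sn_hasDeriv (n+1) v)).const_mul _
    have hmono : MonotoneOn (fun v => (-1)^(n+1) * (Real.sin v - Sn (n+1) v)) (Ici 0) := by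
      apply monotoneOn_of_deriv_nonneg (convex_Ici 0)
      · exact fun t _ => (hder t).continuousAt.continuousWithinAt
      · exact fun t _ => (hder t).differentiableAt.differentiableWithinAt
      · intro t ht
        rw [interior_Ici] at ht
        rw [(hder t).deriv]
        exact h t (le_of_lt ht)
    have h1 := hmono (mem_Ici.mpr le_rfl) (mem_Ici.mpr hu) hu
    have h0 : Sn (n+1) 0 = 0 := by
      unfold Sn
      apply Finset.sum_eq_zero
      intro k _
      simp
    simp only [h0, Real.sin_zero, sub_zero, mul_zero] at h1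
    exact h1
  induction n with
  | zero =>
    have hc : ∀ u : ℝ, 0 ≤ u → 0 ≤ (-1)^(0+1) * (Real.cos u - Cn (0+1) u) := by
      intro u _
      have : Cn (0+1) u = 1 := by simp [Cn]
      rw [this]
      have := Real.cos_le_one u
      norm_num
      linarith
    exact ⟨hc, step 0 hc⟩
  | succ n ih =>
    have hc : ∀ u : ℝ, 0 ≤ u → 0 ≤ (-1)^(n+1+1) * (Real.cos u - Cn (n+1+1) u) := by
      intro u hu
      have hder : ∀ v, HasDerivAt (fun v => (-1)^(n+1+1) * (Real.cos v - Cn (n+1+1) v))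
          ((-1)^(n+1) * (Real.sin v - Sn (n+1) v)) v := fun v =>
        (((Real.hasDerivAt_cos v).sub (Cn_hasDeriv (n+1) v)).const_mul _).congr_deriv (by ring)
      have hmono : MonotoneOn (fun v => (-1)^(n+1+1) * (Real.cos v - Cn (n+1+1) v)) (Ici 0) := by
        apply monotoneOn_of_deriv_nonneg (convex_Ici 0)
        · exact fun t _ => (hder t).continuousAt.continuousWithinAt
        · exact fun t _ => (hder t).differentiableAt.differentiableWithinAt
        · intro t ht
          rw [interior_Ici] at ht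
          rw [(hder t).deriv]
          exact ih.2 t (le_of_lt ht)
      have h1 := hmono (mem_Ici.mpr le_rfl) (mem_Ici.mpr hu) hu
      have h0 : Cn (n+1+1) 0 = 1 := by
        unfold Cn
        rw [Finset.sum_range_succ']
        simp
      simp only [h0, Real.cos_zero, sub_self, mul_zero] at h1
      exact h1
    exact ⟨hc, step (n+1) hc⟩

lemma cos_le_Cn {n : ℕ} (hn : Even n) (u : ℝ) : Real.cos u ≤ Cn (n+1) u := by
  have h := (series_bounds n).1 |u| (abs_nonneg u)
  have h2 : Cn (n+1) |u| = Cn (n+1) u := by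
    unfold Cn
    apply Finset.sum_congr rfl
    intro k _
    rw [pow_mul, sq_abs, ← pow_mul]
  rw [Real.cos_abs, h2, Odd.neg_one_pow (hn.add_one)] at h
  linarith

lemma Cn_le_cos {n : ℕ} (hn : Odd n) (u : ℝ) : Cn (n+1) u ≤ Real.cos u := by
  have h := (series_bounds n).1 |u| (abs_nonneg u)
  have h2 : Cn (n+1) |u| = Cn (n+1) u := by
    unfold Cn
    apply Finset.sum_congr rfl
    intro k _
    rw [pow_mul, sq_abs, ← pow_mul]
  rw [Real.cos_abs, h2, Even.neg_one_pow (hn.add_one)] at h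
  linarith

lemma sin_le_Sn {n : ℕ} (hn : Even n) {u : ℝ} (hu : 0 ≤ u) : Real.sin u ≤ Sn (n+1) u := by
  have h := (series_bounds n).2 u hu
  rw [Odd.neg_one_pow (hn.add_one)] at h
  linarith

lemma Sn_le_sin {n : ℕ} (hn : Odd n) {u : ℝ} (hu : 0 ≤ u) : Sn (n+1) u ≤ Real.sin u := by
  have h := (series_bounds n).2 u hu
  rw [Even.neg_one_pow (hn.add_one)] at h
  linarith

/-- even moments of the conditioned Gaussian -/
noncomputable def mom (k : ℕ) : ℝ := (∫ x in (-1 : ℝ)..1, x^(2*k) * g x) / P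

lemma mom_zero : mom 0 = 1 := by
  unfold mom
  simp only [mul_zero, pow_zero, one_mul]
  exact div_self P_pos.ne'

lemma mom_succ (k : ℕ) : mom (k+1) = (2*k+1) * mom k - c := by
  have hparts : ∫ x in (-1 : ℝ)..1, ((2*k+1) * (x^(2*k) * g x) - x^(2*(k+1)) * g x)
      = (1 : ℝ)^(2*k+1) * g 1 - (-1 : ℝ)^(2*k+1) * g (-1) := by
    apply intervalIntegral.integral_eq_sub_of_hasDerivAt (f := fun x => x^(2*k+1) * g x)
    · intro x _
      have h1 := (hasDerivAt_pow (2*k+1) x).mul (g_hasDeriv x)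
      refine HasDerivAt.congr_deriv h1 ?_
      simp only [Nat.add_sub_cancel]
      push_cast
      ring
    · exact (by have := g_cont; fun_prop : Continuous fun x =>
        ((2*(k:ℝ)+1) * (x^(2*k) * g x) - x^(2*(k+1)) * g x)).intervalIntegrable _ _
  rw [intervalIntegral.integral_sub
    ((by have := g_cont; fun_prop : Continuous fun x => (2*(k:ℝ)+1) * (x^(2*k) * g x)).intervalIntegrable _ _)
    ((by have := g_cont; fun_prop : Continuous fun x => x^(2*(k+1)) * g x).intervalIntegrable _ _),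
    intervalIntegral.integral_const_mul] at hparts
  have hg1 : g 1 = Real.exp (-1 / 2) := by unfold g; norm_num
  have hg2 : g (-1) = Real.exp (-1 / 2) := by unfold g; norm_num
  have hodd : (-1 : ℝ)^(2*k+1) = -1 := Odd.neg_one_pow ⟨k, rfl⟩
  rw [hg1, hg2, hodd, one_pow] at hparts
  have hP := P_pos.ne'
  unfold mom c
  have e : ∫ x in (-1 : ℝ)..1, x^(2*(k+1)) * g x = (2*k+1) * (∫ x in (-1 : ℝ)..1, x^(2*k) * g x)
      - 2 * Real.exp (-1/2) := by linarith
  rw [e]
  field_simp

/-- partial sums of the series of `φ` -/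
noncomputable def φn (n : ℕ) (t : ℝ) : ℝ := ∑ k ∈ range n, (-1)^k * mom k * t^(2*k) / ((2*k).factorial : ℝ)

lemma φn_eq (n : ℕ) (t : ℝ) : φn n t = (∫ x in (-1 : ℝ)..1, Cn n (t*x) * g x) / P := by
  have : ∀ x, Cn n (t*x) * g x = ∑ k ∈ range n, ((-1)^k * t^(2*k) / ((2*k).factorial : ℝ)) * (x^(2*k) * g x) := by
    intro x
    unfold Cn
    rw [Finset.sum_mul]
    apply Finset.sum_congr rfl
    intro k _
    rw [mul_pow]
    ring
  simp_rw [this]
  rw [intervalIntegral.integral_finsetSum]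
  · simp_rw [intervalIntegral.integral_const_mul]
    rw [Finset.sum_div]
    unfold φn mom
    apply Finset.sum_congr rfl
    intro k _
    ring
  · intro k _
    exact (by have := g_cont; fun_prop : Continuous fun x =>
      ((-1)^k * t^(2*k) / ((2*k).factorial : ℝ)) * (x^(2*k) * g x)).intervalIntegrable _ _

lemma Cn_cont (n : ℕ) : Continuous (Cn n) := by unfold Cn; fun_prop

lemma φ_le_φn {n : ℕ} (hn : Even n) (t : ℝ) : φ t ≤ φn (n+1) t := by
  rw [φn_eq]
  unfold φ
  apply div_le_div_of_nonneg_right _ P_pos.le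
  apply intervalIntegral.integral_mono_on (by norm_num)
  · exact (by have := g_cont; fun_prop : Continuous fun x => Real.cos (t * x) * g x).intervalIntegrable _ _
  · exact (by have := g_cont; have := Cn_cont (n+1); fun_prop : Continuous fun x =>
      Cn (n+1) (t * x) * g x).intervalIntegrable _ _
  · intro x _
    exact mul_le_mul_of_nonneg_right (cos_le_Cn hn _) (g_pos x).le

lemma φn_le_φ {n : ℕ} (hn : Odd n) (t : ℝ) : φn (n+1) t ≤ φ t := by
  rw [φn_eq]
  unfold φ
  apply div_le_div_of_nonneg_right _ P_pos.le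
  apply intervalIntegral.integral_mono_on (by norm_num)
  · exact (by have := g_cont; have := Cn_cont (n+1); fun_prop : Continuous fun x =>
      Cn (n+1) (t * x) * g x).intervalIntegrable _ _
  · exact (by have := g_cont; fun_prop : Continuous fun x => Real.cos (t * x) * g x).intervalIntegrable _ _
  · intro x _
    exact mul_le_mul_of_nonneg_right (Cn_le_cos hn _) (g_pos x).le

lemma mom1 : mom 1 = 1 - c := by rw [mom_succ 0, mom_zero]; norm_num
lemma mom2 : mom 2 = 3 - 4*c := by rw [mom_succ 1, mom1]; norm_num; ring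
lemma mom3 : mom 3 = 15 - 21*c := by rw [mom_succ 2, mom2]; norm_num; ring
lemma mom4 : mom 4 = 105 - 148*c := by rw [mom_succ 3, mom3]; norm_num; ring
lemma mom5 : mom 5 = 945 - 1333*c := by rw [mom_succ 4, mom4]; norm_num; ring
lemma mom6 : mom 6 = 10395 - 14664*c := by rw [mom_succ 5, mom5]; norm_num; ring
lemma mom7 : mom 7 = 135135 - 190633*c := by rw [mom_succ 6, mom6]; norm_num; ring
lemma mom8 : mom 8 = 2027025 - 2859496*c := by rw [mom_succ 7, mom7]; norm_num; ring

lemma φ_lower8 (t : ℝ) : 1 - (1-c)*t^2/2 + (3-4*c)*t^4/24 - (15-21*c)*t^6/720 + (105-148*c)*t^8/40320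
    - (945-1333*c)*t^10/3628800 + (10395-14664*c)*t^12/479001600 - (135135-190633*c)*t^14/87178291200 ≤ φ t := by
  refine le_trans (le_of_eq ?_) (φn_le_φ (n := 7) (by decide) t)
  unfold φn
  simp only [Finset.sum_range_succ, Finset.sum_range_zero, mom_zero, mom1, mom2, mom3, mom4, mom5, mom6, mom7,
    Nat.factorial]
  norm_num
  ring

lemma φ_upper9 (t : ℝ) : φ t ≤ 1 - (1-c)*t^2/2 + (3-4*c)*t^4/24 - (15-21*c)*t^6/720 + (105-148*c)*t^8/40320
    - (945-1333*c)*t^10/3628800 + (10395-14664*c)*t^12/479001600 - (135135-190633*c)*t^14/87178291200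
    + (2027025-2859496*c)*t^16/20922789888000 := by
  refine le_trans (φ_le_φn (n := 8) (by decide) t) (le_of_eq ?_)
  unfold φn
  simp only [Finset.sum_range_succ, Finset.sum_range_zero, mom_zero, mom1, mom2, mom3, mom4, mom5, mom6, mom7,
    mom8, Nat.factorial]
  norm_num
  ring

lemma φ_pos_3494 : 0 < φ 3.494 := by
  refine lt_of_lt_of_le ?_ (φ_lower8 3.494)
  obtain ⟨h1, h2⟩ := c_bounds
  norm_num at *
  linarith

lemma φ_neg_3495 : φ 3.495 < 0 := by
  refine lt_of_le_of_lt (φ_upper9 3.495) ?_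
  obtain ⟨h1, h2⟩ := c_bounds
  norm_num at *
  linarith

/-- The first zero of `φ`. -/
lemma exists_z1 : ∃ z : ℝ, 3.494 < z ∧ z < 3.495 ∧ φ z = 0 ∧ (∀ t, 0 ≤ t → t < z → 0 < φ t) ∧
    (∀ t, z < t → t ≤ 2*Real.pi → φ t < 0) := by
  have hz : (0:ℝ) ∈ Set.Icc (φ 3.495) (φ 3.494) := ⟨φ_neg_3495.le, φ_pos_3494.le⟩
  have himg := intermediate_value_Icc' (by norm_num : (3.494:ℝ) ≤ 3.495) φ_cont.continuousOn
  obtain ⟨z, hz1, hz2⟩ := himg hz
  have hne1 : z ≠ 3.494 := fun h => by rw [h] at hz2; exact absurd hz2 φ_pos_3494.ne'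
  have hne2 : z ≠ 3.495 := fun h => by rw [h] at hz2; exact absurd hz2 φ_neg_3495.ne
  have hzl : 3.494 < z := lt_of_le_of_ne hz1.1 (Ne.symm hne1)
  have hzr : z < 3.495 := lt_of_le_of_ne hz1.2 hne2
  have hpi1 := Real.pi_gt_d2
  have hpi2 := Real.pi_lt_d2
  -- strict antitonicity on [π, 2π]
  have hstrict : StrictAntiOn (fun t => φ t * Real.exp (t^2/2)) (Icc Real.pi (2*Real.pi)) := by
    have hder : ∀ t, HasDerivAt (fun t => φ t * Real.exp (t^2/2)) (c * Real.sin t * Real.exp (t^2/2)) t := by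
      intro t
      have h2 : HasDerivAt (fun t : ℝ => t^2) (2*t) t := by simpa using hasDerivAt_pow 2 t
      exact ((hasDerivAt_φ t).mul (h2.div_const 2).exp).congr_deriv (by ring)
    apply strictAntiOn_of_deriv_neg (convex_Icc _ _)
    · exact fun t _ => (hder t).continuousAt.continuousWithinAt
    · intro t ht
      rw [interior_Icc] at ht
      rw [(hder t).deriv]
      have hs : Real.sin t < 0 := by
        have : Real.sin t = - Real.sin (t - Real.pi) := by rw [Real.sin_sub_pi]; ring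
        rw [this]
        have := Real.sin_pos_of_pos_of_lt_pi (x := t - Real.pi) (by linarith [ht.1]) (by linarith [ht.2])
        linarith
      have := c_pos
      have hexp := Real.exp_pos (t^2/2)
      nlinarith [mul_pos this hexp]
  refine ⟨z, hzl, hzr, hz2, ?_, ?_⟩
  · intro t ht0 htz
    rcases le_or_gt t Real.pi with h | h
    · exact φ_pos_of_le_pi ht0 h
    · have h3 := hstrict ⟨h.le, by linarith⟩ ⟨by linarith, by linarith⟩ htz
      simp only [hz2, zero_mul] at h3
      exact (pos_iff_pos_of_mul_pos h3).mpr (Real.exp_pos _)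
  · intro t htz ht2
    have h3 := hstrict ⟨by linarith, by linarith⟩ ⟨by linarith, ht2⟩ htz
    simp only [hz2, zero_mul] at h3
    by_contra hcon
    push Not at hcon
    have := mul_nonneg hcon (Real.exp_pos (t^2/2)).le
    linarith

/-- the first zero of `φ` -/
noncomputable def z1 : ℝ := exists_z1.choose

lemma z1_gt : 3.494 < z1 := exists_z1.choose_spec.1
lemma z1_lt : z1 < 3.495 := exists_z1.choose_spec.2.1
lemma φ_z1 : φ z1 = 0 := exists_z1.choose_spec.2.2.1
lemma φ_pos {t : ℝ} (h0 : 0 ≤ t) (h1 : t < z1) : 0 < φ t := exists_z1.choose_spec.2.2.2.1 t h0 h1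
lemma φ_neg_of {t : ℝ} (h0 : z1 < t) (h1 : t ≤ 2*Real.pi) : φ t < 0 :=
  exists_z1.choose_spec.2.2.2.2 t h0 h1

end Helper64.CubeGauss
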