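import Mathlib

/-! Two trigonometric inequalities on `[0, π]`, i.e. lower bounds for
`Y(t) = (1 - t cot t)/t²` and for its derivative with respect to `t²`. -/

namespace Helper64.CubeGauss

open MeasureTheory intervalIntegral Set

/-- truncated series of `Y` in `x = t²` -/
noncomputable def Lp (x : ℝ) : ℝ := 1/3 + x/45 + 2*x^2/945 + x^3/4725

/-- truncated series of `dY/dx` -/
noncomputable def Mp (x : ℝ) : ℝ := 1/45 + 4*x/945 + x^2/1575

lemma Lp_hasDeriv (t : ℝ) : HasDerivAt (fun t : ℝ => Lp (t^2))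
    (2*t*(1/45 + 4*t^2/945 + t^4/1575)) t := by
  unfold Lp
  have h2 : HasDerivAt (fun t : ℝ => t^2) (2*t) t := by simpa using hasDerivAt_pow 2 t
  have := (((hasDerivAt_const t (1/3 : ℝ)).add (h2.div_const 45)).add
    (((h2.pow 2).const_mul 2).div_const 945)).add ((h2.pow 3).div_const 4725)
  refine HasDerivAt.congr_deriv this ?_
  norm_num
  ring

lemma Mp_hasDeriv (t : ℝ) : HasDerivAt (fun t : ℝ => Mp (t^2))
    (2*t*(4/945 + 2*t^2/1575)) t := by
  unfold Mp
  have h2 : HasDerivAt (fun t : ℝ => t^2) (2*t) t := by simpa using hasDerivAt_pow 2 t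
  have := ((hasDerivAt_const t (1/45 : ℝ)).add ((h2.const_mul 4).div_const 945)).add
    ((h2.pow 2).div_const 1575)
  refine HasDerivAt.congr_deriv this ?_
  norm_num
  ring

/-- `sin t - t cos t ≥ t² sin t L(t²)` on `[0,π]`. -/
lemma trig_L {t : ℝ} (h0 : 0 ≤ t) (h1 : t ≤ Real.pi) :
    t^2 * Real.sin t * Lp (t^2) ≤ Real.sin t - t * Real.cos t := by
  set F : ℝ → ℝ := fun t => (Real.sin t - t * Real.cos t - t^2 * Real.sin t * Lp (t^2)) *
    Real.exp (-(t^2/6 + t^4/180 + t^6/2835 + t^8/37800)) with hF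
  have hder : ∀ t, HasDerivAt F (t * Real.sin t * (2*(1/3)*(1/4725)*(t^2)^4 + 2*(1/45)*(2/945)*(t^2)^4
      + (2*(1/45)*(1/4725) + (2/945)^2)*(t^2)^5 + 2*(2/945)*(1/4725)*(t^2)^6 + (1/4725)^2*(t^2)^7)
      * Real.exp (-(t^2/6 + t^4/180 + t^6/2835 + t^8/37800))) t := by
    intro t
    have h2 : HasDerivAt (fun t : ℝ => t^2) (2*t) t := by simpa using hasDerivAt_pow 2 t
    have hs := Real.hasDerivAt_sin t
    have hc := Real.hasDerivAt_cos t
    have hf : HasDerivAt (fun t : ℝ => Real.sin t - t * Real.cos t - t^2 * Real.sin t * Lp (t^2))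
        (Real.cos t - (1 * Real.cos t + t * (-Real.sin t)) - ((2*t * Real.sin t + t^2 * Real.cos t) * Lp (t^2)
          + t^2 * Real.sin t * (2*t*(1/45 + 4*t^2/945 + t^4/1575)))) t :=
      (hs.sub ((hasDerivAt_id t).mul hc)).sub ((h2.mul hs).mul (Lp_hasDeriv t))
    have hE : HasDerivAt (fun t : ℝ => Real.exp (-(t^2/6 + t^4/180 + t^6/2835 + t^8/37800)))
        (Real.exp (-(t^2/6 + t^4/180 + t^6/2835 + t^8/37800)) *
          (-(2*t/6 + 4*t^3/180 + 6*t^5/2835 + 8*t^7/37800))) t := by
      apply HasDerivAt.exp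
      have := ((((hasDerivAt_pow 2 t).div_const 6).add ((hasDerivAt_pow 4 t).div_const 180)).add
        ((hasDerivAt_pow 6 t).div_const 2835)).add ((hasDerivAt_pow 8 t).div_const 37800)
      refine HasDerivAt.congr_deriv this.neg ?_
      norm_num
    refine HasDerivAt.congr_deriv (hf.mul hE) ?_
    unfold Lp
    ring
  have hmono : MonotoneOn F (Icc 0 Real.pi) := by
    apply monotoneOn_of_deriv_nonneg (convex_Icc 0 Real.pi)
    · exact fun t _ => (hder t).continuousAt.continuousWithinAt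
    · exact fun t _ => (hder t).differentiableAt.differentiableWithinAt
    · intro t ht
      rw [interior_Icc] at ht
      rw [(hder t).deriv]
      have hs : 0 ≤ Real.sin t := Real.sin_nonneg_of_nonneg_of_le_pi ht.1.le ht.2.le
      have ht0 := ht.1.le
      positivity
  have h := hmono (left_mem_Icc.mpr Real.pi_pos.le) ⟨h0, h1⟩ h0
  have hF0 : F 0 = 0 := by simp [hF]
  rw [hF0] at h
  have hexp := Real.exp_pos (-(t^2/6 + t^4/180 + t^6/2835 + t^8/37800))
  have : 0 ≤ Real.sin t - t * Real.cos t - t^2 * Real.sin t * Lp (t^2) :=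
    nonneg_of_mul_nonneg_left h hexp
  linarith

/-- `t² + t sin t cos t - 2 sin² t ≥ 2 t⁴ sin² t M(t²)` on `[0,π]`. -/
lemma trig_M {t : ℝ} (h0 : 0 ≤ t) (h1 : t ≤ Real.pi) :
    2 * t^4 * Real.sin t^2 * Mp (t^2) ≤ t^2 + t * Real.sin t * Real.cos t - 2 * Real.sin t^2 := by
  rcases h0.eq_or_lt with h0' | hpos
  · rw [← h0']; simp
  set F : ℝ → ℝ := fun t => t + Real.sin t * Real.cos t - 2 * Real.sin t * Real.sinc t
    - 2 * t^3 * Real.sin t^2 * Mp (t^2) with hF
  have hcont : Continuous F := by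
    have hM : Continuous fun t : ℝ => Mp (t^2) := by unfold Mp; fun_prop
    have hsinc := Real.continuous_sinc
    rw [hF]
    fun_prop
  have hder : ∀ t, 0 < t → HasDerivAt F (1 + (Real.cos t * Real.cos t + Real.sin t * (-Real.sin t))
      - (2 * Real.cos t * (Real.sin t / t) + 2 * Real.sin t * ((Real.cos t * t - Real.sin t * 1)/t^2))
      - ((2*(3*t^2) * Real.sin t^2 + 2*t^3*(2 * Real.sin t * Real.cos t)) * Mp (t^2)
        + 2 * t^3 * Real.sin t^2 * (2*t*(4/945 + 2*t^2/1575)))) t := by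
    intro t ht
    have hs := Real.hasDerivAt_sin t
    have hc := Real.hasDerivAt_cos t
    have hsinc : HasDerivAt Real.sinc ((Real.cos t * t - Real.sin t * 1)/t^2) t := by
      have h1 : HasDerivAt (fun t => Real.sin t / t) ((Real.cos t * t - Real.sin t * 1)/t^2) t :=
        hs.div (hasDerivAt_id t) ht.ne'
      apply h1.congr_of_eventuallyEq
      filter_upwards [lt_mem_nhds ht] with s hs
      rw [Real.sinc_of_ne_zero hs.ne']
    have h3 : HasDerivAt (fun t : ℝ => 2 * t^3) (2*(3*t^2)) t := by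
      simpa using (hasDerivAt_pow 3 t).const_mul 2
    have hs2 : HasDerivAt (fun t : ℝ => Real.sin t^2) (2 * Real.sin t * Real.cos t) t :=
      HasDerivAt.congr_deriv (hs.pow 2) (by norm_num)
    have := ((((hasDerivAt_id t).add (hs.mul hc)).sub ((hs.const_mul 2).mul hsinc)).sub
      ((h3.mul hs2).mul (Mp_hasDeriv t)))
    refine HasDerivAt.congr_deriv this ?_
    simp only [Pi.mul_apply]
    rw [Real.sinc_of_ne_zero ht.ne']
  have hmono : MonotoneOn F (Icc 0 Real.pi) := by
    apply monotoneOn_of_deriv_nonneg (convex_Icc 0 Real.pi) hcont.continuousOn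
    · intro t ht
      rw [interior_Icc] at ht
      exact (hder t ht.1).differentiableAt.differentiableWithinAt
    · intro t ht
      rw [interior_Icc] at ht
      rw [(hder t ht.1).deriv]
      have ht0 : 0 < t := ht.1
      have hs : 0 ≤ Real.sin t := Real.sin_nonneg_of_nonneg_of_le_pi ht.1.le ht.2.le
      have hL := trig_L ht.1.le ht.2.le
      have hL0 : 0 ≤ Lp (t^2) := by unfold Lp; positivity
      have hM0 : 0 ≤ Mp (t^2) := by unfold Mp; positivity
      -- the derivative times t^2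
      have hsq : (t^2 * Real.sin t * Lp (t^2))^2 ≤ (Real.sin t - t * Real.cos t)^2 := by
        apply pow_le_pow_left₀ _ hL
        positivity
      have hk : t * Real.cos t ≤ Real.sin t - t^2 * Real.sin t * Lp (t^2) := by linarith
      have hk2 : 4 * t^4 * Real.sin t * Mp (t^2) * (t * Real.cos t) ≤
          4 * t^4 * Real.sin t * Mp (t^2) * (Real.sin t - t^2 * Real.sin t * Lp (t^2)) := by
        apply mul_le_mul_of_nonneg_left hk
        positivity
      have hpoly : t^4 * Real.sin t^2 * (10 * Mp (t^2) - 4 * t^2 * Lp (t^2) * Mp (t^2)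
          + 2 * t^2 * (2*(4/945 + 2*t^2/1575))) ≤ t^4 * Real.sin t^2 * (2 * Lp (t^2)^2) := by
        apply mul_le_mul_of_nonneg_left _ (by positivity)
        unfold Lp Mp
        have hx : 0 ≤ t^2 := sq_nonneg t
        have : (0:ℝ) ≤ 2 * (1/3 + t^2/45 + 2*(t^2)^2/945 + (t^2)^3/4725)^2 -
          (10 * (1/45 + 4*t^2/945 + (t^2)^2/1575) - 4 * t^2 * (1/3 + t^2/45 + 2*(t^2)^2/945 + (t^2)^3/4725)
            * (1/45 + 4*t^2/945 + (t^2)^2/1575) + 2 * t^2 * (2*(4/945 + 2*t^2/1575))) := by
          ring_nf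
          positivity
        linarith
      have hcs := Real.sin_sq_add_cos_sq t
      have key : 0 ≤ t^2 * (1 + (Real.cos t * Real.cos t + Real.sin t * (-Real.sin t))
        - (2 * Real.cos t * (Real.sin t / t) + 2 * Real.sin t * ((Real.cos t * t - Real.sin t * 1)/t^2))
        - ((2*(3*t^2) * Real.sin t^2 + 2*t^3*(2 * Real.sin t * Real.cos t)) * Mp (t^2)
          + 2 * t^3 * Real.sin t^2 * (2*t*(4/945 + 2*t^2/1575)))) := by
        have e : t^2 * (1 + (Real.cos t * Real.cos t + Real.sin t * (-Real.sin t))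
          - (2 * Real.cos t * (Real.sin t / t) + 2 * Real.sin t * ((Real.cos t * t - Real.sin t * 1)/t^2))
          - ((2*(3*t^2) * Real.sin t^2 + 2*t^3*(2 * Real.sin t * Real.cos t)) * Mp (t^2)
          + 2 * t^3 * Real.sin t^2 * (2*t*(4/945 + 2*t^2/1575))))
          = 2 * (Real.sin t - t * Real.cos t)^2
            - (6 * t^4 * Real.sin t^2 * Mp (t^2) + 4 * t^4 * Real.sin t * Mp (t^2) * (t * Real.cos t)
              + t^4 * Real.sin t^2 * (2 * t^2 * (2*(4/945 + 2*t^2/1575)))) := by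
          field_simp
          linear_combination (-(t^2 * 1488375)) * hcs
        rw [e]
        nlinarith [hsq, hk2, hpoly]
      exact nonneg_of_mul_nonneg_right key (by positivity)
  have h := hmono (left_mem_Icc.mpr Real.pi_pos.le) ⟨h0, h1⟩ h0
  have hF0 : F 0 = 0 := by simp [hF]
  rw [hF0] at h
  have hF1 : t * F t = t^2 + t * Real.sin t * Real.cos t - 2 * Real.sin t^2
      - 2 * t^4 * Real.sin t^2 * Mp (t^2) := by
    simp only [hF]
    rw [Real.sinc_of_ne_zero hpos.ne']
    field_simp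
  have := mul_nonneg hpos.le h
  rw [hF1] at this
  linarith

end Helper64.CubeGauss
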